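import Pool.Agent.Helper651.SR.Defs

set_option autoImplicit false
open MeasureTheory Set Filter Topology Classical
open scoped ENNReal

namespace Pool.Agent.Helper651.SR

theorem ae_good (V : Type) [Fintype V] : ∀ᵐ U ∂(mu V), (∀ p, 0 ≤ U p) ∧
    ∀ v, Function.Injective (fun w => U (v, w)) := by
  have hmu : mu V = (volume : Measure (V × V → ℝ)).restrict (Set.pi univ fun _ => Icc (0 : ℝ) 1) := by
    unfold mu lam
    rw [volume_pi, Measure.restrict_pi_pi]
  have h1 : ∀ᵐ U ∂(mu V), U ∈ Set.pi univ fun _ : V × V => Icc (0 : ℝ) 1 := by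
    rw [hmu]
    exact ae_restrict_mem (MeasurableSet.univ_pi fun _ => measurableSet_Icc)
  have h2 : ∀ p q : V × V, p ≠ q → ∀ᵐ U ∂(mu V), U p ≠ U q := by
    intro p q hpq
    rw [hmu]
    apply ae_restrict_of_ae
    let L : (V × V → ℝ) →ₗ[ℝ] ℝ := LinearMap.proj (R := ℝ) (φ := fun _ : V × V => ℝ) p - LinearMap.proj (R := ℝ) (φ := fun _ : V × V => ℝ) q
    have hL : LinearMap.ker L ≠ ⊤ := by
      intro h
      have h3 : (Pi.single p (1 : ℝ) : V × V → ℝ) ∈ LinearMap.ker L := by rw [h]; trivial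
      rw [LinearMap.mem_ker] at h3
      have h4 : (Pi.single p (1 : ℝ) : V × V → ℝ) p - (Pi.single p (1 : ℝ) : V × V → ℝ) q = 0 := h3
      rw [Pi.single_eq_same, Pi.single_eq_of_ne hpq.symm] at h4
      norm_num at h4
    have h5 := Measure.addHaar_submodule (volume : Measure (V × V → ℝ)) (LinearMap.ker L) hL
    rw [ae_iff]
    convert h5 using 2
    ext U
    simp [L, sub_eq_zero]
  have h3 : ∀ᵐ U ∂(mu V), ∀ p q : V × V, p ≠ q → U p ≠ U q := by
    rw [ae_all_iff]
    intro p
    rw [ae_all_iff]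
    intro q
    by_cases hpq : p = q
    · exact Eventually.of_forall fun U h => absurd hpq h
    · filter_upwards [h2 p q hpq] with U hU _ using hU
  filter_upwards [h1, h3] with U hU1 hU2
  refine ⟨fun p => (hU1 p (mem_univ p)).1, fun v w w' h => ?_⟩
  by_contra hne
  exact hU2 (v, w) (v, w') (fun h' => hne (Prod.ext_iff.mp h').2) h

end Pool.Agent.Helper651.SR
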