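import Pool.Agent.Helper651.SR.Defs

set_option autoImplicit false
open MeasureTheory Set Filter Topology Classical
open scoped ENNReal

namespace Pool.Agent.Helper651.SR

theorem card_IsM_pre (h : ℕ) (hh : 1 ≤ h) :
    (((2 * h).factorial : ℕ) : ℝ) / (2 ^ h * (h.factorial : ℝ)) ≤
      3 * h * ((2 * h : ℝ) / Real.exp 1) ^ h := by
  induction h, hh using Nat.le_induction with
  | base =>
    have h1 := Real.exp_one_lt_d9
    have h0 := Real.exp_pos 1
    norm_num
    rw [← mul_div_assoc, le_div_iff₀ h0]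
    linarith
  | succ h hh ih =>
    have hhR : (1 : ℝ) ≤ (h : ℝ) := by exact_mod_cast hh
    have hpos : (0 : ℝ) < (h : ℝ) := by linarith
    have he := Real.exp_pos 1
    -- left ratio
    have hL : ((((2 * (h + 1)).factorial : ℕ)) : ℝ) / (2 ^ (h + 1) * (((h + 1).factorial : ℕ) : ℝ)) =
        (2 * (h : ℝ) + 1) * ((((2 * h).factorial : ℕ) : ℝ) / (2 ^ h * (h.factorial : ℝ))) := by
      have e1 : (2 * (h + 1)).factorial = (2 * h + 2) * ((2 * h + 1) * (2 * h).factorial) := by
        rw [show 2 * (h + 1) = (2 * h + 1) + 1 by ring, Nat.factorial_succ, Nat.factorial_succ]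
      have e2 : (h + 1).factorial = (h + 1) * h.factorial := Nat.factorial_succ h
      have hf : ((h.factorial : ℕ) : ℝ) ≠ 0 := by exact_mod_cast (Nat.factorial_ne_zero h)
      rw [e1, e2]
      push_cast
      rw [pow_succ]
      field_simp
    -- key: e ≤ (1+1/h)^(h+1)
    have hkey : Real.exp 1 ≤ (((h : ℝ) + 1) / h) ^ (h + 1) := by
      have h1 : Real.exp (1 / ((h : ℝ) + 1)) ≤ ((h : ℝ) + 1) / h := by
        have h2 := Real.one_sub_le_exp_neg (1 / ((h : ℝ) + 1))
        have h3 : 1 - 1 / ((h : ℝ) + 1) = (h : ℝ) / (h + 1) := by field_simp; ring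
        rw [h3, Real.exp_neg] at h2
        have h4 : (0 : ℝ) < (h : ℝ) / (h + 1) := by positivity
        have h5 := inv_anti₀ h4 h2
        rw [inv_inv, inv_div] at h5
        exact h5
      have h6 : Real.exp 1 = Real.exp (1 / ((h : ℝ) + 1)) ^ (h + 1) := by
        rw [← Real.exp_nat_mul]
        congr 1
        push_cast
        field_simp
      rw [h6]
      exact pow_le_pow_left₀ (Real.exp_pos _).le h1 _
    have hR : 3 * ((h + 1 : ℕ) : ℝ) * ((2 * ((h + 1 : ℕ) : ℝ)) / Real.exp 1) ^ (h + 1) =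
        (3 * h * ((2 * h : ℝ) / Real.exp 1) ^ h) *
          ((((h : ℝ) + 1) / h) ^ (h + 1) * (2 * ((h : ℝ) + 1) / Real.exp 1)) := by
      push_cast
      have e1 : (2 * ((h : ℝ) + 1)) / Real.exp 1 = ((2 * h : ℝ) / Real.exp 1) * (((h : ℝ) + 1) / h) := by
        field_simp
      rw [pow_succ ((2 * ((h : ℝ) + 1)) / Real.exp 1) h]
      have e2 : ((2 * ((h : ℝ) + 1)) / Real.exp 1) ^ h =
          ((2 * h : ℝ) / Real.exp 1) ^ h * (((h : ℝ) + 1) / h) ^ h := by
        rw [e1, mul_pow]
      rw [e2, pow_succ (((h : ℝ) + 1) / h) h]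
      field_simp
    rw [hL, hR]
    have hA : 0 ≤ 3 * (h : ℝ) * ((2 * h : ℝ) / Real.exp 1) ^ h := by positivity
    have hB : 2 * (h : ℝ) + 1 ≤ (((h : ℝ) + 1) / h) ^ (h + 1) * (2 * ((h : ℝ) + 1) / Real.exp 1) := by
      have h7 : Real.exp 1 * (2 * ((h : ℝ) + 1) / Real.exp 1) ≤
          (((h : ℝ) + 1) / h) ^ (h + 1) * (2 * ((h : ℝ) + 1) / Real.exp 1) :=
        mul_le_mul_of_nonneg_right hkey (by positivity)
      have h8 : Real.exp 1 * (2 * ((h : ℝ) + 1) / Real.exp 1) = 2 * ((h : ℝ) + 1) := by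
        field_simp
      rw [h8] at h7
      linarith
    calc (2 * (h : ℝ) + 1) * ((((2 * h).factorial : ℕ) : ℝ) / (2 ^ h * (h.factorial : ℝ)))
        ≤ (2 * (h : ℝ) + 1) * (3 * h * ((2 * h : ℝ) / Real.exp 1) ^ h) :=
          mul_le_mul_of_nonneg_left ih (by positivity)
      _ = (3 * h * ((2 * h : ℝ) / Real.exp 1) ^ h) * (2 * (h : ℝ) + 1) := by ring
      _ ≤ _ := mul_le_mul_of_nonneg_left hB hA

theorem card_IsM_sub (V : Type) [Fintype V] (h : ℕ) (hh : 1 ≤ h) (hV : Fintype.card V = 2 * h) :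
    (Finset.univ.filter (fun m : V → V => IsM m)) ⊆
      Finset.image (fun g : Equiv.Perm V => (g : V → V)) (Finset.univ.filter (fun g : Equiv.Perm V =>
        g.cycleType = Multiset.replicate h 2)) := by
  intro m hm
  rw [Finset.mem_filter] at hm
  have hm' := hm.2
  rw [Finset.mem_image]
  let g : Equiv.Perm V := ⟨m, m, fun x => (hm' x).1, fun x => (hm' x).1⟩
  have hg : ∀ x, g x = m x := fun x => rfl
  refine ⟨g, ?_, rfl⟩
  rw [Finset.mem_filter]
  refine ⟨Finset.mem_univ _, ?_⟩
  have hne : Nonempty V := by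
    rw [← Fintype.card_pos_iff]; omega
  obtain ⟨x₀⟩ := hne
  have hg1 : g ≠ 1 := by
    intro h0
    have := (hm' x₀).2
    apply this
    rw [← hg, h0]; rfl
  have hg2 : g ^ 2 = 1 := by
    ext x
    rw [pow_two, Equiv.Perm.mul_apply, hg, hg, (hm' x).1]; rfl
  have hord : orderOf g = 2 := orderOf_eq_prime hg2 hg1
  obtain ⟨n, hn⟩ := Equiv.Perm.cycleType_prime_order (σ := g) (by rw [hord]; exact Nat.prime_two)
  rw [hord] at hn
  have hsup : g.support = Finset.univ := by
    ext x
    simp only [Equiv.Perm.mem_support, Finset.mem_univ, iff_true]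
    exact (hm' x).2
  have hsum := g.sum_cycleType
  rw [hn, hsup, Multiset.sum_replicate, Finset.card_univ, hV, smul_eq_mul] at hsum
  have : n + 1 = h := by omega
  rw [hn, this]


theorem card_IsM_count (V : Type) [Fintype V] (h : ℕ) (hh : 1 ≤ h) (hV : Fintype.card V = 2 * h) :
    ((Finset.univ.filter (fun m : V → V => IsM m)).card) * (2 ^ h * h.factorial) ≤
      (2 * h).factorial := by
  have key := Equiv.Perm.card_of_cycleType_mul_eq V (Multiset.replicate h 2)
  have h1 : (Multiset.replicate h 2).sum = 2 * h := by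
    rw [Multiset.sum_replicate, smul_eq_mul, mul_comm]
  have h2 : (Multiset.replicate h 2).prod = 2 ^ h := Multiset.prod_replicate _ _
  have h3 : (Multiset.replicate h 2).toFinset = {2} := by
    rw [Multiset.toFinset_replicate, if_neg (by omega)]
  rw [h1, h2, h3, Finset.prod_singleton, Multiset.count_replicate_self, hV, Nat.sub_self,
    Nat.factorial_zero, one_mul, if_pos ⟨le_refl _, fun a ha => by
      rw [Multiset.eq_of_mem_replicate ha]⟩] at key
  rw [← key]
  refine Nat.mul_le_mul_right _ ?_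
  have hsub : (Finset.univ.filter (fun m : V → V => IsM m)) ⊆
      Finset.image (fun g : Equiv.Perm V => (g : V → V)) (Finset.univ.filter (fun g : Equiv.Perm V =>
        g.cycleType = Multiset.replicate h 2)) := by
    exact card_IsM_sub V h hh hV
  exact (Finset.card_le_card hsub).trans Finset.card_image_le


theorem card_IsM (V : Type) [Fintype V] (h : ℕ) (hh : 1 ≤ h) (hV : Fintype.card V = 2 * h) :
    ((Finset.univ.filter (fun m : V → V => IsM m)).card : ℝ) ≤
      3 * h * ((2 * h : ℝ) / Real.exp 1) ^ h := by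
  have h1 := card_IsM_pre h hh
  have h2 := card_IsM_count V h hh hV
  refine le_trans ?_ h1
  have hpos : (0 : ℝ) < 2 ^ h * (h.factorial : ℝ) := by
    have := Nat.factorial_pos h
    positivity
  rw [le_div_iff₀ hpos]
  exact_mod_cast h2

end Pool.Agent.Helper651.SR
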