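import Pool.Agent.Helper651.SR.Defs

set_option autoImplicit false
open MeasureTheory Set Filter Topology Classical
open scoped ENNReal

namespace Pool.Agent.Helper651.SR

theorem dep1 {V I : Type} [Fintype V] [Fintype I] (L : ℝ) (f : I ↪ V) (τ : I → I)
    (ν : Equiv.Perm I) (m : V → V) (U : V × V → ℝ) (i j : I) (hj : j ≠ ν i) (a : ℝ) :
    Fw L f τ m (Function.update U (f i, f j) a) (sc f ν (Function.update U (f i, f j) a)) =
      Fw L f τ m U (sc f ν U) := by
  set U' := Function.update U (f i, f j) a with hU'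
  have h1 : ∀ w, w ∉ Set.range f → ∀ v, U' (w, v) = U (w, v) := by
    intro w hw v
    rw [hU', Function.update_of_ne]
    intro h
    exact hw ⟨i, (congrArg Prod.fst h).symm⟩
  have h2 : ∀ w, w ∉ Set.range f → ∀ v, U' (v, w) = U (v, w) := by
    intro w hw v
    rw [hU', Function.update_of_ne]
    intro h
    exact hw ⟨j, (congrArg Prod.snd h).symm⟩
  have h3 : sc f ν U' = sc f ν U := by
    funext i'
    unfold sc
    rw [hU', Function.update_of_ne]
    intro h
    have e1 : f i' = f i := congrArg Prod.fst h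
    have e2 : f (ν i') = f j := congrArg Prod.snd h
    have e3 := f.injective e1
    have e4 := f.injective e2
    rw [e3] at e4
    exact hj e4.symm
  have hStab : ∀ m : V → V, StabR f m U' ↔ StabR f m U := by
    intro m
    unfold StabR
    refine forall_congr' fun w => forall_congr' fun w' => ?_
    refine forall_congr' fun hw => forall_congr' fun hw' => ?_
    rw [h1 w hw w', h1 w hw (m w), h1 w' hw' w, h1 w' hw' (m w')]
  have hSurv : ∀ (m : V → V) (t : I → ℝ), Surv f m U' t ↔ Surv f m U t := by
    intro m t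
    unfold Surv
    refine forall_congr' fun i' => forall_congr' fun w => forall_congr' fun hw => ?_
    rw [h2 w hw (f i'), h1 w hw (f i'), h1 w hw (m w)]
  have hsum : ∀ (inst : DecidablePred (fun w : V => w ∉ Set.range f)) (m : V → V),
      ∑ w ∈ @Finset.filter V (fun w => w ∉ Set.range f) inst Finset.univ, U' (w, m w) =
      ∑ w ∈ @Finset.filter V (fun w => w ∉ Set.range f) inst Finset.univ, U (w, m w) := by
    intro inst m
    refine Finset.sum_congr rfl fun w hw => ?_
    rw [Finset.mem_filter] at hw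
    exact h1 w hw.2 _
  have hGd : ∀ (m : V → V) (t : I → ℝ), Gd L f m U' t ↔ Gd L f m U t := by
    intro m t
    unfold Gd
    rw [hsum _ m]
    refine and_congr_left fun _ => ?_
    refine forall_congr' fun w => forall_congr' fun hw => ?_
    rw [h1 w hw (m w)]
  have hZc : ∀ t : I → ℝ, Zc f τ U' t = Zc f τ U t := by
    intro t
    unfold Zc
    congr 1
    ext m
    simp only [Finset.mem_filter, hStab, hSurv]
  rw [h3]
  unfold Fw
  have hc : (IsM m ∧ (∀ i, m (f i) = f (τ i)) ∧ StabR f m U' ∧ Surv f m U' (sc f ν U) ∧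
      Gd L f m U' (sc f ν U)) ↔ (IsM m ∧ (∀ i, m (f i) = f (τ i)) ∧ StabR f m U ∧
      Surv f m U (sc f ν U) ∧ Gd L f m U (sc f ν U)) := by
    rw [hStab, hSurv, hGd]
  by_cases h : (IsM m ∧ (∀ i, m (f i) = f (τ i)) ∧ StabR f m U ∧
      Surv f m U (sc f ν U) ∧ Gd L f m U (sc f ν U))
  · rw [if_pos h, if_pos (hc.2 h), hZc]
  · rw [if_neg h, if_neg (fun h' => h (hc.1 h'))]

end Pool.Agent.Helper651.SR
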