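import Pool.Agent.Helper651.SR.Defs

set_option autoImplicit false
open MeasureTheory Set Filter Topology Classical
open scoped ENNReal

namespace Pool.Agent.Helper651.SR

theorem dep2_out {V I : Type} (f : I ↪ V) (τ : I → I) (m : V → V) (hm : IsM m)
    (hf : ∀ i, m (f i) = f (τ i)) (w : V) (hw : w ∉ Set.range f) : m w ∉ Set.range f := by
  rintro ⟨j, hj⟩
  apply hw
  refine ⟨τ j, ?_⟩
  rw [← hf j, hj, (hm w).1]

/-- agreement outside of two coordinates -/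
def dep2_Ag {V I : Type} (f : I ↪ V) (i : I) (w : V) (U U' : V × V → ℝ) : Prop :=
  ∀ x y, ¬ (x = f i ∧ y = w) → ¬ (x = w ∧ y = f i) → U (x, y) = U' (x, y)

theorem dep2_Ag_symm {V I : Type} {f : I ↪ V} {i : I} {w : V} {U U' : V × V → ℝ}
    (h : dep2_Ag f i w U U') : dep2_Ag f i w U' U := fun x y h1 h2 => (h x y h1 h2).symm

theorem dep2_oo {V I : Type} {f : I ↪ V} {i : I} {w : V} {U U' : V × V → ℝ}
    (h : dep2_Ag f i w U U') {x y : V} (hx : x ∉ Set.range f) (hy : y ∉ Set.range f) :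
    U (x, y) = U' (x, y) :=
  h x y (fun h1 => hx ⟨i, h1.1.symm⟩) (fun h1 => hy ⟨i, h1.2.symm⟩)

theorem dep2_stab {V I : Type} {f : I ↪ V} {i : I} {w : V} {U U' : V × V → ℝ}
    (h : dep2_Ag f i w U U') (τ : I → I) (m : V → V) (hm : IsM m)
    (hf : ∀ i, m (f i) = f (τ i)) (hS : StabR f m U) : StabR f m U' := by
  intro w1 w2 h1 h2 h3
  have := hS w1 w2 h1 h2 h3
  rw [dep2_oo h h1 h2, dep2_oo h h2 h1, dep2_oo h h1 (dep2_out f τ m hm hf w1 h1),
    dep2_oo h h2 (dep2_out f τ m hm hf w2 h2)] at this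
  exact this

theorem dep2_surv {V I : Type} {f : I ↪ V} {i : I} {w : V} (hw : w ∉ Set.range f) {U U' : V × V → ℝ}
    (h : dep2_Ag f i w U U') (τ : I → I) (m : V → V) (hm : IsM m)
    (hf : ∀ i, m (f i) = f (τ i)) (t : I → ℝ) (ht : t i ≤ U' (f i, w)) (hS : Surv f m U t) :
    Surv f m U' t := by
  intro j w1 h1
  by_cases hc : j = i ∧ w1 = w
  · rw [hc.1, hc.2]
    intro h2
    linarith [h2.1]
  · have h2 := hS j w1 h1
    have e1 : U (f j, w1) = U' (f j, w1) := by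
      apply h
      · rintro ⟨h3, h4⟩
        exact hc ⟨f.injective h3, h4⟩
      · rintro ⟨h3, _⟩
        exact hw ⟨j, h3⟩
    have e2 : U (w1, f j) = U' (w1, f j) := by
      apply h
      · rintro ⟨_, h4⟩
        exact hw ⟨j, h4⟩
      · rintro ⟨h3, h4⟩
        exact hc ⟨f.injective h4, h3⟩
    rw [e1, e2, dep2_oo h h1 (dep2_out f τ m hm hf w1 h1)] at h2
    exact h2

theorem dep2_gd {V I : Type} [Fintype V] {f : I ↪ V} {i : I} {w : V} {U U' : V × V → ℝ}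
    (h : dep2_Ag f i w U U') (L : ℝ) (τ : I → I) (m : V → V) (hm : IsM m)
    (hf : ∀ i, m (f i) = f (τ i)) (t : I → ℝ) (hS : Gd L f m U t) :
    Gd L f m U' t := by
  obtain ⟨h1, h2, h3, h4⟩ := hS
  have e : ∑ w ∈ Finset.univ.filter (fun w => w ∉ Set.range f), U (w, m w) =
      ∑ w ∈ Finset.univ.filter (fun w => w ∉ Set.range f), U' (w, m w) := by
    apply Finset.sum_congr rfl
    intro x hx
    have hx' := (Finset.mem_filter.1 hx).2
    exact dep2_oo h hx' (dep2_out f τ m hm hf x hx')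
  rw [e] at h3 h4
  refine ⟨fun x hx => ?_, h2, h3, h4⟩
  have := h1 x hx
  rw [dep2_oo h hx (dep2_out f τ m hm hf x hx)] at this
  exact this

theorem dep2_Zc {V I : Type} [Fintype V] {f : I ↪ V} {i : I} {w : V} (hw : w ∉ Set.range f)
    {U U' : V × V → ℝ} (h : dep2_Ag f i w U U') (τ : I → I) (t : I → ℝ)
    (ht : t i ≤ U (f i, w)) (ht' : t i ≤ U' (f i, w)) : Zc f τ U t = Zc f τ U' t := by
  unfold Zc
  congr 1
  apply Finset.filter_congr
  intro m _
  constructor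
  · rintro ⟨h1, h2, h3, h4⟩
    exact ⟨h1, h2, dep2_stab h τ m h1 h2 h3, dep2_surv hw h τ m h1 h2 t ht' h4⟩
  · rintro ⟨h1, h2, h3, h4⟩
    exact ⟨h1, h2, dep2_stab (dep2_Ag_symm h) τ m h1 h2 h3,
      dep2_surv hw (dep2_Ag_symm h) τ m h1 h2 t ht h4⟩

theorem dep2_Fw {V I : Type} [Fintype V] {f : I ↪ V} {i : I} {w : V} (hw : w ∉ Set.range f)
    {U U' : V × V → ℝ} (h : dep2_Ag f i w U U') (L : ℝ) (τ : I → I) (m : V → V) (t : I → ℝ)
    (ht : t i ≤ U (f i, w)) (ht' : t i ≤ U' (f i, w)) : Fw L f τ m U t = Fw L f τ m U' t := by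
  have hiff : (IsM m ∧ (∀ i, m (f i) = f (τ i)) ∧ StabR f m U ∧ Surv f m U t ∧ Gd L f m U t) ↔
      (IsM m ∧ (∀ i, m (f i) = f (τ i)) ∧ StabR f m U' ∧ Surv f m U' t ∧ Gd L f m U' t) := by
    constructor
    · rintro ⟨h1, h2, h3, h4, h5⟩
      exact ⟨h1, h2, dep2_stab h τ m h1 h2 h3, dep2_surv hw h τ m h1 h2 t ht' h4,
        dep2_gd h L τ m h1 h2 t h5⟩
    · rintro ⟨h1, h2, h3, h4, h5⟩
      exact ⟨h1, h2, dep2_stab (dep2_Ag_symm h) τ m h1 h2 h3,
        dep2_surv hw (dep2_Ag_symm h) τ m h1 h2 t ht h4, dep2_gd (dep2_Ag_symm h) L τ m h1 h2 t h5⟩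
  unfold Fw
  rw [dep2_Zc hw h τ t ht ht']
  by_cases hc : (IsM m ∧ (∀ i, m (f i) = f (τ i)) ∧ StabR f m U ∧ Surv f m U t ∧ Gd L f m U t)
  · rw [if_pos hc, if_pos (hiff.1 hc)]
  · rw [if_neg hc, if_neg (fun h' => hc (hiff.2 h'))]

theorem dep2_upd {V I : Type} (f : I ↪ V) (U : V × V → ℝ) (i : I) (w : V) (hw : w ∉ Set.range f)
    (a b : ℝ) : (∀ x y, ¬ (x = f i ∧ y = w) → ¬ (x = w ∧ y = f i) →
      Function.update (Function.update U (f i, w) a) (w, f i) b (x, y) = U (x, y)) ∧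
      Function.update (Function.update U (f i, w) a) (w, f i) b (f i, w) = a := by
  constructor
  · intro x y h1 h2
    rw [Function.update_of_ne (fun h => h2 ⟨(Prod.mk.inj h).1, (Prod.mk.inj h).2⟩),
      Function.update_of_ne (fun h => h1 ⟨(Prod.mk.inj h).1, (Prod.mk.inj h).2⟩)]
  · rw [Function.update_of_ne (fun h => hw ⟨i, (Prod.mk.inj h).1⟩), Function.update_self]

theorem dep2 {V I : Type} [Fintype V] [Fintype I] (L : ℝ) (f : I ↪ V) (τ : I → I)
    (ν : Equiv.Perm I) (m : V → V) (U : V × V → ℝ) (i : I) (w : V) (hw : w ∉ Set.range f)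
    (a b a' b' : ℝ) (ha : sc f ν U i ≤ a) (ha' : sc f ν U i ≤ a') :
    Fw L f τ m (Function.update (Function.update U (f i, w) a) (w, f i) b)
        (sc f ν (Function.update (Function.update U (f i, w) a) (w, f i) b)) =
      Fw L f τ m (Function.update (Function.update U (f i, w) a') (w, f i) b')
        (sc f ν (Function.update (Function.update U (f i, w) a') (w, f i) b')) := by
  obtain ⟨h1, h2⟩ := dep2_upd f U i w hw a b
  obtain ⟨h1', h2'⟩ := dep2_upd f U i w hw a' b'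
  have hs : ∀ (U1 : V × V → ℝ), (∀ x y, ¬ (x = f i ∧ y = w) → ¬ (x = w ∧ y = f i) →
      U1 (x, y) = U (x, y)) → sc f ν U1 = sc f ν U := by
    intro U1 hU1
    funext j
    unfold sc
    apply hU1
    · rintro ⟨_, h⟩
      exact hw ⟨_, h⟩
    · rintro ⟨h, _⟩
      exact hw ⟨_, h⟩
  rw [hs _ h1, hs _ h1']
  refine dep2_Fw (i := i) hw ?_ L τ m (sc f ν U) ?_ ?_
  · intro x y h3 h4
    rw [h1 x y h3 h4, h1' x y h3 h4]
  · rw [h2]; exact ha
  · rw [h2']; exact ha'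

end Pool.Agent.Helper651.SR
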