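import Pool.Agent.Helper651.SR.Defs

set_option autoImplicit false
open MeasureTheory Set Filter Topology Classical
open scoped ENNReal

namespace Pool.Agent.Helper651.SR

theorem G1 {ι : Type} [Fintype ι] (i : ι) (F G : (ι → ℝ) → ℝ≥0∞) (hF : Measurable F)
    (hG : Measurable G)
    (h : ∀ U, ∫⁻ a, F (Function.update U i a) ∂lam ≤ ∫⁻ a, G (Function.update U i a) ∂lam) :
    ∫⁻ U, F U ∂(Measure.pi fun _ : ι => lam) ≤ ∫⁻ U, G U ∂(Measure.pi fun _ : ι => lam) := by
  refine lintegral_le_of_lmarginal_le (μ := fun _ : ι => lam) {i} hF hG ?_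
  rw [lmarginal_singleton, lmarginal_singleton]
  exact h

theorem G1_eq {ι : Type} [Fintype ι] (i : ι) (F : (ι → ℝ) → ℝ≥0∞) (hF : Measurable F) :
    ∫⁻ U, F U ∂(Measure.pi fun _ : ι => lam) =
      ∫⁻ U, (∫⁻ a, F (Function.update U i a) ∂lam) ∂(Measure.pi fun _ : ι => lam) := by
  have hm : Measurable (fun U : ι → ℝ => ∫⁻ a, F (Function.update U i a) ∂lam) := by
    have h1 : Measurable (lmarginal (fun _ : ι => lam) {i} F) := hF.lmarginal _
    rw [lmarginal_singleton] at h1
    exact h1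
  refine lintegral_eq_of_lmarginal_eq (μ := fun _ : ι => lam) {i} hF hm ?_
  rw [lmarginal_singleton, lmarginal_singleton]
  funext U
  simp only [Function.update_idem, lintegral_const, measure_univ, mul_one]

theorem G2 {ι : Type} [Fintype ι] (i j : ι) (hij : i ≠ j) (F G : (ι → ℝ) → ℝ≥0∞)
    (hF : Measurable F) (hG : Measurable G)
    (h : ∀ U, ∫⁻ a, ∫⁻ b, F (Function.update (Function.update U i a) j b) ∂lam ∂lam ≤
      ∫⁻ a, ∫⁻ b, G (Function.update (Function.update U i a) j b) ∂lam ∂lam) :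
    ∫⁻ U, F U ∂(Measure.pi fun _ : ι => lam) ≤ ∫⁻ U, G U ∂(Measure.pi fun _ : ι => lam) := by
  refine lintegral_le_of_lmarginal_le (μ := fun _ : ι => lam) {i, j} hF hG ?_
  have hij' : i ∉ ({j} : Finset ι) := by simpa using hij
  intro U
  rw [lmarginal_insert F hF hij', lmarginal_insert G hG hij', lmarginal_singleton,
    lmarginal_singleton]
  exact h U

end Pool.Agent.Helper651.SR
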