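import Pool.Agent.Helper651.SR.Defs

set_option autoImplicit false
open MeasureTheory Set Filter Topology Classical
open scoped ENNReal

namespace Pool.Agent.Helper651.SR

theorem mlt' {V : Type} {a b : (V × V → ℝ) → ℝ} (ha : Measurable a) (hb : Measurable b) :
    Measurable (fun U => a U < b U) := measurableSet_setOfPred.1 (measurableSet_lt ha hb)

theorem mle' {V : Type} {a b : (V × V → ℝ) → ℝ} (ha : Measurable a) (hb : Measurable b) :
    Measurable (fun U => a U ≤ b U) := measurableSet_setOfPred.1 (measurableSet_le ha hb)

theorem mStabR {V I : Type} [Fintype V] (f : I ↪ V) (m : V → V) :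
    Measurable (fun U : V × V → ℝ => StabR f m U) := by
  unfold StabR
  refine Measurable.forall fun w => Measurable.forall fun w' => ?_
  refine Measurable.imp measurable_const (Measurable.imp measurable_const
    (Measurable.imp measurable_const ?_))
  exact (Measurable.and (mlt' (measurable_pi_apply _) (measurable_pi_apply _))
    (mlt' (measurable_pi_apply _) (measurable_pi_apply _))).not

theorem mSurv {V I : Type} [Fintype V] [Fintype I] (f : I ↪ V) (ν : Equiv.Perm I) (m : V → V) :
    Measurable (fun U : V × V → ℝ => Surv f m U (sc f ν U)) := by
  unfold Surv sc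
  refine Measurable.forall fun i => Measurable.forall fun w => ?_
  refine Measurable.imp measurable_const ?_
  exact (Measurable.and (mlt' (measurable_pi_apply _) (measurable_pi_apply _))
    (mlt' (measurable_pi_apply _) (measurable_pi_apply _))).not

theorem mGd {V I : Type} [Fintype V] [Fintype I] (L : ℝ) (f : I ↪ V) (ν : Equiv.Perm I)
    (m : V → V) : Measurable (fun U : V × V → ℝ => Gd L f m U (sc f ν U)) := by
  unfold Gd sc
  refine Measurable.and ?_ (Measurable.and ?_ (Measurable.and ?_ ?_))
  · refine Measurable.forall fun w => Measurable.imp measurable_const ?_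
    exact Measurable.and (mle' measurable_const (measurable_pi_apply _))
      (mle' (measurable_pi_apply _) measurable_const)
  · refine Measurable.forall fun i => ?_
    exact Measurable.and (mle' measurable_const (measurable_pi_apply _))
      (mle' (measurable_pi_apply _) measurable_const)
  · exact mle' measurable_const (Finset.measurable_sum _ fun w _ => measurable_pi_apply _)
  · exact mle' (Finset.measurable_sum _ fun w _ => measurable_pi_apply _) measurable_const

theorem mZc {V I : Type} [Fintype V] [Fintype I] (f : I ↪ V) (τ : I → I) (ν : Equiv.Perm I) :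
    Measurable (fun U : V × V → ℝ => ((Zc f τ U (sc f ν U) : ℕ) : ℝ≥0∞)) := by
  have h : (fun U : V × V → ℝ => ((Zc f τ U (sc f ν U) : ℕ) : ℝ≥0∞)) = fun U =>
      ∑ m : V → V, if (IsM m ∧ (∀ i, m (f i) = f (τ i)) ∧ StabR f m U ∧ Surv f m U (sc f ν U))
        then (1 : ℝ≥0∞) else 0 := by
    funext U
    unfold Zc
    rw [Finset.card_filter]
    push_cast
    rfl
  rw [h]
  refine Finset.measurable_sum _ fun m _ => Measurable.ite ?_ measurable_const measurable_const
  exact measurableSet_setOfPred.2 (Measurable.and measurable_const (Measurable.and measurable_const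
    (Measurable.and (mStabR f m) (mSurv f ν m))))


theorem meas_Fw {V I : Type} [Fintype V] [Fintype I] (L : ℝ) (f : I ↪ V) (τ : I → I)
    (ν : Equiv.Perm I) (m : V → V) : Measurable (fun U => Fw L f τ m U (sc f ν U)) := by
  unfold Fw
  refine Measurable.ite ?_ (mZc f τ ν).inv measurable_const
  exact measurableSet_setOfPred.2 (Measurable.and measurable_const (Measurable.and measurable_const
    (Measurable.and (mStabR f m) (Measurable.and (mSurv f ν m) (mGd L f ν m)))))

end Pool.Agent.Helper651.SR
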