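import Pool.Agent.Helper651.SR.Defs

set_option autoImplicit false
open MeasureTheory Set Filter Topology Classical
open scoped ENNReal

namespace Pool.Agent.Helper651.SR

theorem lam_Ico' (u v : ℝ) (hu : 0 ≤ u) (hv : v ≤ 1) : lam (Ico u v) = ENNReal.ofReal (v - u) := by
  unfold lam
  rw [Measure.restrict_apply measurableSet_Ico, inter_eq_left.mpr, Real.volume_Ico]
  intro z hz
  exact ⟨hu.trans hz.1, hz.2.le.trans hv⟩

theorem lam_Ici' (u : ℝ) (hu : 0 ≤ u) : lam (Ici u) = ENNReal.ofReal (1 - u) := by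
  unfold lam
  rw [Measure.restrict_apply measurableSet_Ici]
  have : Ici u ∩ Icc 0 1 = Icc u 1 := by
    ext z
    simp only [mem_inter_iff, mem_Ici, mem_Icc]
    constructor
    · rintro ⟨h1, h2, h3⟩; exact ⟨h1, h3⟩
    · rintro ⟨h1, h2⟩; exact ⟨h1, hu.trans h1, h2⟩
  rw [this, Real.volume_Icc]

theorem slot (s y x : ℝ) (hs0 : 0 ≤ s) (hs1 : s ≤ 1 / 2) (hsy : s ≤ y) (hy : y ≤ 1) (hx0 : 0 ≤ x)
    (hx1 : x ≤ 1) (φ : ℝ → ℝ → ℝ≥0∞) (hm : Measurable (Function.uncurry φ))
    (hφ : ∀ a b a' b', s ≤ a → s ≤ a' → φ a b = φ a' b') :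
    ∫⁻ a, ∫⁻ b, φ a b * ENNReal.ofReal (1 - (y - s) * x / (1 - s)) ∂lam ∂lam ≤
      ∫⁻ a, ∫⁻ b, φ a b * (if s ≤ a ∧ a < y ∧ b < x then 0 else 1) ∂lam ∂lam := by
  set θ : ℝ := 1 - (y - s) * x / (1 - s) with hθ
  have h1s : 0 < 1 - s := by linarith
  have hθ0 : 0 ≤ θ := by
    rw [hθ, sub_nonneg, div_le_one h1s]
    nlinarith
  have hθ1 : θ ≤ 1 := by
    rw [hθ]
    have : 0 ≤ (y - s) * x / (1 - s) := div_nonneg (mul_nonneg (by linarith) hx0) h1s.le
    linarith
  have hθ1' : ENNReal.ofReal θ ≤ 1 := ENNReal.ofReal_le_one.mpr hθ1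
  rw [← lintegral_add_compl (μ := lam) (fun a => ∫⁻ b, φ a b * ENNReal.ofReal θ ∂lam)
    (measurableSet_Iio (a := s)),
    ← lintegral_add_compl (μ := lam)
      (fun a => ∫⁻ b, φ a b * (if s ≤ a ∧ a < y ∧ b < x then 0 else 1) ∂lam)
      (measurableSet_Iio (a := s))]
  apply add_le_add
  · apply setLIntegral_mono' measurableSet_Iio
    intro a ha
    apply lintegral_mono
    intro b
    have : ¬ (s ≤ a ∧ a < y ∧ b < x) := fun h => absurd h.1 (not_le.mpr ha)
    simp only [this, if_false]
    gcongr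
  · apply le_of_eq
    set c := φ s 0
    have hc : ∀ a b, s ≤ a → φ a b = c := fun a b h => hφ a b s 0 h le_rfl
    have hL : ∫⁻ a in (Iio s)ᶜ, ∫⁻ b, φ a b * ENNReal.ofReal θ ∂lam ∂lam =
        c * ENNReal.ofReal θ * ENNReal.ofReal (1 - s) := by
      rw [setLIntegral_congr_fun (measurableSet_Iio.compl) (g := fun _ => c * ENNReal.ofReal θ)]
      · rw [setLIntegral_const, compl_Iio, lam_Ici' s hs0]
      · intro a ha
        simp only [mem_compl_iff, mem_Iio, not_lt] at ha
        simp only [hc a _ ha]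
        simp
    have hR : ∫⁻ a in (Iio s)ᶜ, ∫⁻ b, φ a b * (if s ≤ a ∧ a < y ∧ b < x then 0 else 1) ∂lam ∂lam =
        c * ENNReal.ofReal (1 - x) * ENNReal.ofReal (y - s) + c * ENNReal.ofReal (1 - y) := by
      have h1 : ∀ a ∈ (Iio s)ᶜ,
          ∫⁻ b, φ a b * (if s ≤ a ∧ a < y ∧ b < x then 0 else 1) ∂lam =
          (Ico s y).indicator (fun _ => c * ENNReal.ofReal (1 - x)) a +
            (Ici y).indicator (fun _ => c) a := by
        intro a ha
        simp only [mem_compl_iff, mem_Iio, not_lt] at ha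
        simp only [hc a _ ha]
        by_cases hay : a < y
        · rw [indicator_of_mem (show a ∈ Ico s y from ⟨ha, hay⟩),
            indicator_of_notMem (show a ∉ Ici y from fun h => absurd h (not_le.mpr hay))]
          have : ∀ b, c * (if s ≤ a ∧ a < y ∧ b < x then 0 else 1 : ℝ≥0∞) =
              (Ici x).indicator (fun _ => c) b := by
            intro b
            by_cases hb : b < x
            · rw [indicator_of_notMem (show b ∉ Ici x from fun h => absurd h (not_le.mpr hb)),
                if_pos ⟨ha, hay, hb⟩, mul_zero]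
            · rw [indicator_of_mem (show b ∈ Ici x from not_lt.mp hb),
                if_neg (fun h => hb h.2.2), mul_one]
          simp_rw [this]
          rw [lintegral_indicator_const measurableSet_Ici, lam_Ici' x hx0, add_zero]
        · rw [indicator_of_notMem (show a ∉ Ico s y from fun h => hay h.2),
            indicator_of_mem (show a ∈ Ici y from not_lt.mp hay)]
          have : ∀ b, c * (if s ≤ a ∧ a < y ∧ b < x then 0 else 1 : ℝ≥0∞) = c := by
            intro b
            rw [if_neg (fun h => hay h.2.1), mul_one]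
          simp_rw [this]
          simp
      rw [setLIntegral_congr_fun (measurableSet_Iio.compl) h1,
        lintegral_add_left (by exact measurable_const.indicator measurableSet_Ico),
        lintegral_indicator_const measurableSet_Ico, lintegral_indicator_const measurableSet_Ici,
        Measure.restrict_apply measurableSet_Ico, Measure.restrict_apply measurableSet_Ici]
      have e1 : Ico s y ∩ (Iio s)ᶜ = Ico s y := by
        apply inter_eq_left.mpr
        intro z hz
        simp only [mem_compl_iff, mem_Iio, not_lt]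
        exact hz.1
      have e2 : Ici y ∩ (Iio s)ᶜ = Ici y := by
        apply inter_eq_left.mpr
        intro z hz
        simp only [mem_compl_iff, mem_Iio, not_lt]
        exact hsy.trans hz
      rw [e1, e2, lam_Ico' s y hs0 hy, lam_Ici' y (hs0.trans hsy)]
    rw [hL, hR, mul_assoc, mul_assoc, ← mul_add, ← ENNReal.ofReal_mul hθ0,
      ← ENNReal.ofReal_mul (by linarith), ← ENNReal.ofReal_add
        (mul_nonneg (by linarith) (by linarith)) (by linarith)]
    congr 2
    rw [hθ]
    field_simp
    ring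

end Pool.Agent.Helper651.SR
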