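import Pool.Agent.Helper651.SR.Defs
import Pool.Agent.Helper651.SR.MeasFw
import Pool.Agent.Helper651.SR.G1
import Pool.Agent.Helper651.SR.Slot
import Pool.Agent.Helper651.SR.Dep1
import Pool.Agent.Helper651.SR.Dep2

set_option autoImplicit false
open MeasureTheory Set Filter Topology Classical
open scoped ENNReal

namespace Pool.Agent.Helper651.SR

theorem G2' {V : Type} [Fintype V] (i j : V × V) (hij : i ≠ j) (F G : (V × V → ℝ) → ℝ≥0∞)
    (hF : Measurable F) (hG : Measurable G)
    (h : ∀ U, ∫⁻ a, ∫⁻ b, F (Function.update (Function.update U i a) j b) ∂lam ∂lam ≤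
      ∫⁻ a, ∫⁻ b, G (Function.update (Function.update U i a) j b) ∂lam ∂lam) :
    ∫⁻ U, F U ∂(mu V) ≤ ∫⁻ U, G U ∂(mu V) := by
  unfold mu
  apply G2 i j hij F G hF hG
  intro U
  have e : (instDecidableEqProd : DecidableEq (V × V)) =
      fun a b => Classical.propDecidable (a = b) := by
    funext a b
    exact Subsingleton.elim _ _
  have h' := h U
  rw [e] at h'
  exact h'

theorem meas_sc {V I : Type} (f : I ↪ V) (ν : Equiv.Perm I) (i : I) :
    Measurable (fun U : V × V → ℝ => sc f ν U i) := by
  unfold sc; exact measurable_pi_apply _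

theorem meas_yc {V I : Type} (f : I ↪ V) (ν : Equiv.Perm I) (i : I) :
    Measurable (fun U : V × V → ℝ => yc f ν U i) := by
  unfold yc; exact measurable_pi_apply _

theorem meas_Ai {V I : Type} (δ : ℝ) (f : I ↪ V) (ν : Equiv.Perm I) (i : I) :
    Measurable (fun U : V × V → ℝ => Ai δ f ν U i) := by
  unfold Ai
  apply Measurable.ite _ measurable_const measurable_const
  exact (measurableSet_lt (meas_sc f ν i) (meas_yc f ν i)).inter
    (measurableSet_le (meas_yc f ν i) ((meas_sc f ν i).add_const δ))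

theorem meas_gi {V I : Type} (f : I ↪ V) (ν : Equiv.Perm I) (m : V → V) (i : I) (w : V) :
    Measurable (fun U : V × V → ℝ => gi f ν m U i (yc f ν U i) w) := by
  unfold gi
  apply Measurable.ennreal_ofReal
  have h1 := meas_sc f ν i
  have h2 := meas_yc f ν i
  have h3 : Measurable (fun U : V × V → ℝ => U (w, m w)) := measurable_pi_apply _
  exact measurable_const.sub (((h2.sub h1).mul h3).div (measurable_const.sub h1))

theorem meas_hi {V I : Type} (f : I ↪ V) (ν : Equiv.Perm I) (m : V → V) (i : I) (w : V) :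
    Measurable (fun U : V × V → ℝ => hi f ν m U i w) := by
  unfold hi
  apply Measurable.ite _ measurable_const measurable_const
  have h1 := meas_sc f ν i
  have h2 := meas_yc f ν i
  have h3 : Measurable (fun U : V × V → ℝ => U (w, m w)) := measurable_pi_apply _
  have h4 : Measurable (fun U : V × V → ℝ => U (f i, w)) := measurable_pi_apply _
  have h5 : Measurable (fun U : V × V → ℝ => U (w, f i)) := measurable_pi_apply _
  exact (measurableSet_le h1 h4).inter ((measurableSet_lt h4 h2).inter (measurableSet_lt h5 h3))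

theorem Fw_zero {V I : Type} [Fintype V] (L : ℝ) (f : I ↪ V) (τ : I → I) (m : V → V)
    (U : V × V → ℝ) (t : I → ℝ) (h : ¬ (IsM m ∧ (∀ i, m (f i) = f (τ i)))) :
    Fw L f τ m U t = 0 := by
  unfold Fw
  rw [if_neg]
  rintro ⟨h1, h2, -⟩
  exact h ⟨h1, h2⟩

theorem Fw_Gd {V I : Type} [Fintype V] (L : ℝ) (f : I ↪ V) (τ : I → I) (m : V → V)
    (U : V × V → ℝ) (t : I → ℝ) (h : Fw L f τ m U t ≠ 0) : Gd L f m U t := by
  unfold Fw at h
  by_contra hc
  apply h
  rw [if_neg]
  rintro ⟨-, -, -, -, h2⟩
  exact hc h2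

theorem up_ne {V : Type} (U : V × V → ℝ) (p q r : V × V) (a b : ℝ) (h1 : r ≠ p) (h2 : r ≠ q) :
    Function.update (Function.update U p a) q b r = U r := by
  rw [Function.update_of_ne h2, Function.update_of_ne h1]

theorem up_sc {V I : Type} (f : I ↪ V) (ν : Equiv.Perm I) (U : V × V → ℝ) (i : I) (w : V)
    (hw : w ∉ Set.range f) (a b : ℝ) :
    sc f ν (Function.update (Function.update U (f i, w) a) (w, f i) b) = sc f ν U := by
  funext i'
  unfold sc
  apply up_ne
  · intro h
    exact hw ⟨ν i', (Prod.ext_iff.1 h).2⟩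
  · intro h
    exact hw ⟨i', (Prod.ext_iff.1 h).1⟩

theorem up_yc {V I : Type} (f : I ↪ V) (ν : Equiv.Perm I) (U : V × V → ℝ) (i : I) (w : V)
    (hw : w ∉ Set.range f) (a b : ℝ) :
    yc f ν (Function.update (Function.update U (f i, w) a) (w, f i) b) = yc f ν U := by
  funext i'
  unfold yc
  apply up_ne
  · intro h
    exact hw ⟨ν⁻¹ i', (Prod.ext_iff.1 h).2⟩
  · intro h
    exact hw ⟨i', (Prod.ext_iff.1 h).1⟩

theorem up_m {V I : Type} (f : I ↪ V) (m : V → V) (τ : I → I)
    (hm : IsM m) (hmf : ∀ i, m (f i) = f (τ i)) (U : V × V → ℝ) (i : I) (w w' : V)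
    (hw : w ∉ Set.range f) (hw' : w' ∉ Set.range f) (a b : ℝ) :
    Function.update (Function.update U (f i, w) a) (w, f i) b (w', m w') = U (w', m w') := by
  apply up_ne
  · intro h
    exact hw' ⟨i, (Prod.ext_iff.1 h).1.symm⟩
  · intro h
    have h1 : w' = w := (Prod.ext_iff.1 h).1
    have h2 : m w' = f i := (Prod.ext_iff.1 h).2
    apply hw'
    refine ⟨τ i, ?_⟩
    rw [← hmf, ← h2]
    exact (hm w').1

theorem up_gi {V I : Type} (f : I ↪ V) (ν : Equiv.Perm I) (m : V → V) (τ : I → I)
    (hm : IsM m) (hmf : ∀ i, m (f i) = f (τ i)) (U : V × V → ℝ) (i i' : I) (w w' : V)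
    (hw : w ∉ Set.range f) (hw' : w' ∉ Set.range f) (a b : ℝ) :
    gi f ν m (Function.update (Function.update U (f i, w) a) (w, f i) b) i'
      (yc f ν (Function.update (Function.update U (f i, w) a) (w, f i) b) i') w' =
    gi f ν m U i' (yc f ν U i') w' := by
  unfold gi
  rw [up_sc f ν U i w hw, up_yc f ν U i w hw, up_m f m τ hm hmf U i w w' hw hw']

theorem up_hi {V I : Type} (f : I ↪ V) (ν : Equiv.Perm I) (m : V → V) (τ : I → I)
    (hm : IsM m) (hmf : ∀ i, m (f i) = f (τ i)) (U : V × V → ℝ) (i i' : I) (w w' : V)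
    (hw : w ∉ Set.range f) (hw' : w' ∉ Set.range f) (hne : (i', w') ≠ (i, w)) (a b : ℝ) :
    hi f ν m (Function.update (Function.update U (f i, w) a) (w, f i) b) i' w' =
    hi f ν m U i' w' := by
  have h1 : Function.update (Function.update U (f i, w) a) (w, f i) b (f i', w') = U (f i', w') := by
    apply up_ne
    · intro h
      apply hne
      have e1 := (Prod.ext_iff.1 h).1
      have e2 := (Prod.ext_iff.1 h).2
      simp only at e1 e2
      rw [f.injective e1, e2]
    · intro h
      exact hw ⟨i', (Prod.ext_iff.1 h).1⟩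
  have h2 : Function.update (Function.update U (f i, w) a) (w, f i) b (w', f i') = U (w', f i') := by
    apply up_ne
    · intro h
      exact hw' ⟨i, (Prod.ext_iff.1 h).1.symm⟩
    · intro h
      apply hne
      have e1 := (Prod.ext_iff.1 h).1
      have e2 := (Prod.ext_iff.1 h).2
      simp only at e1 e2
      rw [f.injective e2, e1]
  unfold hi
  rw [up_sc f ν U i w hw, up_yc f ν U i w hw, up_m f m τ hm hmf U i w w' hw hw', h1, h2]

theorem up_hi_self {V I : Type} (f : I ↪ V) (ν : Equiv.Perm I) (m : V → V) (τ : I → I)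
    (hm : IsM m) (hmf : ∀ i, m (f i) = f (τ i)) (U : V × V → ℝ) (i : I) (w : V)
    (hw : w ∉ Set.range f) (a b : ℝ) :
    hi f ν m (Function.update (Function.update U (f i, w) a) (w, f i) b) i w =
    if sc f ν U i ≤ a ∧ a < yc f ν U i ∧ b < U (w, m w) then 0 else 1 := by
  have h0 : (f i, w) ≠ (w, f i) := by
    intro h
    exact hw ⟨i, (Prod.ext_iff.1 h).1⟩
  have h1 : Function.update (Function.update U (f i, w) a) (w, f i) b (f i, w) = a := by
    rw [Function.update_of_ne h0, Function.update_self]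
  have h2 : Function.update (Function.update U (f i, w) a) (w, f i) b (w, f i) = b := by
    rw [Function.update_self]
  unfold hi
  rw [up_sc f ν U i w hw, up_yc f ν U i w hw, up_m f m τ hm hmf U i w w hw hw, h1, h2]

theorem up_Ai {V I : Type} (δ : ℝ) (f : I ↪ V) (ν : Equiv.Perm I) (U : V × V → ℝ) (i i' : I) (w : V)
    (hw : w ∉ Set.range f) (a b : ℝ) :
    Ai δ f ν (Function.update (Function.update U (f i, w) a) (w, f i) b) i' = Ai δ f ν U i' := by
  unfold Ai
  rw [up_sc f ν U i w hw, up_yc f ν U i w hw]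

theorem inner_ineq {V I : Type} [Fintype V] [Fintype I] (L δ : ℝ) (hδ : δ ≤ 1 / 4)
    (hLn : L / √(Fintype.card V) ≤ 1 / 4) (f : I ↪ V) (τ : I → I) (ν : Equiv.Perm I) (m : V → V)
    (U : V × V → ℝ) (i : I) (w : V) (hw : w ∉ Set.range f) (C : ℝ≥0∞)
    (hC : C ≠ 0 → Ai δ f ν U i ≠ 0) (hm : IsM m) (hmf : ∀ i, m (f i) = f (τ i)) :
    ∫⁻ a, ∫⁻ b, (Fw L f τ m (Function.update (Function.update U (f i, w) a) (w, f i) b)
        (sc f ν (Function.update (Function.update U (f i, w) a) (w, f i) b)) * C) *
        ENNReal.ofReal (1 - (yc f ν U i - sc f ν U i) * U (w, m w) / (1 - sc f ν U i)) ∂lam ∂lam ≤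
    ∫⁻ a, ∫⁻ b, (Fw L f τ m (Function.update (Function.update U (f i, w) a) (w, f i) b)
        (sc f ν (Function.update (Function.update U (f i, w) a) (w, f i) b)) * C) *
        (if sc f ν U i ≤ a ∧ a < yc f ν U i ∧ b < U (w, m w) then 0 else 1) ∂lam ∂lam := by
  by_cases hz : ∀ a b, (Fw L f τ m (Function.update (Function.update U (f i, w) a) (w, f i) b)
        (sc f ν (Function.update (Function.update U (f i, w) a) (w, f i) b)) * C) = 0
  · simp [hz]
  · push Not at hz
    obtain ⟨a0, b0, hab⟩ := hz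
    have hF0 := left_ne_zero_of_mul hab
    have hC0 := right_ne_zero_of_mul hab
    have hA := hC hC0
    have hG := Fw_Gd _ _ _ _ _ _ hF0
    obtain ⟨g1, g2, -, -⟩ := hG
    have g2i := g2 i
    have g1w := g1 w hw
    rw [up_sc f ν U i w hw] at g2i
    rw [up_m f m τ hm hmf U i w w hw hw] at g1w
    have hAA : sc f ν U i < yc f ν U i ∧ yc f ν U i ≤ sc f ν U i + δ := by
      unfold Ai at hA
      by_contra hc
      exact hA (if_neg hc)
    have key := slot (sc f ν U i) (yc f ν U i) (U (w, m w)) g2i.1 (by linarith [g2i.2])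
      hAA.1.le (by linarith [g2i.2, hAA.2]) g1w.1 (by linarith [g1w.2])
      (fun a b => Fw L f τ m (Function.update (Function.update U (f i, w) a) (w, f i) b)
        (sc f ν (Function.update (Function.update U (f i, w) a) (w, f i) b)) * C)
      (by
        have hmu : Measurable (fun p : ℝ × ℝ =>
            Function.update (Function.update U (f i, w) p.1) (w, f i) p.2) := by
          rw [measurable_pi_iff]
          intro q
          by_cases h2 : q = (w, f i)
          · subst h2
            simp only [Function.update_self]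
            exact measurable_snd
          · simp only [Function.update_of_ne h2]
            by_cases h1 : q = (f i, w)
            · subst h1
              simp only [Function.update_self]
              exact measurable_fst
            · simp only [Function.update_of_ne h1]
              exact measurable_const
        exact ((meas_Fw L f τ ν m).comp hmu).mul_const C)
      (by
        intro a b a' b' ha ha'
        rw [dep2 L f τ ν m U i w hw a b a' b' ha ha'])
    exact key

theorem cross_step {V I : Type} [Fintype V] [Fintype I] (L δ : ℝ) (hδ : δ ≤ 1 / 4)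
    (hLn : L / √(Fintype.card V) ≤ 1 / 4) (f : I ↪ V) (τ : I → I) (ν : Equiv.Perm I) (m : V → V)
    (hm : IsM m) (hmf : ∀ i, m (f i) = f (τ i)) (Q R : Finset (I × V)) (i : I) (w : V)
    (hw : w ∉ Set.range f) (hQ : ∀ p ∈ Q, p.2 ∉ Set.range f) (hR : ∀ p ∈ R, p.2 ∉ Set.range f)
    (hwR : (i, w) ∉ R) :
    ∫⁻ U, Fw L f τ m U (sc f ν U) * (∏ i, Ai δ f ν U i) *
        ((∏ p ∈ Q, gi f ν m U p.1 (yc f ν U p.1) p.2) * (∏ p ∈ R, hi f ν m U p.1 p.2)) *
        gi f ν m U i (yc f ν U i) w ∂(mu V) ≤
    ∫⁻ U, Fw L f τ m U (sc f ν U) * (∏ i, Ai δ f ν U i) *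
        ((∏ p ∈ Q, gi f ν m U p.1 (yc f ν U p.1) p.2) * (∏ p ∈ R, hi f ν m U p.1 p.2)) *
        hi f ν m U i w ∂(mu V) := by
  have hne : (f i, w) ≠ (w, f i) := by
    intro h
    exact hw ⟨i, (Prod.ext_iff.1 h).1⟩
  have mR : Measurable (fun U : V × V → ℝ => Fw L f τ m U (sc f ν U) * (∏ i, Ai δ f ν U i) *
        ((∏ p ∈ Q, gi f ν m U p.1 (yc f ν U p.1) p.2) * (∏ p ∈ R, hi f ν m U p.1 p.2))) := by
    refine ((meas_Fw L f τ ν m).mul ?_).mul (Measurable.mul ?_ ?_)
    · exact Finset.measurable_fun_prod _ (fun i _ => meas_Ai δ f ν i)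
    · exact Finset.measurable_fun_prod _ (fun p _ => meas_gi f ν m p.1 p.2)
    · exact Finset.measurable_fun_prod _ (fun p _ => meas_hi f ν m p.1 p.2)
  apply G2' (f i, w) (w, f i) hne
  · exact mR.mul (meas_gi f ν m i w)
  · exact mR.mul (meas_hi f ν m i w)
  · intro U
    have e1 : ∀ a b, (∏ j, Ai δ f ν (Function.update (Function.update U (f i, w) a) (w, f i) b) j) =
        ∏ j, Ai δ f ν U j := fun a b =>
      Finset.prod_congr rfl (fun j _ => up_Ai δ f ν U i j w hw a b)
    have e2 : ∀ a b, (∏ p ∈ Q, gi f ν m (Function.update (Function.update U (f i, w) a) (w, f i) b)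
        p.1 (yc f ν (Function.update (Function.update U (f i, w) a) (w, f i) b) p.1) p.2) =
        ∏ p ∈ Q, gi f ν m U p.1 (yc f ν U p.1) p.2 := fun a b =>
      Finset.prod_congr rfl (fun p hp => up_gi f ν m τ hm hmf U i p.1 w p.2 hw (hQ p hp) a b)
    have e3 : ∀ a b, (∏ p ∈ R, hi f ν m (Function.update (Function.update U (f i, w) a) (w, f i) b)
        p.1 p.2) = ∏ p ∈ R, hi f ν m U p.1 p.2 := fun a b =>
      Finset.prod_congr rfl (fun p hp => up_hi f ν m τ hm hmf U i p.1 w p.2 hw (hR p hp)
        (fun h => hwR (by rw [← h]; exact hp)) a b)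
    have e4 := fun a b => up_gi f ν m τ hm hmf U i i w w hw hw a b
    have e5 := fun a b => up_hi_self f ν m τ hm hmf U i w hw a b
    have key := inner_ineq L δ hδ hLn f τ ν m U i w hw
      ((∏ j, Ai δ f ν U j) * ((∏ p ∈ Q, gi f ν m U p.1 (yc f ν U p.1) p.2) *
        (∏ p ∈ R, hi f ν m U p.1 p.2)))
      (by
        intro h
        have h1 := left_ne_zero_of_mul h
        exact (Finset.prod_ne_zero_iff.1 h1) i (Finset.mem_univ i)) hm hmf
    have t1 : ∀ a b : ℝ, Fw L f τ m (Function.update (Function.update U (f i, w) a) (w, f i) b)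
          (sc f ν (Function.update (Function.update U (f i, w) a) (w, f i) b)) *
          (∏ j, Ai δ f ν (Function.update (Function.update U (f i, w) a) (w, f i) b) j) *
          ((∏ p ∈ Q, gi f ν m (Function.update (Function.update U (f i, w) a) (w, f i) b)
            p.1 (yc f ν (Function.update (Function.update U (f i, w) a) (w, f i) b) p.1) p.2) *
          (∏ p ∈ R, hi f ν m (Function.update (Function.update U (f i, w) a) (w, f i) b)
            p.1 p.2)) *
          gi f ν m (Function.update (Function.update U (f i, w) a) (w, f i) b) i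
            (yc f ν (Function.update (Function.update U (f i, w) a) (w, f i) b) i) w =
        (Fw L f τ m (Function.update (Function.update U (f i, w) a) (w, f i) b)
        (sc f ν (Function.update (Function.update U (f i, w) a) (w, f i) b)) *
        ((∏ j, Ai δ f ν U j) * ((∏ p ∈ Q, gi f ν m U p.1 (yc f ν U p.1) p.2) *
        (∏ p ∈ R, hi f ν m U p.1 p.2)))) *
        ENNReal.ofReal (1 - (yc f ν U i - sc f ν U i) * U (w, m w) / (1 - sc f ν U i)) := by
      intro a b
      rw [e1, e2, e3, e4]
      unfold gi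
      ring
    have t2 : ∀ a b : ℝ, Fw L f τ m (Function.update (Function.update U (f i, w) a) (w, f i) b)
          (sc f ν (Function.update (Function.update U (f i, w) a) (w, f i) b)) *
          (∏ j, Ai δ f ν (Function.update (Function.update U (f i, w) a) (w, f i) b) j) *
          ((∏ p ∈ Q, gi f ν m (Function.update (Function.update U (f i, w) a) (w, f i) b)
            p.1 (yc f ν (Function.update (Function.update U (f i, w) a) (w, f i) b) p.1) p.2) *
          (∏ p ∈ R, hi f ν m (Function.update (Function.update U (f i, w) a) (w, f i) b)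
            p.1 p.2)) *
          hi f ν m (Function.update (Function.update U (f i, w) a) (w, f i) b) i w =
        (Fw L f τ m (Function.update (Function.update U (f i, w) a) (w, f i) b)
        (sc f ν (Function.update (Function.update U (f i, w) a) (w, f i) b)) *
        ((∏ j, Ai δ f ν U j) * ((∏ p ∈ Q, gi f ν m U p.1 (yc f ν U p.1) p.2) *
        (∏ p ∈ R, hi f ν m U p.1 p.2)))) *
        (if sc f ν U i ≤ a ∧ a < yc f ν U i ∧ b < U (w, m w) then 0 else 1) := by
      intro a b
      rw [e1, e2, e3, e5]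
      ring
    refine le_trans (le_of_eq ?_) (le_trans key (le_of_eq ?_))
    · exact lintegral_congr (fun a => lintegral_congr (fun b => t1 a b))
    · exact lintegral_congr (fun a => lintegral_congr (fun b => (t2 a b).symm))


theorem cross {V I : Type} [Fintype V] [Fintype I] (L δ : ℝ) (hδ : δ ≤ 1 / 4)
    (hLn : L / √(Fintype.card V) ≤ 1 / 4) (f : I ↪ V) (τ : I → I) (ν : Equiv.Perm I) (m : V → V) :
    ∫⁻ U, Fw L f τ m U (sc f ν U) * (∏ i, Ai δ f ν U i) *
        (∏ i, ∏ w ∈ Rf f, gi f ν m U i (yc f ν U i) w) ∂(mu V) ≤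
    ∫⁻ U, Fw L f τ m U (sc f ν U) * (∏ i, Ai δ f ν U i) *
        (∏ i, ∏ w ∈ Rf f, hi f ν m U i w) ∂(mu V) := by
  have hconvG : ∀ U : V × V → ℝ, (∏ i, ∏ w ∈ Rf f, gi f ν m U i (yc f ν U i) w) =
      ∏ p ∈ (Finset.univ : Finset I) ×ˢ Rf f, gi f ν m U p.1 (yc f ν U p.1) p.2 := fun U => by
    rw [Finset.prod_product]
  have hconvH : ∀ U : V × V → ℝ, (∏ i, ∏ w ∈ Rf f, hi f ν m U i w) =
      ∏ p ∈ (Finset.univ : Finset I) ×ˢ Rf f, hi f ν m U p.1 p.2 := fun U => by
    rw [Finset.prod_product]
  simp only [hconvG, hconvH]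
  by_cases hmm : IsM m ∧ (∀ i, m (f i) = f (τ i))
  swap
  · simp [Fw_zero L f τ m _ _ hmm]
  obtain ⟨hm, hmf⟩ := hmm
  set P : Finset (I × V) := (Finset.univ : Finset I) ×ˢ Rf f with hP
  have hPr : ∀ p ∈ P, p.2 ∉ Set.range f := by
    intro p hp
    have := (Finset.mem_product.1 hp).2
    simpa [Rf] using this
  have main : ∀ Q : Finset (I × V), Q ⊆ P →
      ∫⁻ U, Fw L f τ m U (sc f ν U) * (∏ i, Ai δ f ν U i) *
        ((∏ p ∈ Q, gi f ν m U p.1 (yc f ν U p.1) p.2) * (∏ p ∈ P \ Q, hi f ν m U p.1 p.2))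
          ∂(mu V) ≤
      ∫⁻ U, Fw L f τ m U (sc f ν U) * (∏ i, Ai δ f ν U i) *
        (∏ p ∈ P, hi f ν m U p.1 p.2) ∂(mu V) := by
    intro Q
    induction Q using Finset.induction_on with
    | empty =>
      intro _
      simp
    | insert p Q hpQ ih =>
      intro hsub
      have hQP : Q ⊆ P := fun x hx => hsub (Finset.mem_insert_of_mem hx)
      have hpP : p ∈ P := hsub (Finset.mem_insert_self p Q)
      refine le_trans ?_ (ih hQP)
      have hstep := cross_step L δ hδ hLn f τ ν m hm hmf Q (P \ insert p Q) p.1 p.2 (hPr p hpP)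
        (fun q hq => hPr q (hQP hq)) (fun q hq => hPr q (Finset.mem_sdiff.1 hq).1)
        (by
          intro h
          exact (Finset.mem_sdiff.1 h).2 (Finset.mem_insert_self p Q))
      have hset : P \ Q = insert p (P \ insert p Q) := by
        ext q
        simp only [Finset.mem_sdiff, Finset.mem_insert, not_or]
        constructor
        · rintro ⟨h1, h2⟩
          by_cases hqp : q = p
          · left; exact hqp
          · right; exact ⟨h1, hqp, h2⟩
        · rintro (h | ⟨h1, h2, h3⟩)
          · rw [h]; exact ⟨hpP, hpQ⟩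
          · exact ⟨h1, h3⟩
      have hnot : p ∉ P \ insert p Q := by
        intro h
        exact (Finset.mem_sdiff.1 h).2 (Finset.mem_insert_self p Q)
      refine le_trans (le_of_eq ?_) (le_trans hstep (le_of_eq ?_))
      · apply lintegral_congr
        intro U
        rw [Finset.prod_insert hpQ]
        ring
      · apply lintegral_congr
        intro U
        rw [hset, Finset.prod_insert hnot]
        ring
  have := main P (Finset.Subset.refl P)
  simpa using this

end Pool.Agent.Helper651.SR
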