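import Mathlib
set_option autoImplicit false
open MeasureTheory Set Filter Topology Classical
open scoped ENNReal

namespace Pool.Agent.Helper651.SR

/-- uniform law on `[0,1]` -/
noncomputable def lam : Measure ℝ := volume.restrict (Icc 0 1)

instance instProbLam : IsProbabilityMeasure lam := ⟨by simp [lam]⟩

/-- law of a random score system: independent uniform scores (small score = preferred) -/
noncomputable def mu (V : Type) [Fintype V] : Measure (V × V → ℝ) := Measure.pi fun _ => lam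

/-- perfect matchings of `V`, as fixed point free involutions -/
def IsM {V : Type} (m : V → V) : Prop := ∀ x, m (m x) = x ∧ m x ≠ x

/-- `m` is stable for the scores `U` -/
def Stab {V : Type} (U : V × V → ℝ) (m : V → V) : Prop :=
  ∀ u w, u ≠ w → ¬ (U (u, w) < U (u, m u) ∧ U (w, u) < U (w, m w))

/-- number of stable perfect matchings -/
noncomputable def T {V : Type} [Fintype V] (U : V × V → ℝ) : ℕ :=
  ((Finset.univ : Finset (V → V)).filter (fun m => IsM m ∧ Stab U m)).card

/-- stable partition (Tan) without fixed points: `π v` is the successor of `v`,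
`π⁻¹ v` its predecessor -/
structure SP {V : Type} (U : V × V → ℝ) (π : Equiv.Perm V) : Prop where
  nofix : ∀ v, π v ≠ v
  le : ∀ v, U (v, π v) ≤ U (v, π⁻¹ v)
  nb : ∀ u w, u ≠ w → ¬ (U (u, w) < U (u, π⁻¹ u) ∧ U (w, u) < U (w, π⁻¹ w))

/-- there is a stable partition which on the range of `f` is given by `ν` and whose other
cycles have length two -/
def Ev {V I : Type} (ν : Equiv.Perm I) (f : I ↪ V) : Set (V × V → ℝ) :=
  {U | ∃ π : Equiv.Perm V, SP U π ∧ (∀ i, π (f i) = f (ν i)) ∧ ∀ v, v ∉ Set.range f → π (π v) = v}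

/-- index type of a union of disjoint cycles with the lengths in `K` -/
abbrev Ix (K : Finset ℕ) : Type := (k : K) × Fin (k : ℕ)

/-- the rotation of every cycle -/
def nxt (K : Finset ℕ) : Equiv.Perm (Ix K) := Equiv.sigmaCongrRight fun k => finRotate (k : ℕ)

/-- regular stable matchings -/
def Good {V : Type} [Fintype V] (L : ℝ) (U : V × V → ℝ) (m : V → V) : Prop :=
  (∀ v, U (v, m v) ≤ L / √(Fintype.card V)) ∧
    |∑ v, U (v, m v) - √(Fintype.card V)| ≤ L

/-- stability inside the complement of the range of `f` -/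
def StabR {V I : Type} (f : I ↪ V) (m : V → V) (U : V × V → ℝ) : Prop :=
  ∀ w w', w ∉ Set.range f → w' ∉ Set.range f → w ≠ w' →
    ¬ (U (w, w') < U (w, m w) ∧ U (w', w) < U (w', m w'))

/-- no blocking pair between the range of `f` (with thresholds `t`) and its complement -/
def Surv {V I : Type} (f : I ↪ V) (m : V → V) (U : V × V → ℝ) (t : I → ℝ) : Prop :=
  ∀ i w, w ∉ Set.range f → ¬ (U (f i, w) < t i ∧ U (w, f i) < U (w, m w))

/-- number of surviving matchings -/
noncomputable def Zc {V I : Type} [Fintype V] (f : I ↪ V) (τ : I → I) (U : V × V → ℝ)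
    (t : I → ℝ) : ℕ :=
  ((Finset.univ : Finset (V → V)).filter (fun m => IsM m ∧ (∀ i, m (f i) = f (τ i)) ∧
    StabR f m U ∧ Surv f m U t)).card

/-- regularity outside of the range of `f` -/
def Gd {V I : Type} [Fintype V] (L : ℝ) (f : I ↪ V) (m : V → V) (U : V × V → ℝ)
    (t : I → ℝ) : Prop :=
  (∀ w, w ∉ Set.range f → 0 ≤ U (w, m w) ∧ U (w, m w) ≤ L / √(Fintype.card V)) ∧
  (∀ i, 0 ≤ t i ∧ t i ≤ L / √(Fintype.card V)) ∧
  √(Fintype.card V) / 2 ≤ ∑ w ∈ Finset.univ.filter (fun w => w ∉ Set.range f), U (w, m w) ∧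
  ∑ w ∈ Finset.univ.filter (fun w => w ∉ Set.range f), U (w, m w) ≤ √(Fintype.card V) + L

/-- the weight of the matching `m` -/
noncomputable def Fw {V I : Type} [Fintype V] (L : ℝ) (f : I ↪ V) (τ : I → I) (m : V → V)
    (U : V × V → ℝ) (t : I → ℝ) : ℝ≥0∞ :=
  if IsM m ∧ (∀ i, m (f i) = f (τ i)) ∧ StabR f m U ∧ Surv f m U t ∧ Gd L f m U t
  then ((Zc f τ U t : ℕ) : ℝ≥0∞)⁻¹ else 0

/-- scores of the successor and of the predecessor -/
def sc {V I : Type} (f : I ↪ V) (ν : Equiv.Perm I) (U : V × V → ℝ) (i : I) : ℝ := U (f i, f (ν i))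
def yc {V I : Type} (f : I ↪ V) (ν : Equiv.Perm I) (U : V × V → ℝ) (i : I) : ℝ :=
  U (f i, f (ν⁻¹ i))

/-- `s < y ≤ s + δ` -/
noncomputable def Ai {V I : Type} (δ : ℝ) (f : I ↪ V) (ν : Equiv.Perm I) (U : V × V → ℝ) (i : I) :
    ℝ≥0∞ := if sc f ν U i < yc f ν U i ∧ yc f ν U i ≤ sc f ν U i + δ then 1 else 0

/-- no new blocking between `f i` and `w` -/
noncomputable def hi {V I : Type} (f : I ↪ V) (ν : Equiv.Perm I) (m : V → V) (U : V × V → ℝ)
    (i : I) (w : V) : ℝ≥0∞ :=
  if sc f ν U i ≤ U (f i, w) ∧ U (f i, w) < yc f ν U i ∧ U (w, f i) < U (w, m w) then 0 else 1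

/-- its conditional probability (lower bound) as a function of the threshold `y` -/
noncomputable def gi {V I : Type} (f : I ↪ V) (ν : Equiv.Perm I) (m : V → V) (U : V × V → ℝ)
    (i : I) (y : ℝ) (w : V) : ℝ≥0∞ :=
  ENNReal.ofReal (1 - (y - sc f ν U i) * U (w, m w) / (1 - sc f ν U i))

/-- no blocking pair inside the range of `f` -/
noncomputable def Ci {V I : Type} (f : I ↪ V) (ν : Equiv.Perm I) (U : V × V → ℝ) : ℝ≥0∞ :=
  if ∀ i j, i ≠ j → ¬ (U (f i, f j) < yc f ν U i ∧ U (f j, f i) < yc f ν U j) then 1 else 0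

/-- the complement of the range of `f` -/
noncomputable def Rf {V I : Type} [Fintype V] (f : I ↪ V) : Finset V :=
  Finset.univ.filter (fun w => w ∉ Set.range f)

/-- the integral over the predecessor score -/
noncomputable def kap {V I : Type} [Fintype V] (δ : ℝ) (f : I ↪ V) (ν : Equiv.Perm I) (m : V → V)
    (U : V × V → ℝ) (i : I) : ℝ≥0∞ :=
  ∫⁻ a, (if sc f ν U i < a ∧ a ≤ sc f ν U i + δ then 1 else 0) * ∏ w ∈ Rf f, gi f ν m U i a w ∂lam

end Pool.Agent.Helper651.SR
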