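import Pool.Agent.Helper651.SR.Defs

set_option autoImplicit false
open MeasureTheory Set Filter Topology Classical
open scoped ENNReal

namespace Pool.Agent.Helper651.SR

/-- embeddings of a part -/
noncomputable def ecEE {V I : Type} [Fintype V] [Fintype I] (m : V → V) (τ : I → I) (d : V)
    (S : Finset I) : Finset (I → V) :=
  Finset.univ.filter (fun f => (∀ i ∈ S, m (f i) = f (τ i)) ∧ Set.InjOn f (S : Set I) ∧
    ∀ i, i ∉ S → f i = d)

theorem ecEE_step {V I : Type} [Fintype V] [Fintype I] (m : V → V) (hm : IsM m) (τ : I → I)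
    (hτ : ∀ i, τ (τ i) = i ∧ τ i ≠ i) (d : V) (S : Finset I) (hS : ∀ i ∈ S, τ i ∈ S) (k : ℕ)
    (hk : S.card = 2 * (k + 1))
    (ih : ∀ S' : Finset I, (∀ i ∈ S', τ i ∈ S') → S'.card = 2 * k →
      ∏ a ∈ Finset.range k, (Fintype.card V - 2 * a) ≤ (ecEE m τ d S').card) :
    ∏ a ∈ Finset.range (k + 1), (Fintype.card V - 2 * a) ≤ (ecEE m τ d S).card := by
  obtain ⟨i0, hi0⟩ : S.Nonempty := Finset.card_pos.1 (by omega)
  have hτi0 : τ i0 ∈ S.erase i0 := Finset.mem_erase.2 ⟨(hτ i0).2, hS _ hi0⟩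
  set S' := (S.erase i0).erase (τ i0) with hS'def
  have hmem : ∀ i, i ∈ S' ↔ i ≠ τ i0 ∧ i ≠ i0 ∧ i ∈ S := by
    intro i
    rw [hS'def, Finset.mem_erase, Finset.mem_erase]
  have hS'card : S'.card = 2 * k := by
    rw [hS'def, Finset.card_erase_of_mem hτi0, Finset.card_erase_of_mem hi0]
    omega
  have hS'cl : ∀ i ∈ S', τ i ∈ S' := by
    intro i hi
    rw [hmem] at hi ⊢
    refine ⟨?_, ?_, hS i hi.2.2⟩
    · intro h
      apply hi.2.1
      rw [← (hτ i).1, h, (hτ i0).1]
    · intro h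
      apply hi.1
      rw [← h, (hτ i).1]
  have h1 := ih S' hS'cl hS'card
  have hcard : ((ecEE m τ d S').sigma (fun f => (S'.image f)ᶜ)).card =
      (ecEE m τ d S').card * (Fintype.card V - 2 * k) := by
    rw [Finset.card_sigma, Finset.sum_const_nat (m := Fintype.card V - 2 * k)]
    intro f hf
    rw [ecEE, Finset.mem_filter] at hf
    rw [Finset.card_compl, Finset.card_image_of_injOn hf.2.2.1, hS'card]
  rw [Finset.prod_range_succ]
  refine (Nat.mul_le_mul_right _ h1).trans ?_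
  rw [← hcard]
  have hne : i0 ≠ τ i0 := fun h => (hτ i0).2 h.symm
  let Φ : (Σ _ : I → V, V) → (I → V) := fun p =>
    Function.update (Function.update p.1 i0 p.2) (τ i0) (m p.2)
  have v1 : ∀ p, Φ p (τ i0) = m p.2 := fun p => Function.update_self _ _ _
  have v2 : ∀ p, Φ p i0 = p.2 := by
    intro p
    show Function.update _ _ _ _ = _
    rw [Function.update_of_ne hne, Function.update_self]
  have v3 : ∀ p i, i ≠ τ i0 → i ≠ i0 → Φ p i = p.1 i := by
    intro p i a b
    show Function.update _ _ _ _ = _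
    rw [Function.update_of_ne a, Function.update_of_ne b]
  refine Finset.card_le_card_of_injOn Φ ?_ ?_
  · rintro ⟨f, v⟩ hp
    rw [Finset.mem_coe, Finset.mem_sigma, ecEE, Finset.mem_filter, Finset.mem_compl] at hp
    obtain ⟨⟨-, f1, f2, f3⟩, hv⟩ := hp
    simp only at f1 f2 f3 hv
    have hv1 : ∀ i ∈ S', f i ≠ v := fun i hi h => hv (Finset.mem_image.2 ⟨i, hi, h⟩)
    have hv2 : ∀ i ∈ S', f i ≠ m v := by
      intro i hi h
      apply hv1 (τ i) (hS'cl i hi)
      rw [← f1 i hi, h, (hm v).1]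
    rw [Finset.mem_coe, ecEE, Finset.mem_filter]
    refine ⟨Finset.mem_univ _, ?_, ?_, ?_⟩
    · intro i hi
      by_cases a : i = i0
      · rw [a, v1, v2]
      · by_cases b : i = τ i0
        · rw [b, v1, (hτ i0).1, v2]
          exact (hm v).1
        · have hi' : i ∈ S' := (hmem i).2 ⟨b, a, hi⟩
          have hi'' := (hmem _).1 (hS'cl i hi')
          rw [v3 _ i b a, v3 _ (τ i) hi''.1 hi''.2.1]
          exact f1 i hi'
    · intro i hi i' hi' h
      by_cases a : i = i0
      · by_cases a' : i' = i0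
        · rw [a, a']
        · by_cases b' : i' = τ i0
          · rw [a, b', v1, v2] at h
            exact absurd h.symm (hm v).2
          · rw [a, v2, v3 _ i' b' a'] at h
            exact absurd h.symm (hv1 i' ((hmem i').2 ⟨b', a', hi'⟩))
      · by_cases b : i = τ i0
        · by_cases a' : i' = i0
          · rw [b, a', v1, v2] at h
            exact absurd h (hm v).2
          · by_cases b' : i' = τ i0
            · rw [b, b']
            · rw [b, v1, v3 _ i' b' a'] at h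
              exact absurd h.symm (hv2 i' ((hmem i').2 ⟨b', a', hi'⟩))
        · have hiS : i ∈ S' := (hmem i).2 ⟨b, a, hi⟩
          by_cases a' : i' = i0
          · rw [a', v2, v3 _ i b a] at h
            exact absurd h (hv1 i hiS)
          · by_cases b' : i' = τ i0
            · rw [b', v1, v3 _ i b a] at h
              exact absurd h (hv2 i hiS)
            · rw [v3 _ i b a, v3 _ i' b' a'] at h
              exact f2 hiS ((hmem i').2 ⟨b', a', hi'⟩) h
    · intro i hi
      have a : i ≠ i0 := fun h => hi (h ▸ hi0)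
      have b : i ≠ τ i0 := fun h => hi (h ▸ hS _ hi0)
      rw [v3 _ i b a]
      exact f3 i fun h => hi ((hmem i).1 h).2.2
  · rintro ⟨f, v⟩ hp ⟨g, w⟩ hq h
    rw [Finset.mem_coe, Finset.mem_sigma, ecEE, Finset.mem_filter] at hp hq
    have hvw : v = w := by
      have := congrFun h i0
      rwa [v2, v2] at this
    have hfg : f = g := by
      funext i
      by_cases hi : i ∈ S'
      · have hi' := (hmem i).1 hi
        have := congrFun h i
        rwa [v3 _ i hi'.1 hi'.2.1, v3 _ i hi'.1 hi'.2.1] at this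
      · exact (hp.1.2.2.2 i hi).trans (hq.1.2.2.2 i hi).symm
    rw [hvw, hfg]

theorem ecEE_card {V I : Type} [Fintype V] [Fintype I] (m : V → V) (hm : IsM m) (τ : I → I)
    (hτ : ∀ i, τ (τ i) = i ∧ τ i ≠ i) (d : V) (k : ℕ) :
    ∀ S : Finset I, (∀ i ∈ S, τ i ∈ S) → S.card = 2 * k →
      ∏ a ∈ Finset.range k, (Fintype.card V - 2 * a) ≤ (ecEE m τ d S).card := by
  induction k with
  | zero =>
    intro S _ hc
    have hS : S = ∅ := Finset.card_eq_zero.1 (by omega)
    subst hS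
    rw [Finset.prod_range_zero]
    refine Finset.card_pos.2 ⟨fun _ => d, ?_⟩
    rw [ecEE, Finset.mem_filter]
    simp
  | succ k ih =>
    intro S hS hc
    exact ecEE_step m hm τ hτ d S hS k hc ih

theorem ec_prod (n j : ℕ) (hj : 2 * j ^ 2 ≤ n) (k : ℕ) (hk : k ≤ j) :
    (n : ℝ) ^ k * ((n : ℝ) - (k : ℝ) ^ 2) ≤
      n * ((∏ a ∈ Finset.range k, (n - 2 * a) : ℕ) : ℝ) := by
  induction k with
  | zero => simp
  | succ k ih =>
    have ih' := ih (by omega)
    have h1 : 2 * k ≤ n := by nlinarith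
    have h2 : ((n - 2 * k : ℕ) : ℝ) = (n : ℝ) - 2 * k := by
      rw [Nat.cast_sub h1]; push_cast; ring
    have h3 : (0 : ℝ) ≤ (n : ℝ) - 2 * k := by
      rw [← h2]; exact Nat.cast_nonneg _
    rw [Finset.prod_range_succ, Nat.cast_mul, h2]
    have h4 : (0 : ℝ) ≤ (n : ℝ) ^ k := by positivity
    have h5 : (n : ℝ) ^ k * ((n : ℝ) - (k : ℝ) ^ 2) * ((n : ℝ) - 2 * k) ≤
        n * ((∏ a ∈ Finset.range k, (n - 2 * a) : ℕ) : ℝ) * ((n : ℝ) - 2 * k) :=
      mul_le_mul_of_nonneg_right ih' h3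
    have h6 : (n : ℝ) * ((n : ℝ) - ((k + 1 : ℕ) : ℝ) ^ 2) ≤
        ((n : ℝ) - (k : ℝ) ^ 2) * ((n : ℝ) - 2 * k) := by
      push_cast
      have h7 : (0 : ℝ) ≤ (k : ℝ) ^ 3 := by positivity
      have h8 : (0 : ℝ) ≤ (n : ℝ) := Nat.cast_nonneg n
      nlinarith
    calc (n : ℝ) ^ (k + 1) * ((n : ℝ) - ((k + 1 : ℕ) : ℝ) ^ 2)
        = (n : ℝ) ^ k * ((n : ℝ) * ((n : ℝ) - ((k + 1 : ℕ) : ℝ) ^ 2)) := by ring
      _ ≤ (n : ℝ) ^ k * (((n : ℝ) - (k : ℝ) ^ 2) * ((n : ℝ) - 2 * k)) :=
          mul_le_mul_of_nonneg_left h6 h4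
      _ = (n : ℝ) ^ k * ((n : ℝ) - (k : ℝ) ^ 2) * ((n : ℝ) - 2 * k) := by ring
      _ ≤ _ := h5
      _ = _ := by ring

theorem emb_count {V I : Type} [Fintype V] [Fintype I] (m : V → V) (hm : IsM m) (τ : I → I)
    (hτ : ∀ i, τ (τ i) = i ∧ τ i ≠ i) (j : ℕ) (hI : Fintype.card I = 2 * j)
    (hj : 2 * j ^ 2 ≤ Fintype.card V) :
    ((Fintype.card V : ℝ)) ^ j / 2 ≤
      ((Finset.univ.filter (fun f : I ↪ V => ∀ i, m (f i) = f (τ i))).card : ℝ) := by
  rcases Nat.eq_zero_or_pos j with h0 | h0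
  · subst h0
    have hemp : IsEmpty I := Fintype.card_eq_zero_iff.1 (by omega)
    have h1 : 0 < (Finset.univ.filter (fun f : I ↪ V => ∀ i, m (f i) = f (τ i))).card := by
      refine Finset.card_pos.2 ⟨⟨fun i => isEmptyElim i, fun i => isEmptyElim i⟩, ?_⟩
      rw [Finset.mem_filter]
      exact ⟨Finset.mem_univ _, fun i => isEmptyElim i⟩
    have h2 : (1 : ℝ) ≤ ((Finset.univ.filter
        (fun f : I ↪ V => ∀ i, m (f i) = f (τ i))).card : ℝ) := by exact_mod_cast h1
    rw [pow_zero]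
    linarith
  · have hn : 0 < Fintype.card V := by
      have : 0 < j ^ 2 := pow_pos h0 2
      omega
    obtain ⟨d⟩ := Fintype.card_pos_iff.1 hn
    have h1 := ecEE_card m hm τ hτ d j Finset.univ (fun i _ => Finset.mem_univ _)
      (by rw [Finset.card_univ, hI])
    have h2 : (ecEE m τ d Finset.univ).card ≤
        (Finset.univ.filter (fun f : I ↪ V => ∀ i, m (f i) = f (τ i))).card := by
      have hsub : ecEE m τ d Finset.univ ⊆
          (Finset.univ.filter (fun f : I ↪ V => ∀ i, m (f i) = f (τ i))).image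
            (fun f : I ↪ V => (f : I → V)) := by
        intro f hf
        rw [ecEE, Finset.mem_filter] at hf
        have hinj : Function.Injective f := fun a b hab =>
          hf.2.2.1 (Finset.mem_coe.2 (Finset.mem_univ a)) (Finset.mem_coe.2 (Finset.mem_univ b)) hab
        rw [Finset.mem_image]
        refine ⟨⟨f, hinj⟩, ?_, rfl⟩
        rw [Finset.mem_filter]
        exact ⟨Finset.mem_univ _, fun i => hf.2.1 i (Finset.mem_univ i)⟩
      exact (Finset.card_le_card hsub).trans Finset.card_image_le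
    have h3 := ec_prod (Fintype.card V) j hj j le_rfl
    set n := Fintype.card V
    have hn' : (0 : ℝ) < n := by exact_mod_cast hn
    have h4 : (n : ℝ) ^ j / 2 ≤ ((∏ a ∈ Finset.range j, (n - 2 * a) : ℕ) : ℝ) := by
      have h5 : (2 : ℝ) * (j : ℝ) ^ 2 ≤ n := by exact_mod_cast hj
      have h6 : (n : ℝ) ^ j * ((n : ℝ) / 2) ≤ (n : ℝ) ^ j * ((n : ℝ) - (j : ℝ) ^ 2) :=
        mul_le_mul_of_nonneg_left (by linarith) (by positivity)
      have h7 : (n : ℝ) * ((n : ℝ) ^ j / 2) ≤
          n * ((∏ a ∈ Finset.range j, (n - 2 * a) : ℕ) : ℝ) := by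
        refine le_trans (le_of_eq ?_) (h6.trans h3)
        ring
      exact le_of_mul_le_mul_left h7 hn'
    refine h4.trans ?_
    exact_mod_cast h1.trans h2

theorem ex_tau {I : Type} [Fintype I] (h : Even (Fintype.card I)) :
    ∃ τ : I → I, ∀ i, τ (τ i) = i ∧ τ i ≠ i := by
  obtain ⟨r, hr⟩ := h
  have hc : Fintype.card I = Fintype.card (Fin r × Bool) := by
    rw [hr, Fintype.card_prod, Fintype.card_fin, Fintype.card_bool]
    ring
  let e := Fintype.equivOfCardEq hc
  refine ⟨fun i => e.symm ((e i).1, !(e i).2), fun i => ⟨?_, ?_⟩⟩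
  · simp
  · intro h1
    have h2 := congrArg e h1
    simp only [Equiv.apply_symm_apply] at h2
    have h3 := congrArg Prod.snd h2
    simp at h3

end Pool.Agent.Helper651.SR
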