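import Pool.Agent.Helper651.SR.Defs
import Pool.Agent.Helper651.SR.G1

set_option autoImplicit false
open MeasureTheory Set Filter Topology Classical
open scoped ENNReal

namespace Pool.Agent.Helper651.SR

/-- blocking indicator of the slot `p` -/
noncomputable def fm1nb {V : Type} (m : V → V) (p : V × V) (U : V × V → ℝ) : ℝ≥0∞ :=
  if U (p.1, p.2) < U (p.1, m p.1) ∧ U (p.2, p.1) < U (p.2, m p.2) then 0 else 1

/-- the replacement of the indicator -/
noncomputable def fm1e {V : Type} (p : V × V) (x : V → ℝ) : ℝ≥0∞ :=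
  ENNReal.ofReal (Real.exp (-(x p.1 * x p.2)))

theorem fm1_map {V : Type} [Fintype V] (m : V → V) :
    (mu V).map (fun U : V × V → ℝ => fun v => U (v, m v)) = Measure.pi fun _ : V => lam := by
  symm
  apply Measure.pi_eq
  intro s hs
  have hmeas : Measurable (fun U : V × V → ℝ => fun v => U (v, m v)) :=
    measurable_pi_lambda _ (fun v => measurable_pi_apply _)
  rw [Measure.map_apply hmeas (MeasurableSet.univ_pi hs)]
  have h1 : (fun U : V × V → ℝ => fun v => U (v, m v)) ⁻¹' (univ.pi s) =
      univ.pi (fun p : V × V => if p.2 = m p.1 then s p.1 else univ) := by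
    ext U
    simp only [mem_preimage, Set.mem_pi, mem_univ, forall_const]
    constructor
    · intro h p
      by_cases hp : p.2 = m p.1
      · rw [if_pos hp]
        have := h p.1
        rw [← hp] at this
        exact this
      · rw [if_neg hp]; exact mem_univ _
    · intro h v
      have := h (v, m v)
      simpa using this
  rw [h1, mu, Measure.pi_pi, Fintype.prod_prod_type]
  refine Finset.prod_congr rfl (fun a _ => ?_)
  rw [Finset.prod_eq_single (m a)]
  · simp
  · intro b _ hb
    have : ¬ (b = m a) := hb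
    simp [this]
  · intro h; exact absurd (Finset.mem_univ _) h

theorem fm1_lam {a : ℝ} (ha : a ∈ Icc (0:ℝ) 1) : lam (Iio a) = ENNReal.ofReal a := by
  have h1 : Iio a ∩ Icc (0:ℝ) 1 = Ico 0 a := by
    ext t
    simp only [mem_inter_iff, mem_Iio, mem_Icc, mem_Ico]
    constructor
    · rintro ⟨h, h2, h3⟩; exact ⟨h2, h⟩
    · rintro ⟨h, h2⟩; exact ⟨h2, h, h2.le.trans ha.2⟩
  rw [lam, Measure.restrict_apply measurableSet_Iio, h1, Real.volume_Ico, sub_zero]

theorem fm1_int {a b : ℝ} (ha : a ∈ Icc (0:ℝ) 1) (hb : b ∈ Icc (0:ℝ) 1) :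
    ∫⁻ s, ∫⁻ t, (if s < a ∧ t < b then (0:ℝ≥0∞) else 1) ∂lam ∂lam ≤
      ENNReal.ofReal (Real.exp (-(a * b))) := by
  have hms : MeasurableSet ((Iio a ×ˢ Iio b) : Set (ℝ × ℝ)) :=
    measurableSet_Iio.prod measurableSet_Iio
  have h1 : ∫⁻ s, ∫⁻ t, (if s < a ∧ t < b then (0:ℝ≥0∞) else 1) ∂lam ∂lam =
      ∫⁻ z, ((Iio a ×ˢ Iio b)ᶜ : Set (ℝ × ℝ)).indicator 1 z ∂(lam.prod lam) := by
    rw [lintegral_prod]
    · refine lintegral_congr (fun s => lintegral_congr (fun t => ?_))
      by_cases h : s < a ∧ t < b
      · rw [if_pos h, indicator_of_notMem]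
        simp [h.1, h.2]
      · rw [if_neg h, indicator_of_mem]
        · rfl
        · simp only [mem_compl_iff, mem_prod, mem_Iio]; exact h
    · exact (measurable_one.indicator hms.compl).aemeasurable
  rw [h1, lintegral_indicator_one hms.compl, prob_compl_eq_one_sub hms, Measure.prod_prod,
    fm1_lam ha, fm1_lam hb, ← ENNReal.ofReal_mul ha.1]
  rw [show (1:ℝ≥0∞) = ENNReal.ofReal 1 by simp, ← ENNReal.ofReal_sub _ (mul_nonneg ha.1 hb.1)]
  apply ENNReal.ofReal_le_ofReal
  have := Real.add_one_le_exp (-(a * b))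
  linarith

theorem fm1_meas_nb {V : Type} [Fintype V] (m : V → V) (p : V × V) : Measurable (fm1nb m p) := by
  unfold fm1nb
  refine Measurable.ite ?_ measurable_const measurable_const
  have h : ∀ a b : V × V, MeasurableSet {U : V × V → ℝ | U a < U b} := fun a b =>
    measurableSet_lt (measurable_pi_apply a) (measurable_pi_apply b)
  exact (h _ _).inter (h _ _)

theorem fm1_meas_e {V : Type} [Fintype V] (p : V × V) : Measurable (fm1e (V := V) p) := by
  unfold fm1e
  fun_prop

theorem fm1_meas_x {V : Type} [Fintype V] (m : V → V) :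
    Measurable (fun U : V × V → ℝ => fun v => U (v, m v)) :=
  measurable_pi_lambda _ (fun v => measurable_pi_apply _)

theorem fm1_upd {ι : Type} (U : ι → ℝ) (i j : ι) (a b : ℝ) (hij : i ≠ j) :
    (∀ q, q ≠ i → q ≠ j → Function.update (Function.update U i a) j b q = U q) ∧
      Function.update (Function.update U i a) j b i = a ∧
      Function.update (Function.update U i a) j b j = b := by
  refine ⟨fun q h1 h2 => ?_, ?_, ?_⟩
  · rw [Function.update_of_ne h2, Function.update_of_ne h1]
  · rw [Function.update_of_ne hij, Function.update_self]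
  · rw [Function.update_self]

theorem fm1_step {V : Type} [Fintype V] [LinearOrder V] (m : V → V) (hm : IsM m)
    (A : Finset (V × V)) (hA : ∀ p ∈ A, p.1 < p.2 ∧ m p.1 ≠ p.2) (K : (V → ℝ) → ℝ≥0∞)
    (hK : Measurable K) (hK0 : ∀ x, (¬ ∀ v, x v ∈ Icc (0:ℝ) 1) → K x = 0) :
    ∫⁻ U, K (fun v => U (v, m v)) * ∏ p ∈ A, fm1nb m p U ∂(mu V) ≤
      ∫⁻ U, K (fun v => U (v, m v)) * ∏ p ∈ A, fm1e p (fun v => U (v, m v)) ∂(mu V) := by
  induction A using Finset.induction_on generalizing K with
  | empty => simp
  | insert p A hp ih =>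
    have hAp := hA p (Finset.mem_insert_self _ _)
    have hAA : ∀ q ∈ A, q.1 < q.2 ∧ m q.1 ≠ q.2 := fun q hq => hA q (Finset.mem_insert_of_mem hq)
    have hm2 : m p.2 ≠ p.1 := by
      intro h
      apply hAp.2
      rw [← h]
      exact (hm p.2).1
    have hne : ((p.1, p.2) : V × V) ≠ (p.2, p.1) := by
      intro h
      have := congrArg Prod.fst h
      exact absurd this hAp.1.ne
    have hstep : ∫⁻ U, K (fun v => U (v, m v)) * ∏ q ∈ insert p A, fm1nb m q U ∂(mu V) ≤
        ∫⁻ U, (K (fun v => U (v, m v)) * fm1e p (fun v => U (v, m v))) *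
          ∏ q ∈ A, fm1nb m q U ∂(mu V) := by
      refine G2 (p.1, p.2) (p.2, p.1) hne
        (fun U => K (fun v => U (v, m v)) * ∏ q ∈ insert p A, fm1nb m q U)
        (fun U => (K (fun v => U (v, m v)) * fm1e p (fun v => U (v, m v))) *
          ∏ q ∈ A, fm1nb m q U) ?_ ?_ ?_
      · exact (hK.comp (fm1_meas_x m)).mul (Finset.measurable_prod _ (fun q _ => fm1_meas_nb m q))
      · exact ((hK.comp (fm1_meas_x m)).mul ((fm1_meas_e p).comp (fm1_meas_x m))).mul
          (Finset.measurable_prod _ (fun q _ => fm1_meas_nb m q))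
      · intro U
        have key : ∀ (a b : ℝ) (U' : V × V → ℝ), (∀ q : V × V, q ≠ (p.1, p.2) →
            q ≠ (p.2, p.1) → U' q = U q) → U' (p.1, p.2) = a → U' (p.2, p.1) = b →
            (K (fun v => U' (v, m v)) * ∏ q ∈ insert p A, fm1nb m q U' =
              (K (fun v => U (v, m v)) * ∏ q ∈ A, fm1nb m q U) *
              (if a < U (p.1, m p.1) ∧ b < U (p.2, m p.2) then 0 else 1)) ∧
            ((K (fun v => U' (v, m v)) * fm1e p (fun v => U' (v, m v))) *
              ∏ q ∈ A, fm1nb m q U' =
              (K (fun v => U (v, m v)) * fm1e p (fun v => U (v, m v))) *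
              ∏ q ∈ A, fm1nb m q U) := by
          intro a b U' hU' hUa hUb
          have hx : ∀ v : V, U' (v, m v) = U (v, m v) := by
            intro v
            apply hU'
            · intro h
              have h1 : v = p.1 := congrArg Prod.fst h
              have h2 : m v = p.2 := congrArg Prod.snd h
              rw [h1] at h2
              exact hAp.2 h2
            · intro h
              have h1 : v = p.2 := congrArg Prod.fst h
              have h2 : m v = p.1 := congrArg Prod.snd h
              rw [h1] at h2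
              exact hm2 h2
          have hq : ∀ q ∈ A, fm1nb m q U' = fm1nb m q U := by
            intro q hqA
            have hqp : q ≠ p := by
              rintro rfl; exact hp hqA
            have hqlt := (hAA q hqA).1
            have e1 : U' (q.1, q.2) = U (q.1, q.2) := by
              apply hU'
              · intro h
                exact hqp h
              · intro h
                have h1 : q.1 = p.2 := congrArg Prod.fst h
                have h2 : q.2 = p.1 := congrArg Prod.snd h
                rw [h1, h2] at hqlt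
                exact absurd hqlt (not_lt.2 hAp.1.le)
            have e2 : U' (q.2, q.1) = U (q.2, q.1) := by
              apply hU'
              · intro h
                have h1 : q.2 = p.1 := congrArg Prod.fst h
                have h2 : q.1 = p.2 := congrArg Prod.snd h
                rw [h1, h2] at hqlt
                exact absurd hqlt (not_lt.2 hAp.1.le)
              · intro h
                have h1 : q.2 = p.2 := congrArg Prod.fst h
                have h2 : q.1 = p.1 := congrArg Prod.snd h
                exact hqp (Prod.ext h2 h1)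
            unfold fm1nb
            rw [e1, e2, hx, hx]
          have hpp : fm1nb m p U' =
              if a < U (p.1, m p.1) ∧ b < U (p.2, m p.2) then 0 else 1 := by
            unfold fm1nb
            rw [hUa, hUb, hx, hx]
          have hxx : (fun v => U' (v, m v)) = fun v => U (v, m v) := funext hx
          constructor
          · rw [hxx, Finset.prod_insert hp, hpp, Finset.prod_congr rfl hq]
            ring
          · rw [hxx, Finset.prod_congr rfl hq]
        refine (lintegral_congr (fun a => lintegral_congr (fun b =>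
          (key a b _ (fm1_upd U (p.1, p.2) (p.2, p.1) a b hne).1
            (fm1_upd U (p.1, p.2) (p.2, p.1) a b hne).2.1
            (fm1_upd U (p.1, p.2) (p.2, p.1) a b hne).2.2).1))).trans_le ?_
        refine le_trans ?_ (le_of_eq (lintegral_congr (fun a => lintegral_congr (fun b =>
          (key a b _ (fm1_upd U (p.1, p.2) (p.2, p.1) a b hne).1
            (fm1_upd U (p.1, p.2) (p.2, p.1) a b hne).2.1
            (fm1_upd U (p.1, p.2) (p.2, p.1) a b hne).2.2).2))).symm)
        by_cases hall : ∀ v, U (v, m v) ∈ Icc (0:ℝ) 1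
        · have hmm : ∀ s : ℝ, Measurable (fun t : ℝ =>
              if s < U (p.1, m p.1) ∧ t < U (p.2, m p.2) then (0:ℝ≥0∞) else 1) := by
            intro s
            refine Measurable.ite ?_ measurable_const measurable_const
            by_cases hs : s < U (p.1, m p.1)
            · simp only [hs, true_and]; exact measurableSet_Iio
            · simp only [hs, false_and]; exact MeasurableSet.empty
          have hmm2 : Measurable (fun s : ℝ => ∫⁻ t,
              (if s < U (p.1, m p.1) ∧ t < U (p.2, m p.2) then (0:ℝ≥0∞) else 1) ∂lam) := by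
            have h0 : Measurable (Function.uncurry fun s t : ℝ =>
              (if s < U (p.1, m p.1) ∧ t < U (p.2, m p.2) then (0:ℝ≥0∞) else 1)) := by
              refine Measurable.ite ?_ measurable_const measurable_const
              exact (measurableSet_lt measurable_fst measurable_const).inter
                (measurableSet_lt measurable_snd measurable_const)
            exact Measurable.lintegral_prod_right h0
          have h1 : ∀ a : ℝ, ∫⁻ b, (K (fun v => U (v, m v)) * ∏ q ∈ A, fm1nb m q U) *
              (if a < U (p.1, m p.1) ∧ b < U (p.2, m p.2) then (0:ℝ≥0∞) else 1) ∂lam =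
              (K (fun v => U (v, m v)) * ∏ q ∈ A, fm1nb m q U) * ∫⁻ b,
              (if a < U (p.1, m p.1) ∧ b < U (p.2, m p.2) then (0:ℝ≥0∞) else 1) ∂lam := by
            intro a
            exact lintegral_const_mul _ (hmm a)
          simp only [h1]
          rw [lintegral_const_mul _ hmm2]
          simp only [lintegral_const, measure_univ, mul_one]
          have h2 := fm1_int (hall p.1) (hall p.2)
          calc (K (fun v => U (v, m v)) * ∏ q ∈ A, fm1nb m q U) * ∫⁻ s, ∫⁻ t,
              (if s < U (p.1, m p.1) ∧ t < U (p.2, m p.2) then (0:ℝ≥0∞) else 1) ∂lam ∂lam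
              ≤ (K (fun v => U (v, m v)) * ∏ q ∈ A, fm1nb m q U) *
                ENNReal.ofReal (Real.exp (-(U (p.1, m p.1) * U (p.2, m p.2)))) := by gcongr
            _ = K (fun v => U (v, m v)) * fm1e p (fun v => U (v, m v)) *
                ∏ q ∈ A, fm1nb m q U := by
              unfold fm1e
              ring
        · have hz := hK0 (fun v => U (v, m v)) hall
          simp [hz]
    refine hstep.trans ?_
    have hih := ih hAA (fun x => K x * fm1e p x) (hK.mul (fm1_meas_e p)) (by
      intro x hx
      simp only [hK0 x hx, zero_mul])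
    refine hih.trans (le_of_eq ?_)
    refine lintegral_congr (fun U => ?_)
    rw [Finset.prod_insert hp]
    ring

theorem fm1_sum {V : Type} [Fintype V] [LinearOrder V] (m : V → V) (hm : IsM m) (x : V → ℝ) :
    -(∑ p ∈ (Finset.univ.filter (fun p : V × V => p.1 < p.2 ∧ m p.1 ≠ p.2)), x p.1 * x p.2) ≤
      -(∑ v, x v) ^ 2 / 2 + ∑ v, x v ^ 2 := by
  have hbij : Function.Bijective m := by
    refine Function.Involutive.bijective ?_
    intro v; exact (hm v).1
  -- symmetric sum
  have hsym : ∑ p ∈ (Finset.univ.filter (fun p : V × V => p.2 < p.1 ∧ m p.1 ≠ p.2)), x p.1 * x p.2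
      = ∑ p ∈ (Finset.univ.filter (fun p : V × V => p.1 < p.2 ∧ m p.1 ≠ p.2)), x p.1 * x p.2 := by
    refine Finset.sum_nbij' (fun p => (p.2, p.1)) (fun p => (p.2, p.1)) ?_ ?_ ?_ ?_ ?_
    · intro p hp
      simp only [Finset.mem_filter, Finset.mem_univ, true_and] at hp ⊢
      refine ⟨hp.1, fun h => hp.2 ?_⟩
      rw [← h]; exact (hm p.2).1
    · intro p hp
      simp only [Finset.mem_filter, Finset.mem_univ, true_and] at hp ⊢
      refine ⟨hp.1, fun h => hp.2 ?_⟩
      rw [← h]; exact (hm p.2).1
    · intro p _; rfl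
    · intro p _; rfl
    · intro p _; ring
  have hall : (∑ v, x v) ^ 2 = ∑ p : V × V, x p.1 * x p.2 := by
    rw [sq, Finset.sum_mul_sum, Fintype.sum_prod_type]
  have hpt : ∀ p : V × V, x p.1 * x p.2 =
      (if p.1 < p.2 ∧ m p.1 ≠ p.2 then x p.1 * x p.2 else 0) +
      (if p.2 < p.1 ∧ m p.1 ≠ p.2 then x p.1 * x p.2 else 0) +
      (if p.2 = p.1 then x p.1 * x p.2 else 0) +
      (if p.2 = m p.1 then x p.1 * x p.2 else 0) := by
    intro p
    by_cases h1 : p.2 = m p.1
    · have h2 : ¬ (m p.1 ≠ p.2) := fun h => h h1.symm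
      have h3 : ¬ (p.2 = p.1) := by rw [h1]; exact (hm p.1).2
      rw [if_neg (fun h => h2 h.2), if_neg (fun h => h2 h.2), if_neg h3, if_pos h1]; ring
    · have h1' : m p.1 ≠ p.2 := fun h => h1 h.symm
      rcases lt_trichotomy p.1 p.2 with h | h | h
      · rw [if_pos ⟨h, h1'⟩, if_neg (fun hh => absurd hh.1 (not_lt.2 h.le)), if_neg h.ne', if_neg h1]
        ring
      · rw [if_neg (fun hh => absurd h hh.1.ne), if_neg (fun hh => absurd h.symm hh.1.ne),
          if_pos h.symm, if_neg h1]
        ring
      · rw [if_neg (fun hh => absurd hh.1 (not_lt.2 h.le)), if_pos ⟨h, h1'⟩, if_neg h.ne, if_neg h1]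
        ring
  have hexp : (∑ v, x v) ^ 2 =
      2 * (∑ p ∈ (Finset.univ.filter (fun p : V × V => p.1 < p.2 ∧ m p.1 ≠ p.2)), x p.1 * x p.2)
        + ∑ v, x v ^ 2 + ∑ v, x v * x (m v) := by
    rw [hall, Finset.sum_congr rfl (fun p _ => hpt p), Finset.sum_add_distrib,
      Finset.sum_add_distrib, Finset.sum_add_distrib, ← Finset.sum_filter, ← Finset.sum_filter,
      hsym]
    have e1 : ∑ p : V × V, (if p.2 = p.1 then x p.1 * x p.2 else 0) = ∑ v, x v ^ 2 := by
      rw [Fintype.sum_prod_type]
      refine Finset.sum_congr rfl (fun v _ => ?_)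
      rw [Finset.sum_eq_single v]
      · rw [if_pos rfl]; ring
      · intro b _ hb; exact if_neg hb
      · intro h; exact absurd (Finset.mem_univ _) h
    have e2 : ∑ p : V × V, (if p.2 = m p.1 then x p.1 * x p.2 else 0) = ∑ v, x v * x (m v) := by
      rw [Fintype.sum_prod_type]
      refine Finset.sum_congr rfl (fun v _ => ?_)
      rw [Finset.sum_eq_single (m v)]
      · rw [if_pos rfl]
      · intro b _ hb; exact if_neg hb
      · intro h; exact absurd (Finset.mem_univ _) h
    rw [e1, e2]
    ring
  have hms : ∑ v, x (m v) ^ 2 = ∑ v, x v ^ 2 :=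
    Function.Bijective.sum_comp hbij (fun v => x v ^ 2)
  have hle : ∑ v, x v * x (m v) ≤ ∑ v, x v ^ 2 := by
    have : ∑ v, x v * x (m v) ≤ ∑ v, (x v ^ 2 + x (m v) ^ 2) / 2 := by
      refine Finset.sum_le_sum (fun v _ => ?_)
      nlinarith [sq_nonneg (x v - x (m v))]
    refine this.trans (le_of_eq ?_)
    rw [← Finset.sum_div, Finset.sum_add_distrib, hms]
    ring
  linarith


theorem fm1 {V : Type} [Fintype V] [LinearOrder V] (m : V → V) (hm : IsM m) (B : Set (V → ℝ))
    (hB : MeasurableSet B) :
    mu V {U | Stab U m ∧ (fun v => U (v, m v)) ∈ B} ≤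
      ∫⁻ x, B.indicator (fun x : V → ℝ => ENNReal.ofReal
        (Real.exp (-(∑ v, x v) ^ 2 / 2 + ∑ v, x v ^ 2))) x ∂(Measure.pi fun _ : V => lam) := by
  set S : Finset (V × V) := Finset.univ.filter (fun p : V × V => p.1 < p.2 ∧ m p.1 ≠ p.2) with hS
  have hSm : ∀ p ∈ S, p.1 < p.2 ∧ m p.1 ≠ p.2 := by
    intro p hp
    simpa [hS] using hp
  set Q : Set (V → ℝ) := {x | ∀ v, x v ∈ Icc (0:ℝ) 1} with hQ
  have hQm : MeasurableSet Q := by
    have : Q = univ.pi (fun _ : V => Icc (0:ℝ) 1) := by
      ext x; simp only [hQ, Set.mem_pi, mem_univ, forall_const, mem_setOf_eq]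
    rw [this]
    exact MeasurableSet.univ_pi (fun _ => measurableSet_Icc)
  set K : (V → ℝ) → ℝ≥0∞ := (B ∩ Q).indicator 1 with hKdef
  have hKm : Measurable K := measurable_one.indicator (hB.inter hQm)
  have hK0 : ∀ x, (¬ ∀ v, x v ∈ Icc (0:ℝ) 1) → K x = 0 := by
    intro x hx
    rw [hKdef]
    exact indicator_of_notMem (fun h => hx h.2) _
  have hmeasx := fm1_meas_x m
  -- almost everywhere the coordinates are in the unit interval
  have hae : ∀ᵐ U ∂(mu V), (fun v => U (v, m v)) ∈ Q := by
    have h1 : ∀ᵐ x ∂((mu V).map (fun U : V × V → ℝ => fun v => U (v, m v))), x ∈ Q := by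
      rw [fm1_map]
      have h2 : ∀ v : V, ∀ᵐ x ∂(Measure.pi fun _ : V => lam), x v ∈ Icc (0:ℝ) 1 := by
        intro v
        have h3 : ∀ᵐ t ∂lam, t ∈ Icc (0:ℝ) 1 := ae_restrict_mem measurableSet_Icc
        have h4 := (measurePreserving_eval (fun _ : V => lam) v).quasiMeasurePreserving.ae h3
        exact h4
      exact ae_all_iff.2 h2
    exact ae_of_ae_map hmeasx.aemeasurable h1
  have hstart : mu V {U | Stab U m ∧ (fun v => U (v, m v)) ∈ B} ≤
      ∫⁻ U, K (fun v => U (v, m v)) * ∏ p ∈ S, fm1nb m p U ∂(mu V) := by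
    have hmF : Measurable (fun U : V × V → ℝ => K (fun v => U (v, m v)) *
        ∏ p ∈ S, fm1nb m p U) :=
      (hKm.comp hmeasx).mul (Finset.measurable_prod _ (fun q _ => fm1_meas_nb m q))
    have hE : mu V {U | Stab U m ∧ (fun v => U (v, m v)) ∈ B} ≤
        mu V {U | 1 ≤ K (fun v => U (v, m v)) * ∏ p ∈ S, fm1nb m p U} := by
      apply measure_mono_ae
      filter_upwards [hae] with U hU hU2
      obtain ⟨hst, hUB⟩ := hU2
      have hk : K (fun v => U (v, m v)) = 1 := by
        rw [hKdef]
        exact indicator_of_mem (show (fun v => U (v, m v)) ∈ B ∩ Q from ⟨hUB, hU⟩) _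
      have hp1 : ∏ p ∈ S, fm1nb m p U = 1 := by
        refine Finset.prod_eq_one (fun p hp => ?_)
        unfold fm1nb
        rw [if_neg]
        exact hst p.1 p.2 (hSm p hp).1.ne
      show 1 ≤ K (fun v => U (v, m v)) * ∏ p ∈ S, fm1nb m p U
      rw [hk, hp1, one_mul]
    refine hE.trans ?_
    have := mul_meas_ge_le_lintegral (μ := mu V) hmF 1
    simpa using this
  refine hstart.trans ((fm1_step m hm S hSm K hKm hK0).trans ?_)
  have hfin : ∫⁻ U, K (fun v => U (v, m v)) * ∏ p ∈ S, fm1e p (fun v => U (v, m v)) ∂(mu V) =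
      ∫⁻ x, K x * ∏ p ∈ S, fm1e p x ∂(Measure.pi fun _ : V => lam) := by
    have hmm : Measurable (fun x : V → ℝ => K x * ∏ p ∈ S, fm1e p x) :=
      hKm.mul (Finset.measurable_prod _ (fun q _ => fm1_meas_e q))
    rw [← fm1_map m, lintegral_map hmm hmeasx]
  rw [hfin]
  refine lintegral_mono (fun x => ?_)
  show K x * ∏ p ∈ S, fm1e p x ≤ _
  by_cases hx : x ∈ B
  · rw [indicator_of_mem hx]
    have hk : K x ≤ 1 := by
      rw [hKdef]
      refine indicator_le_self' (fun _ _ => zero_le_one) x |>.trans ?_
      simp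
    have hprod : ∏ p ∈ S, fm1e p x =
        ENNReal.ofReal (Real.exp (-(∑ p ∈ S, x p.1 * x p.2))) := by
      unfold fm1e
      rw [← ENNReal.ofReal_prod_of_nonneg (fun p _ => (Real.exp_pos _).le), ← Real.exp_sum,
        Finset.sum_neg_distrib]
    rw [hprod]
    calc K x * ENNReal.ofReal (Real.exp (-(∑ p ∈ S, x p.1 * x p.2)))
        ≤ 1 * ENNReal.ofReal (Real.exp (-(∑ p ∈ S, x p.1 * x p.2))) := by gcongr
      _ = ENNReal.ofReal (Real.exp (-(∑ p ∈ S, x p.1 * x p.2))) := one_mul _
      _ ≤ _ := by
        apply ENNReal.ofReal_le_ofReal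
        apply Real.exp_le_exp.2
        exact fm1_sum m hm x
  · have : K x = 0 := by
      rw [hKdef]
      exact indicator_of_notMem (fun h => hx h.1) _
    rw [this, zero_mul]
    exact zero_le

end Pool.Agent.Helper651.SR
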