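import Pool.Agent.Helper651.SR.Defs

set_option autoImplicit false
open MeasureTheory Set Filter Topology Classical
open scoped ENNReal

namespace Pool.Agent.Helper651.SR

theorem fm2_prod {V : Type} [Fintype V] (g : V → ℝ → ℝ≥0∞) (hg : ∀ v, Measurable (g v)) :
    ∫⁻ x : V → ℝ, ∏ v, g v (x v) ∂(Measure.pi fun _ : V => lam) = ∏ v, ∫⁻ a, g v a ∂lam := by
  have hind : ProbabilityTheory.iIndepFun (fun v (x : V → ℝ) => g v (x v))
      (Measure.pi fun _ : V => lam) :=
    ProbabilityTheory.iIndepFun_pi (fun v => (hg v).aemeasurable)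
  rw [ProbabilityTheory.lintegral_prod_eq_prod_lintegral_of_indepFun Finset.univ _ hind
    (fun v => (hg v).comp (measurable_pi_apply v))]
  refine Finset.prod_congr rfl fun v _ => ?_
  exact (measurePreserving_eval (fun _ : V => lam) v).lintegral_comp (hg v)

theorem fm2_gen (c : ℝ) (hc : 0 ≤ c) (hc1 : c ≤ 1) (f g G : ℝ → ℝ)
    (hfg : ∀ x ∈ Ioc c 1, f x ≤ g x) (hg0 : ∀ x ∈ Ioc c 1, 0 ≤ g x) (hgc : Continuous g)
    (hG : ∀ x, HasDerivAt G (g x) x) :
    ∫⁻ a in Ioc c 1, ENNReal.ofReal (f a) ≤ ENNReal.ofReal (G 1 - G c) := by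
  have h1 : ∫⁻ a in Ioc c 1, ENNReal.ofReal (f a) ≤ ∫⁻ a in Ioc c 1, ENNReal.ofReal (g a) :=
    setLIntegral_mono' measurableSet_Ioc fun x hx => ENNReal.ofReal_le_ofReal (hfg x hx)
  refine h1.trans (le_of_eq ?_)
  have hint : IntegrableOn g (Ioc c 1) :=
    (hgc.integrableOn_Icc (a := c) (b := 1)).mono_set Ioc_subset_Icc_self
  rw [← ofReal_integral_eq_lintegral_ofReal hint]
  · rw [← intervalIntegral.integral_of_le hc1,
      intervalIntegral.integral_eq_sub_of_hasDerivAt (fun x _ => hG x) (hgc.intervalIntegrable _ _)]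
  · rw [Filter.EventuallyLE, ae_restrict_iff' measurableSet_Ioc]
    exact Filter.Eventually.of_forall fun x hx => hg0 x hx

theorem fm2_exp_le (y : ℝ) (h0 : 0 ≤ y) (h1 : y ≤ 1) : Real.exp y ≤ 1 + 2 * y := by
  have h2 := convexOn_exp.2 (Set.mem_univ (0 : ℝ)) (Set.mem_univ (1 : ℝ))
    (show (0 : ℝ) ≤ 1 - y by linarith) h0 (by ring)
  simp only [smul_eq_mul, mul_zero, mul_one, zero_add, Real.exp_zero] at h2
  have h3 := Real.exp_one_lt_d9
  nlinarith

theorem fm2_I1 (N : ℝ) (hN : 4 ≤ N) : ∫⁻ a, ENNReal.ofReal (Real.exp (-N * a + a ^ 2)) ∂lam ≤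
    ENNReal.ofReal ((1 / N) * (1 + 4 / N ^ 2)) := by
  have hN0 : 0 < N := by linarith
  unfold lam
  rw [← restrict_Ioc_eq_restrict_Icc]
  have h1 := fm2_gen 0 le_rfl zero_le_one (fun a => Real.exp (-N * a + a ^ 2))
    (fun a => Real.exp (-N * a) * (1 + 2 * a ^ 2))
    (fun a => -(1 / N) * (Real.exp (-N * a) * (1 + 2 * a ^ 2 + 4 * a / N + 4 / N ^ 2)))
    (by
      intro x hx
      beta_reduce
      rw [Real.exp_add]
      refine mul_le_mul_of_nonneg_left ?_ (Real.exp_pos _).le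
      exact fm2_exp_le _ (sq_nonneg x) (by nlinarith [hx.1, hx.2]))
    (by intro x hx; beta_reduce; positivity)
    (by fun_prop)
    (by
      intro x
      have h2 : HasDerivAt (fun a : ℝ => Real.exp (-N * a)) (Real.exp (-N * x) * (-N * 1)) x :=
        ((hasDerivAt_id' x).const_mul (-N)).exp
      have h3 : HasDerivAt (fun a : ℝ => 1 + 2 * a ^ 2 + 4 * a / N + 4 / N ^ 2)
          (2 * (2 * x) + 4 / N) x := by
        have h4 : HasDerivAt (fun a : ℝ => a ^ 2) (2 * x) x := by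
          have := hasDerivAt_pow 2 x
          exact this.congr_deriv (by norm_num)
        have h5 := (((h4.const_mul 2).const_add 1).add
          (((hasDerivAt_id' x).const_mul 4).div_const N)).add_const (4 / N ^ 2)
        exact h5.congr_deriv (by ring)
      have h6 := (h2.mul h3).const_mul (-(1 / N))
      refine h6.congr_deriv ?_
      field_simp
      ring)
  refine h1.trans (ENNReal.ofReal_le_ofReal ?_)
  beta_reduce
  have h7 : 0 ≤ (1 / N) * (Real.exp (-N * 1) * (1 + 2 * 1 ^ 2 + 4 * 1 / N + 4 / N ^ 2)) := by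
    positivity
  have h8 : Real.exp (-N * 0) = 1 := by simp
  rw [h8]
  have h9 : (1 / N) * (1 + 4 / N ^ 2) = (1 / N) * (1 * (1 + 2 * 0 ^ 2 + 4 * 0 / N + 4 / N ^ 2)) := by
    simp
  rw [h9]
  linarith

theorem fm2_I2 (N L : ℝ) (hN : 4 ≤ N) (hL1 : 1 ≤ L) (hL : L ≤ N) :
    ∫⁻ a, (if L / N < a then ENNReal.ofReal (Real.exp (-N * a + a ^ 2)) else 0) ∂lam ≤
    ENNReal.ofReal ((2 / N) * Real.exp (-L / 2)) := by
  have hN0 : 0 < N := by linarith
  have hN1 : 0 < N - 1 := by linarith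
  have hc0 : 0 ≤ L / N := by positivity
  have hc1 : L / N ≤ 1 := (div_le_one hN0).2 hL
  have h0 : ∫⁻ a, (if L / N < a then ENNReal.ofReal (Real.exp (-N * a + a ^ 2)) else 0) ∂lam ≤
      ∫⁻ a in Ioc (L / N) 1, ENNReal.ofReal (Real.exp (-N * a + a ^ 2)) := by
    unfold lam
    calc ∫⁻ a in Icc 0 1, (if L / N < a then ENNReal.ofReal (Real.exp (-N * a + a ^ 2)) else 0)
        ≤ ∫⁻ a in Icc 0 1, (Ioc (L / N) 1).indicator
            (fun a => ENNReal.ofReal (Real.exp (-N * a + a ^ 2))) a := by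
          refine setLIntegral_mono' measurableSet_Icc fun x hx => ?_
          split_ifs with h
          · rw [Set.indicator_of_mem (show x ∈ Ioc (L / N) 1 from ⟨h, hx.2⟩)]
          · exact zero_le
      _ ≤ ∫⁻ a, (Ioc (L / N) 1).indicator
            (fun a => ENNReal.ofReal (Real.exp (-N * a + a ^ 2))) a := setLIntegral_le_lintegral _ _
      _ = _ := lintegral_indicator measurableSet_Ioc _
  refine h0.trans ?_
  have h1 := fm2_gen (L / N) hc0 hc1 (fun a => Real.exp (-N * a + a ^ 2))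
    (fun a => Real.exp (-(N - 1) * a))
    (fun a => -(1 / (N - 1)) * Real.exp (-(N - 1) * a))
    (by
      intro x hx
      beta_reduce
      have h0 : 0 ≤ x := hc0.trans hx.1.le
      refine Real.exp_le_exp.2 ?_
      nlinarith [hx.2])
    (by intro x hx; beta_reduce; positivity)
    (by fun_prop)
    (by
      intro x
      have h2 : HasDerivAt (fun a : ℝ => Real.exp (-(N - 1) * a))
        (Real.exp (-(N - 1) * x) * (-(N - 1) * 1)) x :=
        ((hasDerivAt_id' x).const_mul (-(N - 1))).exp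
      refine (h2.const_mul (-(1 / (N - 1)))).congr_deriv ?_
      field_simp)
  refine h1.trans (ENNReal.ofReal_le_ofReal ?_)
  beta_reduce
  have h3 : 0 ≤ (1 / (N - 1)) * Real.exp (-(N - 1) * 1) := by positivity
  have h4 : (1 / (N - 1)) ≤ 2 / N := by
    rw [div_le_div_iff₀ hN1 hN0]; linarith
  have h5 : Real.exp (-(N - 1) * (L / N)) ≤ Real.exp (-L / 2) := by
    refine Real.exp_le_exp.2 ?_
    have h6 : -(N - 1) * (L / N) = -(L * ((N - 1) / N)) := by ring
    have h7 : (1 : ℝ) / 2 ≤ (N - 1) / N := by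
      rw [div_le_div_iff₀ two_pos hN0]; linarith
    rw [h6]
    nlinarith
  have h8 : (1 / (N - 1)) * Real.exp (-(N - 1) * (L / N)) ≤ (2 / N) * Real.exp (-L / 2) :=
    mul_le_mul h4 h5 (Real.exp_pos _).le (by positivity)
  linarith

theorem fm2_real (h : ℕ) (hh : 1 ≤ h) (N L : ℝ) (hN : 4 ≤ N) (hNn : N ^ 2 = 2 * h) :
    Real.exp (h : ℝ) * (((2 * h : ℕ) : ℝ) * (((2 / N) * Real.exp (-L / 2)) *
      ((1 / N) * (1 + 4 / N ^ 2)) ^ (2 * h - 1)) +
      Real.exp (-L ^ 2 / 2) * ((1 / N) * (1 + 4 / N ^ 2)) ^ (2 * h)) ≤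
      (Real.exp 1 / (2 * h : ℝ)) ^ h * Real.exp 4 *
        (4 * h * Real.exp (-L / 2) + Real.exp (-L ^ 2 / 2)) := by
  have hN0 : 0 < N := by linarith
  have hh0 : (0 : ℝ) < h := by exact_mod_cast hh
  obtain ⟨b, hb⟩ : ∃ b, b = (1 / N) * (1 + 4 / N ^ 2) := ⟨_, rfl⟩
  have hb0 : 0 < b := by rw [hb]; positivity
  have hqb : 1 / N ≤ b := by
    rw [hb]
    have : (0 : ℝ) ≤ 4 / N ^ 2 := by positivity
    have h2 : 0 < 1 / N := by positivity
    nlinarith
  rw [← hb]
  have hbn : b ^ (2 * h) ≤ (1 / (2 * h : ℝ)) ^ h * Real.exp 4 := by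
    rw [hb, mul_pow]
    have h1 : (1 / N) ^ (2 * h) = (1 / (2 * h : ℝ)) ^ h := by
      rw [pow_mul, div_pow, one_pow, hNn]
    rw [h1]
    refine mul_le_mul_of_nonneg_left ?_ (by positivity)
    have h2 : 1 + 4 / N ^ 2 ≤ Real.exp (4 / N ^ 2) := by
      have := Real.add_one_le_exp (4 / N ^ 2)
      linarith
    calc (1 + 4 / N ^ 2) ^ (2 * h) ≤ (Real.exp (4 / N ^ 2)) ^ (2 * h) :=
          pow_le_pow_left₀ (by positivity) h2 _
      _ = Real.exp 4 := by
          rw [← Real.exp_nat_mul]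
          congr 1
          rw [hNn]
          push_cast
          field_simp
  have hbn1 : (1 / N) * b ^ (2 * h - 1) ≤ b ^ (2 * h) := by
    calc (1 / N) * b ^ (2 * h - 1) ≤ b * b ^ (2 * h - 1) :=
          mul_le_mul_of_nonneg_right hqb (by positivity)
      _ = b ^ (2 * h) := by
          rw [← pow_succ']
          congr 1
          omega
  have he : (Real.exp 1 / (2 * h : ℝ)) ^ h = Real.exp (h : ℝ) * (1 / (2 * h : ℝ)) ^ h := by
    rw [div_eq_mul_one_div, mul_pow, ← Real.exp_nat_mul, mul_one]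
  rw [he]
  obtain ⟨E, hE⟩ : ∃ E, E = Real.exp (-L / 2) := ⟨_, rfl⟩
  obtain ⟨E2, hE2⟩ : ∃ E2, E2 = Real.exp (-L ^ 2 / 2) := ⟨_, rfl⟩
  have hE0 : 0 < E := by rw [hE]; exact Real.exp_pos _
  have hE20 : 0 < E2 := by rw [hE2]; exact Real.exp_pos _
  rw [← hE, ← hE2]
  have hx0 : 0 < Real.exp (h : ℝ) := Real.exp_pos _
  have h3 : ((2 * h : ℕ) : ℝ) * (((2 / N) * E) * b ^ (2 * h - 1)) ≤ 4 * h * E * b ^ (2 * h) := by
    calc ((2 * h : ℕ) : ℝ) * (((2 / N) * E) * b ^ (2 * h - 1))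
        = (4 * h * E) * ((1 / N) * b ^ (2 * h - 1)) := by push_cast; ring
      _ ≤ _ := mul_le_mul_of_nonneg_left hbn1 (by positivity)
  calc Real.exp (h : ℝ) * (((2 * h : ℕ) : ℝ) * (((2 / N) * E) * b ^ (2 * h - 1)) + E2 * b ^ (2 * h))
      ≤ Real.exp (h : ℝ) * (4 * h * E * b ^ (2 * h) + E2 * b ^ (2 * h)) :=
        mul_le_mul_of_nonneg_left (by linarith) hx0.le
    _ = (Real.exp (h : ℝ) * (4 * h * E + E2)) * b ^ (2 * h) := by ring
    _ ≤ (Real.exp (h : ℝ) * (4 * h * E + E2)) * ((1 / (2 * h : ℝ)) ^ h * Real.exp 4) :=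
        mul_le_mul_of_nonneg_left hbn (by positivity)
    _ = _ := by ring

theorem fm2 (V : Type) [Fintype V] (h : ℕ) (hh : 1 ≤ h) (hV : Fintype.card V = 2 * h) (L : ℝ)
    (hL : 1 ≤ L) (hn : 4 ≤ √(Fintype.card V)) (hLn : L ≤ √(Fintype.card V)) :
    ∫⁻ x, {x : V → ℝ | ¬ ((∀ v, x v ≤ L / √(Fintype.card V)) ∧
        |∑ v, x v - √(Fintype.card V)| ≤ L)}.indicator (fun x : V → ℝ => ENNReal.ofReal
        (Real.exp (-(∑ v, x v) ^ 2 / 2 + ∑ v, x v ^ 2))) x ∂(Measure.pi fun _ : V => lam) ≤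
      ENNReal.ofReal ((Real.exp 1 / (2 * h : ℝ)) ^ h * Real.exp 4 *
        (4 * h * Real.exp (-L / 2) + Real.exp (-L ^ 2 / 2))) := by
  obtain ⟨N, hNd⟩ : ∃ N, N = √(Fintype.card V) := ⟨_, rfl⟩
  rw [← hNd] at hn hLn ⊢
  have hN2 : N ^ 2 = 2 * h := by
    rw [hNd, Real.sq_sqrt (by positivity), hV]; push_cast; ring
  have hN0 : 0 < N := by linarith
  obtain ⟨f, hf⟩ : ∃ f : ℝ → ℝ≥0∞, f = fun a => ENNReal.ofReal (Real.exp (-N * a + a ^ 2)) := ⟨_, rfl⟩
  obtain ⟨f2, hf2⟩ : ∃ f2 : ℝ → ℝ≥0∞, f2 = fun a => if L / N < a then ENNReal.ofReal (Real.exp (-N * a + a ^ 2)) else 0 := ⟨_, rfl⟩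
  have hfm : Measurable f := by rw [hf]; fun_prop
  have hf2m : Measurable f2 := by
    rw [hf2]
    exact Measurable.ite measurableSet_Ioi (by fun_prop) measurable_const
  obtain ⟨g, hg⟩ : ∃ g : V → V → ℝ → ℝ≥0∞, g = fun v u => if u = v then f2 else f := ⟨_, rfl⟩
  have hgm : ∀ v u, Measurable (g v u) := by
    intro v u
    rw [hg]
    beta_reduce
    split_ifs
    · exact hf2m
    · exact hfm
  have hpt : ∀ x : V → ℝ, {x : V → ℝ | ¬ ((∀ v, x v ≤ L / N) ∧
        |∑ v, x v - N| ≤ L)}.indicator (fun x : V → ℝ => ENNReal.ofReal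
        (Real.exp (-(∑ v, x v) ^ 2 / 2 + ∑ v, x v ^ 2))) x ≤
        ENNReal.ofReal (Real.exp h) * (∑ v, ∏ u, g v u (x u) +
          ENNReal.ofReal (Real.exp (-L ^ 2 / 2)) * ∏ u, f (x u)) := by
    intro x
    have hE : ENNReal.ofReal (Real.exp (-(∑ v, x v) ^ 2 / 2 + ∑ v, x v ^ 2)) =
        ENNReal.ofReal (Real.exp h) * (ENNReal.ofReal (Real.exp (-(∑ v, x v - N) ^ 2 / 2)) *
          ∏ u, f (x u)) := by
      rw [hf]
      beta_reduce
      rw [← ENNReal.ofReal_prod_of_nonneg (fun i _ => (Real.exp_pos _).le), ← Real.exp_sum,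
        ← ENNReal.ofReal_mul (Real.exp_pos _).le, ← ENNReal.ofReal_mul (Real.exp_pos _).le,
        ← Real.exp_add, ← Real.exp_add, Finset.sum_add_distrib, ← Finset.mul_sum]
      congr 2
      linear_combination (1 / 2) * hN2
    by_cases hx : x ∈ {x : V → ℝ | ¬ ((∀ v, x v ≤ L / N) ∧ |∑ v, x v - N| ≤ L)}
    · rw [Set.indicator_of_mem hx, hE]
      refine mul_le_mul_right ?_ _
      by_cases h1 : ∀ v, x v ≤ L / N
      · have h2 : ¬ |∑ v, x v - N| ≤ L := fun h2 => hx ⟨h1, h2⟩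
        push Not at h2
        refine le_trans ?_ le_add_self
        refine mul_le_mul_left (ENNReal.ofReal_le_ofReal (Real.exp_le_exp.2 ?_)) _
        have h3 : L ^ 2 ≤ (∑ v, x v - N) ^ 2 := by
          rw [← sq_abs (∑ v, x v - N)]
          exact pow_le_pow_left₀ (by linarith) h2.le 2
        linarith
      · push Not at h1
        obtain ⟨v, hv⟩ := h1
        refine le_trans ?_ le_self_add
        have h2 : ∏ u, g v u (x u) = ∏ u, f (x u) := by
          refine Finset.prod_congr rfl fun u _ => ?_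
          rw [hg]
          beta_reduce
          split_ifs with h3
          · rw [hf2, hf]
            beta_reduce
            rw [if_pos (by rw [h3]; exact hv)]
          · rfl
        calc ENNReal.ofReal (Real.exp (-(∑ v, x v - N) ^ 2 / 2)) * ∏ u, f (x u)
            ≤ 1 * ∏ u, f (x u) := by
              refine mul_le_mul_left ?_ _
              rw [ENNReal.ofReal_le_one, Real.exp_le_one_iff]
              nlinarith [sq_nonneg (∑ v, x v - N)]
          _ = ∏ u, g v u (x u) := by rw [one_mul, h2]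
          _ ≤ _ := Finset.single_le_sum (f := fun v => ∏ u, g v u (x u)) (fun _ _ => zero_le)
            (Finset.mem_univ v)
    · rw [Set.indicator_of_notMem hx]
      exact zero_le
  refine (lintegral_mono hpt).trans ?_
  have hmf : Measurable (fun x : V → ℝ => ∏ u, f (x u)) :=
    Finset.measurable_fun_prod _ fun u _ => hfm.comp (measurable_pi_apply u)
  have hmg : ∀ v, Measurable (fun x : V → ℝ => ∏ u, g v u (x u)) := fun v =>
    Finset.measurable_fun_prod _ fun u _ => (hgm v u).comp (measurable_pi_apply u)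
  have hmsum : Measurable (fun x : V → ℝ => ∑ v, ∏ u, g v u (x u) +
      ENNReal.ofReal (Real.exp (-L ^ 2 / 2)) * ∏ u, f (x u)) :=
    (Finset.measurable_fun_sum _ fun v _ => hmg v).add (hmf.const_mul _)
  rw [lintegral_const_mul _ hmsum, lintegral_add_left (Finset.measurable_fun_sum _ fun v _ => hmg v),
    lintegral_const_mul _ hmf, lintegral_finsetSum _ (fun v _ => hmg v), fm2_prod (fun _ => f) (fun _ => hfm)]
  have hI1 : ∫⁻ a, f a ∂lam ≤ ENNReal.ofReal ((1 / N) * (1 + 4 / N ^ 2)) := by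
    rw [hf]; exact fm2_I1 N hn
  have hI2 : ∫⁻ a, f2 a ∂lam ≤ ENNReal.ofReal ((2 / N) * Real.exp (-L / 2)) := by
    rw [hf2]; exact fm2_I2 N L hn hL hLn
  have hp1 : ∏ _v : V, ∫⁻ a, f a ∂lam ≤ ENNReal.ofReal (((1 / N) * (1 + 4 / N ^ 2)) ^ (2 * h)) := by
    rw [Finset.prod_const, Finset.card_univ, hV, ENNReal.ofReal_pow (by positivity)]
    exact pow_le_pow_left' hI1 _
  have hp2 : ∀ v : V, ∫⁻ x, ∏ u, g v u (x u) ∂(Measure.pi fun _ : V => lam) ≤
      ENNReal.ofReal (((2 / N) * Real.exp (-L / 2)) * ((1 / N) * (1 + 4 / N ^ 2)) ^ (2 * h - 1)) := by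
    intro v
    rw [fm2_prod (g v) (hgm v), ← Finset.mul_prod_erase Finset.univ _ (Finset.mem_univ v),
      ENNReal.ofReal_mul (by positivity), ENNReal.ofReal_pow (by positivity)]
    have h1 : ∏ u ∈ Finset.univ.erase v, ∫⁻ a, g v u a ∂lam = (∫⁻ a, f a ∂lam) ^ (2 * h - 1) := by
      rw [Finset.prod_congr rfl (g := fun _ => ∫⁻ a, f a ∂lam), Finset.prod_const,
        Finset.card_erase_of_mem (Finset.mem_univ v), Finset.card_univ, hV]
      intro u hu
      rw [hg]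
      beta_reduce
      rw [if_neg (Finset.ne_of_mem_erase hu)]
    have h2 : g v v = f2 := by rw [hg]; beta_reduce; rw [if_pos rfl]
    rw [h1, h2]
    exact mul_le_mul' hI2 (pow_le_pow_left' hI1 _)
  calc ENNReal.ofReal (Real.exp h) * (∑ v, ∫⁻ x, ∏ u, g v u (x u) ∂(Measure.pi fun _ : V => lam) +
        ENNReal.ofReal (Real.exp (-L ^ 2 / 2)) * ∏ _v : V, ∫⁻ a, f a ∂lam)
      ≤ ENNReal.ofReal (Real.exp h) * (∑ _v : V, ENNReal.ofReal (((2 / N) * Real.exp (-L / 2)) *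
          ((1 / N) * (1 + 4 / N ^ 2)) ^ (2 * h - 1)) + ENNReal.ofReal (Real.exp (-L ^ 2 / 2)) *
          ENNReal.ofReal (((1 / N) * (1 + 4 / N ^ 2)) ^ (2 * h))) := by
        refine mul_le_mul_right ?_ _
        exact add_le_add (Finset.sum_le_sum fun v _ => hp2 v) (mul_le_mul_right hp1 _)
    _ = ENNReal.ofReal (Real.exp (h : ℝ) * (((2 * h : ℕ) : ℝ) * (((2 / N) * Real.exp (-L / 2)) *
          ((1 / N) * (1 + 4 / N ^ 2)) ^ (2 * h - 1)) +
          Real.exp (-L ^ 2 / 2) * ((1 / N) * (1 + 4 / N ^ 2)) ^ (2 * h))) := by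
        rw [Finset.sum_const, Finset.card_univ, hV, ENNReal.ofReal_mul (Real.exp_pos _).le,
          ENNReal.ofReal_add (by positivity) (by positivity),
          ENNReal.ofReal_mul (p := ((2 * h : ℕ) : ℝ)) (by positivity),
          ENNReal.ofReal_mul (p := Real.exp (-L ^ 2 / 2)) (by positivity), nsmul_eq_mul,
          ENNReal.ofReal_natCast]
    _ ≤ _ := ENNReal.ofReal_le_ofReal (fm2_real h hh N L hn hN2)

end Pool.Agent.Helper651.SR
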