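import Pool.Agent.Helper651.SR.Defs

set_option autoImplicit false
open MeasureTheory Set Filter Topology Classical
open scoped ENNReal

namespace Pool.Agent.Helper651.SR

theorem in_Ev {V I : Type} [Fintype V] [Fintype I] (f : I ↪ V) (ν : Equiv.Perm I)
    (hν : ∀ i, ν i ≠ i) (m : V → V) (hm : IsM m) (τ : I → I) (hmτ : ∀ i, m (f i) = f (τ i))
    (U : V × V → ℝ) (hs : ∀ i, sc f ν U i ≤ yc f ν U i)
    (hint : ∀ i j, i ≠ j → ¬ (U (f i, f j) < yc f ν U i ∧ U (f j, f i) < yc f ν U j))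
    (hR : StabR f m U) (hS : Surv f m U (yc f ν U)) : U ∈ Ev ν f := by
  have hmr : ∀ w, w ∉ Set.range f → m w ∉ Set.range f := by
    rintro w hw ⟨i, hi⟩
    apply hw
    refine ⟨τ i, ?_⟩
    rw [← hmτ, hi]
    exact (hm w).1
  let F : Equiv.Perm I → V → V := fun ρ v =>
    if h : v ∈ Set.range f then f (ρ (Classical.choose h)) else m v
  have F1 : ∀ (ρ : Equiv.Perm I) (i : I), F ρ (f i) = f (ρ i) := by
    intro ρ i
    have h : f i ∈ Set.range f := ⟨i, rfl⟩
    show (if h : f i ∈ Set.range f then f (ρ (Classical.choose h)) else m (f i)) = f (ρ i)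
    rw [dif_pos h]
    have h2 : Classical.choose h = i := f.injective (Classical.choose_spec h)
    rw [h2]
  have F2 : ∀ (ρ : Equiv.Perm I) (w : V), w ∉ Set.range f → F ρ w = m w := by
    intro ρ w hw
    exact dif_neg hw
  have FF : ∀ (ρ : Equiv.Perm I) (v : V), F ρ⁻¹ (F ρ v) = v := by
    intro ρ v
    by_cases h : v ∈ Set.range f
    · obtain ⟨i, rfl⟩ := h
      rw [F1, F1]
      simp
    · rw [F2 ρ v h, F2 _ _ (hmr v h)]
      exact (hm v).1
  let π : Equiv.Perm V :=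
    { toFun := F ν
      invFun := F ν⁻¹
      left_inv := FF ν
      right_inv := fun v => by
        have := FF ν⁻¹ v
        rwa [inv_inv] at this }
  have P1 : ∀ i, π (f i) = f (ν i) := F1 ν
  have P2 : ∀ w, w ∉ Set.range f → π w = m w := F2 ν
  have Q1 : ∀ i, π⁻¹ (f i) = f (ν⁻¹ i) := F1 ν⁻¹
  have Q2 : ∀ w, w ∉ Set.range f → π⁻¹ w = m w := F2 ν⁻¹
  refine ⟨π, ⟨?_, ?_, ?_⟩, P1, ?_⟩
  · intro v
    by_cases h : v ∈ Set.range f
    · obtain ⟨i, rfl⟩ := h
      rw [P1]
      intro h2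
      exact hν i (f.injective h2)
    · rw [P2 v h]
      exact (hm v).2
  · intro v
    by_cases h : v ∈ Set.range f
    · obtain ⟨i, rfl⟩ := h
      rw [P1, Q1]
      exact hs i
    · rw [P2 v h, Q2 v h]
  · intro u w huw
    by_cases hu : u ∈ Set.range f
    · obtain ⟨i, rfl⟩ := hu
      by_cases hw : w ∈ Set.range f
      · obtain ⟨j, rfl⟩ := hw
        rw [Q1, Q1]
        exact hint i j (fun h => huw (by rw [h]))
      · rw [Q1, Q2 w hw]
        exact hS i w hw
    · by_cases hw : w ∈ Set.range f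
      · obtain ⟨j, rfl⟩ := hw
        rw [Q1, Q2 u hu]
        intro h
        exact hS j u hu ⟨h.2, h.1⟩
      · rw [Q2 u hu, Q2 w hw]
        exact hR u w hu hw huw
  · intro v hv
    rw [P2 v hv, P2 _ (hmr v hv)]
    exact (hm v).1

end Pool.Agent.Helper651.SR
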