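import Pool.Agent.Helper651.SR.Defs
import Pool.Agent.Helper651.SR.InEv

set_option autoImplicit false
open MeasureTheory Set Filter Topology Classical
open scoped ENNReal

namespace Pool.Agent.Helper651.SR

theorem Fw_sum_le {V I : Type} [Fintype V] [Fintype I] (L : ℝ) (f : I ↪ V) (τ : I → I)
    (U : V × V → ℝ) (t : I → ℝ) : ∑ m, Fw L f τ m U t ≤ 1 := by
  have h1 : ∀ m : V → V, Fw L f τ m U t ≤
      if IsM m ∧ (∀ i, m (f i) = f (τ i)) ∧ StabR f m U ∧ Surv f m U t
      then ((Zc f τ U t : ℕ) : ℝ≥0∞)⁻¹ else 0 := by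
    intro m
    unfold Fw
    by_cases h : IsM m ∧ (∀ i, m (f i) = f (τ i)) ∧ StabR f m U ∧ Surv f m U t ∧ Gd L f m U t
    · rw [if_pos h, if_pos ⟨h.1, h.2.1, h.2.2.1, h.2.2.2.1⟩]
    · rw [if_neg h]
      exact bot_le
  refine (Finset.sum_le_sum fun m _ => h1 m).trans ?_
  rw [← Finset.sum_filter, Finset.sum_const, nsmul_eq_mul]
  have hZ : (Finset.filter (fun m : V → V => IsM m ∧ (∀ i, m (f i) = f (τ i)) ∧
      StabR f m U ∧ Surv f m U t) Finset.univ).card = Zc f τ U t := by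
    unfold Zc
    congr
  rw [hZ]
  exact ENNReal.mul_inv_le_one _

theorem psi_ind {V I : Type} [Fintype V] [Fintype I] (L δ : ℝ) (f : I ↪ V) (τ : I → I)
    (ν : Equiv.Perm I) (hν : ∀ i, ν i ≠ i) (U : V × V → ℝ) :
    ∑ m, Fw L f τ m U (sc f ν U) * (∏ i, Ai δ f ν U i) * (∏ i, ∏ w ∈ Rf f, hi f ν m U i w) *
      Ci f ν U ≤ (Ev ν f).indicator (fun _ => 1) U := by
  have hA : ∀ i, Ai δ f ν U i ≤ 1 := fun i => by
    unfold Ai
    split_ifs <;> simp
  have hh : ∀ m i w, hi f ν m U i w ≤ 1 := fun m i w => by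
    unfold hi
    split_ifs <;> simp
  have hCi : Ci f ν U ≤ 1 := by
    unfold Ci
    split_ifs <;> simp
  by_cases hU : U ∈ Ev ν f
  · rw [Set.indicator_of_mem hU]
    refine le_trans (Finset.sum_le_sum fun m _ => ?_) (Fw_sum_le L f τ U (sc f ν U))
    have p1 : (∏ i, Ai δ f ν U i) ≤ 1 := Finset.prod_le_one' fun i _ => hA i
    have p2 : (∏ i, ∏ w ∈ Rf f, hi f ν m U i w) ≤ 1 :=
      Finset.prod_le_one' fun i _ => Finset.prod_le_one' fun w _ => hh m i w
    calc Fw L f τ m U (sc f ν U) * (∏ i, Ai δ f ν U i) * (∏ i, ∏ w ∈ Rf f, hi f ν m U i w) * Ci f ν U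
        ≤ Fw L f τ m U (sc f ν U) * 1 * 1 * 1 := by gcongr
      _ = Fw L f τ m U (sc f ν U) := by rw [mul_one, mul_one, mul_one]
  · rw [Set.indicator_of_notMem hU]
    refine le_of_eq (Finset.sum_eq_zero fun m _ => ?_)
    by_contra hne
    have n1 := left_ne_zero_of_mul hne
    have n2 := right_ne_zero_of_mul hne
    have n3 := left_ne_zero_of_mul n1
    have n4 := right_ne_zero_of_mul n1
    have n5 := left_ne_zero_of_mul n3
    have n6 := right_ne_zero_of_mul n3
    apply hU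
    have hFw : IsM m ∧ (∀ i, m (f i) = f (τ i)) ∧ StabR f m U ∧ Surv f m U (sc f ν U) ∧
        Gd L f m U (sc f ν U) := by
      by_contra hcon
      apply n5
      unfold Fw
      rw [if_neg hcon]
    have hAi : ∀ i, sc f ν U i < yc f ν U i := by
      intro i
      by_contra hcon
      apply n6
      apply Finset.prod_eq_zero (Finset.mem_univ i)
      unfold Ai
      rw [if_neg fun h => hcon h.1]
    have hhi : ∀ i w, w ∉ Set.range f →
        ¬ (sc f ν U i ≤ U (f i, w) ∧ U (f i, w) < yc f ν U i ∧ U (w, f i) < U (w, m w)) := by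
      intro i w hw hcon
      apply n4
      apply Finset.prod_eq_zero (Finset.mem_univ i)
      have hwR : w ∈ Rf f := by
        unfold Rf
        simp only [Finset.mem_filter, Finset.mem_univ, true_and]
        exact hw
      apply Finset.prod_eq_zero hwR
      unfold hi
      rw [if_pos hcon]
    have hC : ∀ i j, i ≠ j → ¬ (U (f i, f j) < yc f ν U i ∧ U (f j, f i) < yc f ν U j) := by
      by_contra hcon
      apply n2
      unfold Ci
      rw [if_neg hcon]
    refine in_Ev f ν hν m hFw.1 τ hFw.2.1 U (fun i => (hAi i).le) hC hFw.2.2.1 ?_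
    intro i w hw hcon
    by_cases hlt : U (f i, w) < sc f ν U i
    · exact hFw.2.2.2.1 i w hw ⟨hlt, hcon.2⟩
    · exact hhi i w hw ⟨not_lt.1 hlt, hcon.1, hcon.2⟩

end Pool.Agent.Helper651.SR
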