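import Pool.Agent.Helper651.SR.Defs
import Pool.Agent.Helper651.SR.G1

set_option autoImplicit false
open MeasureTheory Set Filter Topology Classical
open scoped ENNReal

namespace Pool.Agent.Helper651.SR

theorem internal_lam (y c : ℝ) (_h0 : 0 ≤ y) (hy : y ≤ c) : lam (Iio y) ≤ ENNReal.ofReal c := by
  unfold lam
  rw [Measure.restrict_apply measurableSet_Iio]
  calc volume (Iio y ∩ Icc 0 1) ≤ volume (Icc 0 y) :=
        measure_mono fun x hx => ⟨hx.2.1, le_of_lt hx.1⟩
    _ = ENNReal.ofReal (y - 0) := Real.volume_Icc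
    _ ≤ ENNReal.ofReal c := ENNReal.ofReal_le_ofReal (by linarith)

/-- blocking indicator -/
noncomputable def internal_B {V I : Type} (f : I ↪ V) (ν : Equiv.Perm I) (i j : I)
    (U : V × V → ℝ) : ℝ≥0∞ :=
  if U (f i, f j) < yc f ν U i ∧ U (f j, f i) < yc f ν U j then 1 else 0

theorem internal_B_meas {V I : Type} (f : I ↪ V) (ν : Equiv.Perm I) (i j : I) :
    Measurable (internal_B f ν i j) := by
  have hp : ∀ q : V × V, Measurable fun U : V × V → ℝ => U q := fun q => measurable_pi_apply q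
  unfold internal_B yc
  refine Measurable.ite ?_ measurable_const measurable_const
  exact (measurableSet_lt (hp _) (hp _)).inter (measurableSet_lt (hp _) (hp _))

theorem internal_G2 {ι : Type} [Fintype ι] [inst : DecidableEq ι] (i j : ι) (hij : i ≠ j)
    (F G : (ι → ℝ) → ℝ≥0∞)
    (hF : Measurable F) (hG : Measurable G)
    (h : ∀ U, ∫⁻ a, ∫⁻ b, F (Function.update (Function.update U i a) j b) ∂lam ∂lam ≤
      ∫⁻ a, ∫⁻ b, G (Function.update (Function.update U i a) j b) ∂lam ∂lam) :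
    ∫⁻ U, F U ∂(Measure.pi fun _ : ι => lam) ≤ ∫⁻ U, G U ∂(Measure.pi fun _ : ι => lam) := by
  have e : inst = fun a b => Classical.propDecidable (a = b) := Subsingleton.elim _ _
  subst e
  exact G2 i j hij F G hF hG h

theorem internal_pair {V I : Type} [Fintype V] [Fintype I] (c : ℝ)
    (f : I ↪ V) (ν : Equiv.Perm I)
    (Ψ : (V × V → ℝ) → ℝ≥0∞) (hm : Measurable Ψ)
    (hsupp : ∀ U, Ψ U ≠ 0 → ∀ i, 0 ≤ yc f ν U i ∧ yc f ν U i ≤ c)
    (hdep : ∀ i j, i ≠ j → j ≠ ν i → i ≠ ν j → ∀ U a b,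
      Ψ (Function.update (Function.update U (f i, f j) a) (f j, f i) b) = Ψ U) (i j : I)
    (hij : i ≠ j) :
    ∫⁻ U, Ψ U * internal_B f ν i j U ∂(mu V) ≤ ENNReal.ofReal (c ^ 2) * ∫⁻ U, Ψ U ∂(mu V) := by
  by_cases h1 : j = ν i
  · have : ∀ U, internal_B f ν i j U = 0 := by
      intro U
      unfold internal_B
      rw [if_neg]
      rintro ⟨_, h⟩
      have e : ν⁻¹ (ν i) = i := ν.symm_apply_apply i
      rw [yc, h1, e] at h
      exact lt_irrefl _ h
    simp [this]
  by_cases h2 : i = ν j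
  · have : ∀ U, internal_B f ν i j U = 0 := by
      intro U
      unfold internal_B
      rw [if_neg]
      rintro ⟨h, _⟩
      have e : ν⁻¹ (ν j) = j := ν.symm_apply_apply j
      rw [yc, h2, e] at h
      exact lt_irrefl _ h
    simp [this]
  rw [← lintegral_const_mul _ hm]
  have hne : (f i, f j) ≠ (f j, f i) := by
    intro e
    exact hij (f.injective (Prod.mk.inj e).1)
  refine internal_G2 (f i, f j) (f j, f i) hne (fun U => Ψ U * internal_B f ν i j U)
    (fun U => ENNReal.ofReal (c ^ 2) * Ψ U) (hm.mul (internal_B_meas f ν i j))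
    (hm.const_mul _) fun U => ?_
  have hy1 : ∀ a b, yc f ν (Function.update (Function.update U (f i, f j) a) (f j, f i) b) i =
      yc f ν U i := by
    intro a b
    unfold yc
    rw [Function.update_of_ne, Function.update_of_ne]
    · intro e
      have := f.injective (Prod.mk.inj e).2
      exact h2 (by rw [← this]; exact (ν.apply_symm_apply i).symm)
    · intro e
      exact hij (f.injective (Prod.mk.inj e).1)
  have hy2 : ∀ a b, yc f ν (Function.update (Function.update U (f i, f j) a) (f j, f i) b) j =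
      yc f ν U j := by
    intro a b
    unfold yc
    rw [Function.update_of_ne, Function.update_of_ne]
    · intro e
      exact hij (f.injective (Prod.mk.inj e).1).symm
    · intro e
      have := f.injective (Prod.mk.inj e).2
      exact h1 (by rw [← this]; exact (ν.apply_symm_apply j).symm)
  have hB : ∀ a b, internal_B f ν i j
      (Function.update (Function.update U (f i, f j) a) (f j, f i) b) =
      (Iio (yc f ν U i)).indicator 1 a * (Iio (yc f ν U j)).indicator 1 b := by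
    intro a b
    unfold internal_B
    rw [hy1, hy2, Function.update_of_ne hne, Function.update_self, Function.update_self]
    by_cases ha : a < yc f ν U i <;> by_cases hb : b < yc f ν U j <;>
      simp [ha, hb]
  simp only [hdep i j hij h1 h2, hB]
  have e1 : ∫⁻ a, ∫⁻ b, Ψ U * ((Iio (yc f ν U i)).indicator 1 a *
      (Iio (yc f ν U j)).indicator 1 b) ∂lam ∂lam =
      Ψ U * (lam (Iio (yc f ν U i)) * lam (Iio (yc f ν U j))) := by
    have : ∀ a : ℝ, ∫⁻ b, Ψ U * ((Iio (yc f ν U i)).indicator 1 a *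
      (Iio (yc f ν U j)).indicator 1 b) ∂lam =
      (Ψ U * lam (Iio (yc f ν U j))) * (Iio (yc f ν U i)).indicator 1 a := by
      intro a
      have h3 : Measurable fun b : ℝ => (Iio (yc f ν U j)).indicator (1 : ℝ → ℝ≥0∞) b :=
        measurable_one.indicator measurableSet_Iio
      rw [lintegral_const_mul _ (h3.const_mul _), lintegral_const_mul _ h3,
        lintegral_indicator_one measurableSet_Iio]
      ring
    simp only [this]
    have h4 : Measurable fun b : ℝ => (Iio (yc f ν U i)).indicator (1 : ℝ → ℝ≥0∞) b :=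
      measurable_one.indicator measurableSet_Iio
    rw [lintegral_const_mul _ h4, lintegral_indicator_one measurableSet_Iio]
    ring
  have e2 : ∫⁻ _ : ℝ, ∫⁻ _ : ℝ, ENNReal.ofReal (c ^ 2) * Ψ U ∂lam ∂lam =
      ENNReal.ofReal (c ^ 2) * Ψ U := by
    simp
  rw [e1, e2]
  by_cases h0 : Ψ U = 0
  · simp [h0]
  · obtain ⟨p1, p2⟩ := hsupp U h0 i
    obtain ⟨q1, q2⟩ := hsupp U h0 j
    have hc0 : 0 ≤ c := p1.trans p2
    rw [mul_comm (ENNReal.ofReal (c ^ 2)), pow_two, ENNReal.ofReal_mul hc0]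
    gcongr
    · exact internal_lam _ _ p1 p2
    · exact internal_lam _ _ q1 q2

theorem internal {V I : Type} [Fintype V] [Fintype I] (c : ℝ) (hc : c ≤ 1)
    (hc2 : ((Fintype.card I : ℝ) * c) ^ 2 ≤ 1 / 8) (f : I ↪ V) (ν : Equiv.Perm I)
    (Ψ : (V × V → ℝ) → ℝ≥0∞) (hm : Measurable Ψ) (hfin : ∫⁻ U, Ψ U ∂(mu V) ≠ ∞)
    (hsupp : ∀ U, Ψ U ≠ 0 → ∀ i, 0 ≤ yc f ν U i ∧ yc f ν U i ≤ c)
    (hdep : ∀ i j, i ≠ j → j ≠ ν i → i ≠ ν j → ∀ U a b,
      Ψ (Function.update (Function.update U (f i, f j) a) (f j, f i) b) = Ψ U) :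
    ENNReal.ofReal (7 / 8) * ∫⁻ U, Ψ U ∂(mu V) ≤ ∫⁻ U, Ψ U * Ci f ν U ∂(mu V) := by
  set S : Finset (I × I) := Finset.univ.filter fun q => q.1 ≠ q.2 with hS
  have hpt : ∀ U, Ψ U ≤ Ψ U * Ci f ν U + ∑ q ∈ S, Ψ U * internal_B f ν q.1 q.2 U := by
    intro U
    unfold Ci
    split_ifs with h
    · rw [mul_one]; exact le_self_add
    · push Not at h
      obtain ⟨i, j, hij, h1, h2⟩ := h
      rw [mul_zero, zero_add]
      have : Ψ U = Ψ U * internal_B f ν (i, j).1 (i, j).2 U := by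
        unfold internal_B
        rw [if_pos ⟨h1, h2⟩, mul_one]
      calc Ψ U = Ψ U * internal_B f ν (i, j).1 (i, j).2 U := this
        _ ≤ ∑ q ∈ S, Ψ U * internal_B f ν q.1 q.2 U :=
          Finset.single_le_sum (f := fun q : I × I => Ψ U * internal_B f ν q.1 q.2 U)
            (fun _ _ => zero_le) (by simp [hS, hij])
  have hsm : Measurable fun U => ∑ q ∈ S, Ψ U * internal_B f ν q.1 q.2 U :=
    Finset.measurable_fun_sum _ fun q _ => hm.mul (internal_B_meas f ν q.1 q.2)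
  have h1 : ∫⁻ U, Ψ U ∂(mu V) ≤ ∫⁻ U, Ψ U * Ci f ν U ∂(mu V) +
      ∫⁻ U, ∑ q ∈ S, Ψ U * internal_B f ν q.1 q.2 U ∂(mu V) := by
    rw [← lintegral_add_right _ hsm]
    exact lintegral_mono hpt
  have h2 : ∫⁻ U, ∑ q ∈ S, Ψ U * internal_B f ν q.1 q.2 U ∂(mu V) ≤
      ENNReal.ofReal (1 / 8) * ∫⁻ U, Ψ U ∂(mu V) := by
    rw [lintegral_finsetSum S (f := fun (q : I × I) U => Ψ U * internal_B f ν q.1 q.2 U)
      fun q _ => hm.mul (internal_B_meas f ν q.1 q.2)]
    calc ∑ q ∈ S, ∫⁻ U, Ψ U * internal_B f ν q.1 q.2 U ∂(mu V)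
        ≤ ∑ q ∈ S, ENNReal.ofReal (c ^ 2) * ∫⁻ U, Ψ U ∂(mu V) := by
          refine Finset.sum_le_sum fun q hq => ?_
          exact internal_pair c f ν Ψ hm hsupp hdep q.1 q.2 (by simpa [hS] using hq)
      _ = (S.card : ℝ≥0∞) * (ENNReal.ofReal (c ^ 2) * ∫⁻ U, Ψ U ∂(mu V)) := by
          rw [Finset.sum_const, nsmul_eq_mul]
      _ ≤ ENNReal.ofReal (1 / 8) * ∫⁻ U, Ψ U ∂(mu V) := by
          rw [← mul_assoc]
          gcongr
          rw [← ENNReal.ofReal_natCast, ← ENNReal.ofReal_mul (by positivity)]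
          refine ENNReal.ofReal_le_ofReal ?_
          have hcard : (S.card : ℝ) ≤ (Fintype.card I : ℝ) ^ 2 := by
            have : S.card ≤ Fintype.card (I × I) := Finset.card_le_univ _
            rw [Fintype.card_prod] at this
            rw [pow_two]
            exact_mod_cast this
          calc (S.card : ℝ) * c ^ 2 ≤ (Fintype.card I : ℝ) ^ 2 * c ^ 2 :=
                mul_le_mul_of_nonneg_right hcard (sq_nonneg c)
            _ = ((Fintype.card I : ℝ) * c) ^ 2 := by ring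
            _ ≤ 1 / 8 := hc2
  have h3 : ENNReal.ofReal (7 / 8) * ∫⁻ U, Ψ U ∂(mu V) +
      ENNReal.ofReal (1 / 8) * ∫⁻ U, Ψ U ∂(mu V) = ∫⁻ U, Ψ U ∂(mu V) := by
    rw [← add_mul, ← ENNReal.ofReal_add (by norm_num) (by norm_num)]
    norm_num
  have h4 : ENNReal.ofReal (7 / 8) * ∫⁻ U, Ψ U ∂(mu V) +
      ENNReal.ofReal (1 / 8) * ∫⁻ U, Ψ U ∂(mu V) ≤ ∫⁻ U, Ψ U * Ci f ν U ∂(mu V) +
      ENNReal.ofReal (1 / 8) * ∫⁻ U, Ψ U ∂(mu V) := by
    rw [h3]
    exact h1.trans (add_le_add_right h2 _)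
  exact (ENNReal.add_le_add_iff_right (ENNReal.mul_ne_top ENNReal.ofReal_ne_top hfin)).1 h4

end Pool.Agent.Helper651.SR
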