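import Pool.Agent.Helper651.SR.Defs

set_option autoImplicit false
open MeasureTheory Set Filter Topology Classical
open scoped ENNReal

namespace Pool.Agent.Helper651.SR

theorem Zc_le_T {V I : Type} [Fintype V] (f : I ↪ V) (τ : I → I)
    (U : V × V → ℝ) (m : V → V) (hS : Stab U m) (hm : ∀ i, m (f i) = f (τ i)) :
    Zc f τ U (fun i => U (f i, f (τ i))) ≤ T U := by
  unfold Zc T
  apply Finset.card_le_card
  intro m' hm'
  rw [Finset.mem_filter] at hm' ⊢
  obtain ⟨-, h1, h2, h3, h4⟩ := hm'
  refine ⟨Finset.mem_univ _, h1, ?_⟩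
  intro u w huw
  by_cases hu : u ∈ Set.range f
  · obtain ⟨i, rfl⟩ := hu
    by_cases hw : w ∈ Set.range f
    · obtain ⟨j, rfl⟩ := hw
      rw [h2 i, h2 j, ← hm i, ← hm j]
      exact hS _ _ huw
    · rw [h2 i]
      exact h4 i w hw
  · by_cases hw : w ∈ Set.range f
    · obtain ⟨j, rfl⟩ := hw
      rw [h2 j]
      rintro ⟨h5, h6⟩
      exact h4 j u hu ⟨h6, h5⟩
    · exact h3 u w hu hw huw

theorem K1 {V I : Type} [Fintype V] [Fintype I] (L : ℝ) (hL : 1 ≤ L)
    (h1 : 4 * L + 1 ≤ √(Fintype.card V))
    (ho : 8 * L * (Fintype.card I) ≤ √(Fintype.card V)) (f : I ↪ V) (τ : I → I)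
    (U : V × V → ℝ) (h0 : ∀ p, 0 ≤ U p) :
    ∑ m ∈ Finset.univ.filter (fun m : V → V => IsM m ∧ Stab U m ∧ Good L U m ∧
      ∀ i, m (f i) = f (τ i)), ((T U : ℕ) : ℝ≥0∞)⁻¹ ≤
    ∑ m, Fw L f τ m U (fun i => U (f i, f (τ i))) := by
  rw [Finset.sum_filter]
  apply Finset.sum_le_sum
  intro m _
  by_cases hp : IsM m ∧ Stab U m ∧ Good L U m ∧ ∀ i, m (f i) = f (τ i)
  swap
  · rw [if_neg hp]; exact zero_le
  rw [if_pos hp]
  obtain ⟨hM, hS, ⟨hG1, hG2⟩, hf⟩ := hp
  have hn : 0 < √(Fintype.card V : ℝ) := by linarith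
  have hLn : 0 ≤ L / √(Fintype.card V : ℝ) := by positivity
  have hcond : IsM m ∧ (∀ i, m (f i) = f (τ i)) ∧ StabR f m U ∧
      Surv f m U (fun i => U (f i, f (τ i))) ∧ Gd L f m U (fun i => U (f i, f (τ i))) := by
    refine ⟨hM, hf, fun w w' _ _ hne => hS w w' hne, ?_, ?_⟩
    · intro i w hw
      have hne : f i ≠ w := by
        rintro rfl
        exact hw ⟨i, rfl⟩
      have := hS (f i) w hne
      rw [hf i] at this
      exact this
    · refine ⟨fun w _ => ⟨h0 _, hG1 w⟩, fun i => ⟨h0 _, ?_⟩, ?_, ?_⟩
      · have := hG1 (f i)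
        rw [hf i] at this
        exact this
      · have hsplit : ∑ w ∈ Finset.univ.filter (fun w => w ∉ Set.range f), U (w, m w) +
            ∑ w ∈ Finset.univ.filter (fun w => ¬ (w ∉ Set.range f)), U (w, m w)
            = ∑ w, U (w, m w) := by
          convert Finset.sum_filter_add_sum_filter_not (Finset.univ : Finset V)
            (fun w => w ∉ Set.range f) (fun w => U (w, m w))
        have hin : ∑ w ∈ Finset.univ.filter (fun w => ¬ (w ∉ Set.range f)), U (w, m w)
            ≤ 1 / 8 := by
          have hcard : (Finset.univ.filter (fun w => ¬ (w ∉ Set.range f))).card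
              ≤ Fintype.card I := by
            have hsub : Finset.univ.filter (fun w => ¬ (w ∉ Set.range f))
                ⊆ Finset.univ.image f := by
              intro w hw
              rw [Finset.mem_filter, not_not] at hw
              obtain ⟨i, hi⟩ := hw.2
              exact Finset.mem_image.mpr ⟨i, Finset.mem_univ _, hi⟩
            exact (Finset.card_le_card hsub).trans Finset.card_image_le
          calc ∑ w ∈ Finset.univ.filter (fun w => ¬ (w ∉ Set.range f)), U (w, m w)
              ≤ ∑ _w ∈ Finset.univ.filter (fun w => ¬ (w ∉ Set.range f)),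
                L / √(Fintype.card V : ℝ) := Finset.sum_le_sum fun w _ => hG1 w
            _ = ((Finset.univ.filter (fun w => ¬ (w ∉ Set.range f))).card : ℝ) *
                (L / √(Fintype.card V : ℝ)) := by rw [Finset.sum_const, nsmul_eq_mul]
            _ ≤ (Fintype.card I : ℝ) * (L / √(Fintype.card V : ℝ)) := by
                apply mul_le_mul_of_nonneg_right _ hLn
                exact_mod_cast hcard
            _ ≤ 1 / 8 := by
                rw [← mul_div_assoc, div_le_iff₀ hn]
                nlinarith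
        have hab := (abs_le.mp hG2).1
        have hfin : √(Fintype.card V : ℝ) / 2 ≤
            ∑ w ∈ Finset.univ.filter (fun w => w ∉ Set.range f), U (w, m w) := by linarith
        convert hfin
      · have hsplit : ∑ w ∈ Finset.univ.filter (fun w => w ∉ Set.range f), U (w, m w) +
            ∑ w ∈ Finset.univ.filter (fun w => ¬ (w ∉ Set.range f)), U (w, m w)
            = ∑ w, U (w, m w) := by
          convert Finset.sum_filter_add_sum_filter_not (Finset.univ : Finset V)
            (fun w => w ∉ Set.range f) (fun w => U (w, m w))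
        have hin : 0 ≤ ∑ w ∈ Finset.univ.filter (fun w => ¬ (w ∉ Set.range f)), U (w, m w) :=
          Finset.sum_nonneg fun w _ => h0 _
        have hab := (abs_le.mp hG2).2
        have hfin : ∑ w ∈ Finset.univ.filter (fun w => w ∉ Set.range f), U (w, m w) ≤
            √(Fintype.card V : ℝ) + L := by linarith
        convert hfin
  unfold Fw
  rw [if_pos hcond]
  apply ENNReal.inv_le_inv.mpr
  exact_mod_cast Zc_le_T f τ U m hS hf

end Pool.Agent.Helper651.SR
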