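import Pool.Agent.Helper651.SR.Defs

set_option autoImplicit false
open MeasureTheory Set Filter Topology Classical
open scoped ENNReal

namespace Pool.Agent.Helper651.SR

theorem K2_agree {V I : Type} [Fintype V] (L : ℝ) (f : I ↪ V) (τ : I → I)
    (m : V → V) (U U' : V × V → ℝ) (t : I → ℝ)
    (h1 : ∀ w v, w ∉ Set.range f → U' (w, v) = U (w, v))
    (h2 : ∀ i w, w ∉ Set.range f → U' (f i, w) = U (f i, w)) :
    Fw L f τ m U' t = Fw L f τ m U t := by
  have hR : ∀ m : V → V, StabR f m U' ↔ StabR f m U := by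
    intro m
    unfold StabR
    refine forall_congr' fun w => forall_congr' fun w' => forall_congr' fun hw =>
      forall_congr' fun hw' => forall_congr' fun _ => ?_
    rw [h1 w _ hw, h1 w _ hw, h1 w' _ hw', h1 w' _ hw']
  have hS : ∀ m : V → V, Surv f m U' t ↔ Surv f m U t := by
    intro m
    unfold Surv
    refine forall_congr' fun i => forall_congr' fun w => forall_congr' fun hw => ?_
    rw [h1 w _ hw, h1 w _ hw, h2 i w hw]
  have hsum : ∀ inst : DecidablePred (fun w => w ∉ Set.range f),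
      ∑ w ∈ @Finset.filter V (fun w => w ∉ Set.range f) inst Finset.univ, U' (w, m w) =
      ∑ w ∈ @Finset.filter V (fun w => w ∉ Set.range f) inst Finset.univ, U (w, m w) := by
    intro inst
    apply Finset.sum_congr rfl
    intro w hw
    rw [Finset.mem_filter] at hw
    exact h1 w _ hw.2
  have hG : Gd L f m U' t ↔ Gd L f m U t := by
    unfold Gd
    rw [hsum]
    refine and_congr ?_ Iff.rfl
    refine forall_congr' fun w => forall_congr' fun hw => ?_
    rw [h1 w _ hw]
  have hZ : Zc f τ U' t = Zc f τ U t := by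
    unfold Zc
    congr 1
    ext m
    rw [Finset.mem_filter, Finset.mem_filter, hR m, hS m]
  unfold Fw
  rw [hZ, hR m, hS m, hG]

theorem K2 {V I : Type} [Fintype V] [Fintype I] (L : ℝ) (f : I ↪ V) (τ : I → I)
    (ν : Equiv.Perm I) :
    ∫⁻ U, ∑ m, Fw L f τ m U (fun i => U (f i, f (τ i))) ∂(mu V) =
    ∫⁻ U, ∑ m, Fw L f τ m U (sc f ν U) ∂(mu V) := by
  obtain ⟨σ, hσ1, hσ2⟩ : ∃ σ : V → Equiv.Perm V,
      (∀ i, σ (f i) = Equiv.swap (f (τ i)) (f (ν i))) ∧
      (∀ w, w ∉ Set.range f → σ w = Equiv.refl V) := by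
    refine ⟨fun v => if h : ∃ i, f i = v then
      Equiv.swap (f (τ h.choose)) (f (ν h.choose)) else Equiv.refl V, ?_, ?_⟩
    · intro i
      have h : ∃ j, f j = f i := ⟨i, rfl⟩
      have h2 : h.choose = i := f.injective h.choose_spec
      simp only [dif_pos h]
      rw [h2]
    · intro w hw
      have h : ¬ ∃ j, f j = w := hw
      simp only [dif_neg h]
  obtain ⟨e, he⟩ : ∃ e : V × V ≃ V × V, ∀ a b, e.symm (a, b) = (a, (σ a).symm b) := by
    refine ⟨Equiv.prodShear (Equiv.refl V) σ, ?_⟩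
    intro a b
    rfl
  have hmp := measurePreserving_piCongrLeft (fun _ : V × V => lam) e
  have hU' : ∀ (U : V × V → ℝ) (x : V × V),
      (MeasurableEquiv.piCongrLeft (fun _ : V × V => ℝ) e) U x = U (e.symm x) := by
    intro U x
    obtain ⟨y, rfl⟩ := e.surjective x
    rw [MeasurableEquiv.coe_piCongrLeft, Equiv.piCongrLeft_apply_apply, Equiv.symm_apply_apply]
  have hkey := MeasurePreserving.lintegral_map_equiv
    (fun U : V × V → ℝ => ∑ m, Fw L f τ m U (fun i => U (f i, f (τ i))))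
    (MeasurableEquiv.piCongrLeft (fun _ : V × V => ℝ) e) hmp
  have hmu : mu V = Measure.pi (fun _ : V × V => lam) := rfl
  rw [hmu, hkey]
  apply lintegral_congr
  intro U
  apply Finset.sum_congr rfl
  intro m _
  obtain ⟨U', hUU⟩ : ∃ U' : V × V → ℝ, U' =
      (MeasurableEquiv.piCongrLeft (fun _ : V × V => ℝ) e) U := ⟨_, rfl⟩
  have hUa : ∀ a b, U' (a, b) = U (a, (σ a).symm b) := by
    intro a b
    rw [hUU, hU', he]
  rw [← hUU]
  have h3 : (fun i => U' (f i, f (τ i))) = sc f ν U := by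
    funext i
    rw [hUa, hσ1, Equiv.symm_swap, Equiv.swap_apply_left]
    rfl
  rw [h3]
  apply K2_agree
  · intro w v hw
    rw [hUa, hσ2 w hw]
    rfl
  · intro i w hw
    rw [hUa, hσ1, Equiv.symm_swap, Equiv.swap_apply_of_ne_of_ne]
    · intro h
      exact hw ⟨_, h.symm⟩
    · intro h
      exact hw ⟨_, h.symm⟩

end Pool.Agent.Helper651.SR
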