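import Pool.Agent.Helper651.SR.Defs

set_option autoImplicit false
open MeasureTheory Set Filter Topology Classical
open scoped ENNReal

namespace Pool.Agent.Helper651.SR

theorem kap1_exp {z : ℝ} (h0 : 0 ≤ z) (h1 : z ≤ 1 / 2) : Real.exp (-(z + z ^ 2)) ≤ 1 - z := by
  have hy : 0 ≤ z + z ^ 2 := by positivity
  have hq := Real.quadratic_le_exp_of_nonneg hy
  have hkey : 1 ≤ (1 - z) * Real.exp (z + z ^ 2) := by
    have h2 : 0 ≤ 1 - z := by linarith
    have h3 : (1 - z) * (1 + (z + z ^ 2) + (z + z ^ 2) ^ 2 / 2) ≤ (1 - z) * Real.exp (z + z ^ 2) :=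
      mul_le_mul_of_nonneg_left hq h2
    have h4 : 1 ≤ (1 - z) * (1 + (z + z ^ 2) + (z + z ^ 2) ^ 2 / 2) := by
      have h5 : (1 - z) * (1 + (z + z ^ 2) + (z + z ^ 2) ^ 2 / 2) =
          1 + z ^ 2 * (((1 - z) * (1 + z) ^ 2) / 2 - z) := by ring
      have h6 : 0 ≤ ((1 - z) * (1 + z) ^ 2) / 2 - z := by nlinarith [mul_nonneg h0 h0, mul_nonneg h0 h2]
      rw [h5]
      have : 0 ≤ z ^ 2 * (((1 - z) * (1 + z) ^ 2) / 2 - z) := mul_nonneg (sq_nonneg z) h6
      linarith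
    linarith
  rw [Real.exp_neg, inv_le_iff_one_le_mul₀ (Real.exp_pos _)]
  exact hkey

theorem kap1_int {s δ S : ℝ} (hδ : 0 ≤ δ) (hS : 0 < S) :
    ∫ a in s..(s + δ), Real.exp (-((a - s) * S)) = (1 - Real.exp (-(δ * S))) / S := by
  have hd : ∀ a ∈ uIcc s (s + δ), HasDerivAt (fun a => -(Real.exp (-((a - s) * S))) / S)
      (Real.exp (-((a - s) * S))) a := by
    intro a _
    have h1 : HasDerivAt (fun a : ℝ => -((a - s) * S)) (-(1 * S)) a :=
      (((hasDerivAt_id a).sub_const s).mul_const S).neg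
    have h2 := (h1.exp.neg).div_const S
    have h3 : -(Real.exp (-((a - s) * S)) * -(1 * S)) / S = Real.exp (-((a - s) * S)) := by
      rw [div_eq_iff hS.ne']
      ring
    rw [← h3]
    exact h2
  rw [intervalIntegral.integral_eq_sub_of_hasDerivAt hd]
  · have e1 : s + δ - s = δ := by ring
    rw [e1, sub_self, zero_mul, neg_zero, Real.exp_zero]
    ring
  · apply Continuous.intervalIntegrable
    fun_prop

theorem kap1 {V : Type} (R : Finset V) (x : V → ℝ) (s L N : ℝ) (hL : 1 ≤ L) (h1 : 4 * L + 1 ≤ N)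
    (hx : ∀ w ∈ R, 0 ≤ x w ∧ x w ≤ L / N) (hs : 0 ≤ s ∧ s ≤ L / N)
    (hS : N / 2 ≤ ∑ w ∈ R, x w ∧ ∑ w ∈ R, x w ≤ N + L) :
    ENNReal.ofReal ((1 - Real.exp (-L / 2)) / ((N + L) * (1 + 2 * L / N + 2 * L ^ 2 / N ^ 2))) ≤
      ∫⁻ a, (if s < a ∧ a ≤ s + L / N then 1 else 0) *
        ∏ w ∈ R, ENNReal.ofReal (1 - (a - s) * x w / (1 - s)) ∂lam := by
  have hN : 0 < N := by linarith
  have hL0 : 0 < L := by linarith
  set δ := L / N with hδ
  have hδ0 : 0 < δ := div_pos hL0 hN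
  have hδ1 : δ ≤ 1 / 4 := by
    rw [hδ, div_le_div_iff₀ hN (by norm_num)]
    linarith
  set S' := (N + L) * (1 + 2 * L / N + 2 * L ^ 2 / N ^ 2) with hS'
  have hS'e : S' = (N + L) * (1 + 2 * δ + 2 * δ ^ 2) := by
    rw [hS', hδ]
    ring
  have hS'N : N ≤ S' := by
    rw [hS'e]
    nlinarith [mul_pos hδ0 hN, mul_pos hδ0 hL0, sq_nonneg δ]
  have hS'0 : 0 < S' := by linarith
  have hs1 : (3 : ℝ) / 4 ≤ 1 - s := by linarith [hs.2]
  have hs0 : 0 < 1 - s := by linarith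
  -- pointwise bound
  have hpt : ∀ a, s < a → a ≤ s + δ →
      Real.exp (-((a - s) * S')) ≤ ∏ w ∈ R, (1 - (a - s) * x w / (1 - s)) ∧
      ∀ w ∈ R, 0 ≤ 1 - (a - s) * x w / (1 - s) := by
    intro a ha1 ha2
    have ht0 : 0 < a - s := by linarith
    have ht1 : a - s ≤ δ := by linarith
    set t := a - s with ht
    set u := t / (1 - s) with hu
    have hu0 : 0 ≤ u := div_nonneg ht0.le hs0.le
    have hu1 : u ≤ t * (1 + 2 * s) := by
      rw [hu, div_le_iff₀ hs0]
      have : 1 ≤ (1 + 2 * s) * (1 - s) := by nlinarith [hs.1, hs.2]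
      nlinarith
    have hu2 : u ≤ (4 / 3) * t := by
      rw [hu, div_le_iff₀ hs0]
      nlinarith
    have hze : ∀ w, t * x w / (1 - s) = u * x w := by
      intro w
      rw [hu]
      ring
    have hz : ∀ w ∈ R, 0 ≤ u * x w ∧ u * x w ≤ 1 / 2 := by
      intro w hw
      obtain ⟨hx0, hx1⟩ := hx w hw
      refine ⟨mul_nonneg hu0 hx0, ?_⟩
      have h3 : u ≤ 1 / 3 := by linarith
      calc u * x w ≤ (1 / 3) * (1 / 4) := mul_le_mul h3 (hx1.trans hδ1) hx0 (by norm_num)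
        _ ≤ 1 / 2 := by norm_num
    have hfac : ∀ w ∈ R, Real.exp (-(u * x w + (u * x w) ^ 2)) ≤ 1 - t * x w / (1 - s) := by
      intro w hw
      rw [hze]
      exact kap1_exp (hz w hw).1 (hz w hw).2
    refine ⟨?_, fun w hw => (Real.exp_pos _).le.trans (hfac w hw)⟩
    have hsum : ∑ w ∈ R, (u * x w + (u * x w) ^ 2) ≤ t * S' := by
      have hX0 : 0 ≤ ∑ w ∈ R, x w := by linarith [hS.1]
      have h4 : ∑ w ∈ R, (u * x w + (u * x w) ^ 2) ≤ ∑ w ∈ R, (u + u ^ 2 * δ) * x w := by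
        refine Finset.sum_le_sum fun w hw => ?_
        obtain ⟨hx0, hx1⟩ := hx w hw
        have : x w ^ 2 ≤ δ * x w := by nlinarith
        have := mul_le_mul_of_nonneg_left this (sq_nonneg u)
        nlinarith
      rw [← Finset.mul_sum] at h4
      have h5 : u ^ 2 * δ ≤ t * (2 * δ ^ 2) := by
        have h6 : u ^ 2 ≤ 2 * t * δ := by
          have : u ^ 2 ≤ ((4 / 3) * t) ^ 2 := by
            apply pow_le_pow_left₀ hu0 hu2
          nlinarith
        nlinarith
      have h7 : u + u ^ 2 * δ ≤ t * (1 + 2 * δ + 2 * δ ^ 2) := by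
        have : t * (1 + 2 * s) ≤ t * (1 + 2 * δ) := by
          apply mul_le_mul_of_nonneg_left _ ht0.le
          linarith [hs.2]
        linarith
      calc _ ≤ (u + u ^ 2 * δ) * ∑ w ∈ R, x w := h4
        _ ≤ (t * (1 + 2 * δ + 2 * δ ^ 2)) * (N + L) := mul_le_mul h7 hS.2 hX0 (by positivity)
        _ = t * S' := by rw [hS'e]; ring
    calc Real.exp (-(t * S')) ≤ Real.exp (∑ w ∈ R, -(u * x w + (u * x w) ^ 2)) := by
          apply Real.exp_le_exp.mpr
          rw [Finset.sum_neg_distrib]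
          linarith
      _ = ∏ w ∈ R, Real.exp (-(u * x w + (u * x w) ^ 2)) := Real.exp_sum _ _
      _ ≤ ∏ w ∈ R, (1 - t * x w / (1 - s)) :=
          Finset.prod_le_prod (fun w _ => (Real.exp_pos _).le) hfac
  have hsub : Ioc s (s + δ) ⊆ Icc (0 : ℝ) 1 := by
    intro a ha
    exact ⟨by linarith [ha.1, hs.1], by linarith [ha.2, hs.2]⟩
  have hint : IntegrableOn (fun a => Real.exp (-((a - s) * S'))) (Ioc s (s + δ)) volume := by
    have : Continuous fun a => Real.exp (-((a - s) * S')) := by fun_prop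
    exact (this.integrableOn_Icc).mono_set Ioc_subset_Icc_self
  have hlow : ENNReal.ofReal (∫ a in s..(s + δ), Real.exp (-((a - s) * S'))) ≤
      ∫⁻ a, (if s < a ∧ a ≤ s + δ then 1 else 0) *
        ∏ w ∈ R, ENNReal.ofReal (1 - (a - s) * x w / (1 - s)) ∂lam := by
    rw [intervalIntegral.integral_of_le (by linarith),
      ofReal_integral_eq_lintegral_ofReal hint (Filter.Eventually.of_forall fun a => (Real.exp_pos _).le)]
    refine le_trans (setLIntegral_mono' measurableSet_Ioc fun a ha => ?_) (lintegral_mono_set hsub)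
    obtain ⟨h2, h3⟩ := hpt a ha.1 ha.2
    rw [if_pos (show s < a ∧ a ≤ s + δ from ha), one_mul, ← ENNReal.ofReal_prod_of_nonneg h3]
    exact ENNReal.ofReal_le_ofReal h2
  refine le_trans (ENNReal.ofReal_le_ofReal ?_) hlow
  rw [kap1_int hδ0.le hS'0]
  apply div_le_div_of_nonneg_right _ hS'0.le
  have h8 : L / 2 ≤ δ * S' := by
    have : δ * N ≤ δ * S' := mul_le_mul_of_nonneg_left hS'N hδ0.le
    have h9 : δ * N = L := by rw [hδ]; field_simp
    linarith
  have h10 : Real.exp (-(δ * S')) ≤ Real.exp (-L / 2) := by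
    apply Real.exp_le_exp.mpr
    linarith
  linarith

end Pool.Agent.Helper651.SR
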