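import Pool.Agent.Helper651.SR.Defs

set_option autoImplicit false
open MeasureTheory Set Filter Topology Classical
open scoped ENNReal

namespace Pool.Agent.Helper651.SR

theorem kap2 (L N : ℝ) (o : ℕ) (hL : 1 ≤ L) (h1 : 4 * L + 1 ≤ N) (ho : 8 * L * o ≤ N)
    (hoe : o * Real.exp (-L / 2) ≤ 1 / 2) :
    2 / 7 * (N ^ o)⁻¹ ≤
      ((1 - Real.exp (-L / 2)) / ((N + L) * (1 + 2 * L / N + 2 * L ^ 2 / N ^ 2))) ^ o := by
  have hN : 0 < N := by linarith
  have hL0 : 0 < L := by linarith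
  have he1 : Real.exp (-L / 2) ≤ 1 := Real.exp_le_one_iff.2 (by linarith)
  have he0 : 0 < Real.exp (-L / 2) := Real.exp_pos _
  have hb : (1 : ℝ) / 2 ≤ (1 - Real.exp (-L / 2)) ^ o := by
    have := one_add_mul_le_pow (a := -Real.exp (-L / 2)) (by linarith) o
    have h2 : (1 + -Real.exp (-L / 2)) ^ o = (1 - Real.exp (-L / 2)) ^ o := by ring_nf
    rw [h2] at this
    linarith
  have hexp : Real.exp (7 / 16) ≤ 7 / 4 := by
    apply le_of_lt
    apply lt_of_pow_lt_pow_left₀ 16 (by norm_num)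
    rw [← Real.exp_nat_mul]
    have h3 : ((16 : ℕ) : ℝ) * (7 / 16) = ((7 : ℕ) : ℝ) * 1 := by norm_num
    rw [h3, Real.exp_nat_mul]
    calc Real.exp 1 ^ 7 < 2.7182818286 ^ 7 :=
          pow_lt_pow_left₀ Real.exp_one_lt_d9 (Real.exp_pos 1).le (by norm_num)
      _ < (7 / 4) ^ 16 := by norm_num
  set D : ℝ := (N + L) * (1 + 2 * L / N + 2 * L ^ 2 / N ^ 2) with hD
  have hDpos : 0 < D := by positivity
  set x : ℝ := L / N with hx
  have hx0 : 0 < x := by positivity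
  have hx1 : x ≤ 1 / 4 := by
    rw [hx, div_le_iff₀ hN]; linarith
  have hox : o * x ≤ 1 / 8 := by
    rw [hx, ← mul_div_assoc, div_le_iff₀ hN]; linarith
  have hDx : D = N * ((1 + x) * (1 + (2 * x + 2 * x ^ 2))) := by
    rw [hD, hx]; field_simp; ring
  have hDle : D ≤ N * Real.exp (3 * x + 2 * x ^ 2) := by
    rw [hDx]
    refine mul_le_mul_of_nonneg_left ?_ hN.le
    have h5 : 1 + x ≤ Real.exp x := by linarith [Real.add_one_le_exp x]
    have h6 : 1 + (2 * x + 2 * x ^ 2) ≤ Real.exp (2 * x + 2 * x ^ 2) := by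
      linarith [Real.add_one_le_exp (2 * x + 2 * x ^ 2)]
    calc (1 + x) * (1 + (2 * x + 2 * x ^ 2)) ≤ Real.exp x * Real.exp (2 * x + 2 * x ^ 2) :=
          mul_le_mul h5 h6 (by positivity) (Real.exp_pos _).le
      _ = Real.exp (3 * x + 2 * x ^ 2) := by rw [← Real.exp_add]; congr 1; ring
  have hDo : D ^ o ≤ N ^ o * (7 / 4) := by
    calc D ^ o ≤ (N * Real.exp (3 * x + 2 * x ^ 2)) ^ o := pow_le_pow_left₀ hDpos.le hDle o
      _ = N ^ o * Real.exp (o * (3 * x + 2 * x ^ 2)) := by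
          rw [mul_pow, Real.exp_nat_mul]
      _ ≤ N ^ o * (7 / 4) := by
          refine mul_le_mul_of_nonneg_left ?_ (by positivity)
          refine le_trans (Real.exp_le_exp.2 ?_) hexp
          have h7 : (o : ℝ) * (3 * x + 2 * x ^ 2) = (o * x) * (3 + 2 * x) := by ring
          rw [h7]
          have h8 : 0 ≤ (o : ℝ) * x := by positivity
          nlinarith
  rw [div_pow, le_div_iff₀ (pow_pos hDpos o)]
  calc 2 / 7 * (N ^ o)⁻¹ * D ^ o ≤ 2 / 7 * (N ^ o)⁻¹ * (N ^ o * (7 / 4)) :=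
        mul_le_mul_of_nonneg_left hDo (by positivity)
    _ = 1 / 2 := by field_simp; norm_num
    _ ≤ _ := hb

end Pool.Agent.Helper651.SR
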