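import Pool.Agent.Helper651.SR.Defs

set_option autoImplicit false
open MeasureTheory Set Filter Topology Classical
open scoped ENNReal

namespace Pool.Agent.Helper651.SR

theorem meas_Ev {V I : Type} [Fintype V] [Fintype I] (ν : Equiv.Perm I) (f : I ↪ V) :
    MeasurableSet (Ev ν f) := by
  have hm : ∀ p : V × V, Measurable (fun U : V × V → ℝ => U p) := fun p => measurable_pi_apply p
  have hlt : ∀ p q : V × V, MeasurableSet {U : V × V → ℝ | U p < U q} := fun p q =>
    measurableSet_lt (hm p) (hm q)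
  have hle : ∀ p q : V × V, MeasurableSet {U : V × V → ℝ | U p ≤ U q} := fun p q =>
    measurableSet_le (hm p) (hm q)
  have hSP : ∀ π : Equiv.Perm V, MeasurableSet {U : V × V → ℝ | SP U π} := by
    intro π
    have e : {U : V × V → ℝ | SP U π}
        = {U | ∀ v, π v ≠ v} ∩ ((⋂ v, {U : V × V → ℝ | U (v, π v) ≤ U (v, π⁻¹ v)}) ∩
          (⋂ u, ⋂ w, {U : V × V → ℝ | u ≠ w → ¬ (U (u, w) < U (u, π⁻¹ u) ∧ U (w, u) < U (w, π⁻¹ w))})) := by
      ext U
      simp only [mem_setOf_eq, mem_inter_iff, mem_iInter]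
      exact ⟨fun h => ⟨h.nofix, h.le, h.nb⟩, fun h => ⟨h.1, h.2.1, h.2.2⟩⟩
    rw [e]
    refine (MeasurableSet.const _).inter ((MeasurableSet.iInter fun v => hle _ _).inter ?_)
    refine MeasurableSet.iInter fun u => MeasurableSet.iInter fun w => ?_
    by_cases h : u = w
    · simp [h]
    · have e2 : {U : V × V → ℝ | u ≠ w → ¬ (U (u, w) < U (u, π⁻¹ u) ∧ U (w, u) < U (w, π⁻¹ w))}
          = ({U : V × V → ℝ | U (u, w) < U (u, π⁻¹ u)} ∩ {U | U (w, u) < U (w, π⁻¹ w)})ᶜ := by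
        ext U
        simp [h]
      rw [e2]
      exact ((hlt _ _).inter (hlt _ _)).compl
  have e : Ev ν f = ⋃ π : Equiv.Perm V, ({U | SP U π} ∩
      {U : V × V → ℝ | (∀ i, π (f i) = f (ν i)) ∧ ∀ v, v ∉ Set.range f → π (π v) = v}) := by
    ext U
    simp only [Ev, mem_setOf_eq, mem_iUnion, mem_inter_iff]
  rw [e]
  exact MeasurableSet.iUnion fun π => (hSP π).inter (MeasurableSet.const _)

end Pool.Agent.Helper651.SR
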