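import Pool.Agent.Helper651.SR.Defs

set_option autoImplicit false
open MeasureTheory Set Filter Topology Classical
open scoped ENNReal

namespace Pool.Agent.Helper651.SR

theorem meas_Stab_aux {V : Type} [Fintype V] (m : V → V) :
    MeasurableSet {U : V × V → ℝ | Stab U m} := by
  have h : {U : V × V → ℝ | Stab U m} = ⋂ u : V, ⋂ w : V, ⋂ (_ : u ≠ w),
      ({U : V × V → ℝ | U (u, w) < U (u, m u)} ∩ {U : V × V → ℝ | U (w, u) < U (w, m w)})ᶜ := by
    ext U
    simp only [mem_ofPred_eq, mem_iInter, mem_compl_iff, mem_inter_iff]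
    rfl
  rw [h]
  refine MeasurableSet.iInter fun u => MeasurableSet.iInter fun w => MeasurableSet.iInter fun _ =>
    MeasurableSet.compl (MeasurableSet.inter ?_ ?_)
  · exact measurableSet_lt (measurable_pi_apply _) (measurable_pi_apply _)
  · exact measurableSet_lt (measurable_pi_apply _) (measurable_pi_apply _)

theorem meas_T {V : Type} [Fintype V] (L : ℝ) (m : V → V) :
    MeasurableSet {U : V × V → ℝ | Stab U m} ∧ MeasurableSet {U : V × V → ℝ | Good L U m} ∧
    Measurable (fun U : V × V → ℝ => ((T U : ℕ) : ℝ≥0∞)) := by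
  refine ⟨meas_Stab_aux m, ?_, ?_⟩
  · have h : {U : V × V → ℝ | Good L U m}
        = (⋂ v : V, {U : V × V → ℝ | U (v, m v) ≤ L / √(Fintype.card V)}) ∩
          {U : V × V → ℝ | |∑ v, U (v, m v) - √(Fintype.card V)| ≤ L} := by
      ext U
      simp only [mem_ofPred_eq, mem_iInter, mem_inter_iff]
      rfl
    rw [h]
    refine MeasurableSet.inter (MeasurableSet.iInter fun v => ?_) ?_
    · exact measurableSet_le (measurable_pi_apply _) measurable_const
    · refine measurableSet_le ?_ measurable_const
      have h2 : Measurable (fun U : V × V → ℝ => ∑ v, U (v, m v)) :=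
        Finset.measurable_sum _ (fun v _ => measurable_pi_apply (v, m v))
      exact continuous_abs.measurable.comp (h2.sub_const _)
  · have h : (fun U : V × V → ℝ => ((T U : ℕ) : ℝ≥0∞)) = fun U : V × V → ℝ =>
        ∑ m : V → V, if IsM m ∧ Stab U m then (1 : ℝ≥0∞) else 0 := by
      funext U
      unfold T
      rw [Finset.card_filter, Nat.cast_sum]
      apply Finset.sum_congr rfl
      intro m _
      split_ifs <;> simp
    rw [h]
    refine Finset.measurable_sum _ (fun m _ => ?_)
    refine Measurable.ite ?_ measurable_const measurable_const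
    exact (MeasurableSet.const (IsM m)).inter (meas_Stab_aux m)

end Pool.Agent.Helper651.SR
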