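import Pool.Agent.Helper651.SR.Defs

set_option autoImplicit false
open MeasureTheory Set Filter Topology Classical
open scoped ENNReal

namespace Pool.Agent.Helper651.SR

theorem uniq_pinv1 {V : Type} (π : Equiv.Perm V) (w : V) : π (π⁻¹ w) = w := π.apply_symm_apply w

theorem uniq_pinv2 {V : Type} (π : Equiv.Perm V) (w : V) : π⁻¹ (π w) = w := π.symm_apply_apply w

theorem uniq_F1 {V : Type} {U : V × V → ℝ} {π π' : Equiv.Perm V} (h : SP U π)
    (h' : SP U π') (v : V) :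
    U (v, π'⁻¹ v) ≤ U (v, π v) ∨ U (π v, π'⁻¹ (π v)) ≤ U (π v, π⁻¹ (π v)) := by
  have h1 := h'.nb v (π v) (h.nofix v).symm
  rw [uniq_pinv2]
  by_contra hcon
  push Not at hcon
  exact h1 ⟨hcon.1, hcon.2⟩

theorem uniq_C1 {V : Type} {U : V × V → ℝ}
    (hinj : ∀ v, Function.Injective (fun w => U (v, w))) {π π' : Equiv.Perm V} (h : SP U π)
    (h' : SP U π') {v : V} (hE : U (v, π⁻¹ v) = U (v, π'⁻¹ v))
    (hA : U (π v, π⁻¹ (π v)) < U (π v, π'⁻¹ (π v))) : π v = π⁻¹ v ∧ π' (π v) = v := by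
  have hs : U (v, π v) = U (v, π⁻¹ v) := by
    rcases uniq_F1 h h' v with h1 | h1
    · exact le_antisymm (h.le v) (by rw [hE]; exact h1)
    · exact absurd hA (not_lt.mpr h1)
  have h1 : π v = π⁻¹ v := hinj v hs
  have h2 : π⁻¹ v = π'⁻¹ v := hinj v hE
  refine ⟨h1, ?_⟩
  rw [h1, h2, uniq_pinv1]

theorem uniq_mapf {V : Type} {U : V × V → ℝ}
    (hinj : ∀ v, Function.Injective (fun w => U (v, w))) {π π' : Equiv.Perm V} (h : SP U π)
    (h' : SP U π') {w : V} (hA : U (w, π⁻¹ w) < U (w, π'⁻¹ w))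
    (hA2 : U (π' w, π⁻¹ (π' w)) ≠ U (π' w, π'⁻¹ (π' w))) :
    U (π⁻¹ w, π'⁻¹ (π⁻¹ w)) < U (π⁻¹ w, π⁻¹ (π⁻¹ w)) ∧
      U (π (π⁻¹ w), π⁻¹ (π (π⁻¹ w))) ≠ U (π (π⁻¹ w), π'⁻¹ (π (π⁻¹ w))) := by
  have hw : π (π⁻¹ w) = w := uniq_pinv1 π w
  have hF := uniq_F1 h h' (π⁻¹ w)
  rw [hw] at hF ⊢
  have hle : U (π⁻¹ w, π'⁻¹ (π⁻¹ w)) ≤ U (π⁻¹ w, π⁻¹ (π⁻¹ w)) := by
    rcases hF with h1 | h1
    · have h2 := h.le (π⁻¹ w)
      rw [hw] at h2
      exact h1.trans h2
    · exact absurd hA (not_lt.mpr h1)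
  refine ⟨lt_of_le_of_ne hle ?_, hA.ne⟩
  intro heq
  have hC := uniq_C1 hinj h h' (v := π⁻¹ w) heq.symm (by rw [hw]; exact hA)
  rw [hw] at hC
  apply hA2
  rw [hC.2]
  exact heq.symm

/-- the bijection: `v ∈ B \ B2` implies `π v ∈ A \ A2` -/
theorem uniq_bij {V : Type} [Fintype V] {U : V × V → ℝ}
    (hinj : ∀ v, Function.Injective (fun w => U (v, w))) {π π' : Equiv.Perm V} (h : SP U π)
    (h' : SP U π') {v : V} (hB : U (v, π'⁻¹ v) < U (v, π⁻¹ v))
    (hB2 : U (π v, π⁻¹ (π v)) ≠ U (π v, π'⁻¹ (π v))) :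
    U (π v, π⁻¹ (π v)) < U (π v, π'⁻¹ (π v)) ∧
      U (π' (π v), π⁻¹ (π' (π v))) ≠ U (π' (π v), π'⁻¹ (π' (π v))) := by
  set A : Finset V := Finset.univ.filter (fun z => U (z, π⁻¹ z) < U (z, π'⁻¹ z) ∧
    U (π' z, π⁻¹ (π' z)) ≠ U (π' z, π'⁻¹ (π' z))) with hAdef
  set B : Finset V := Finset.univ.filter (fun z => U (z, π'⁻¹ z) < U (z, π⁻¹ z) ∧
    U (π z, π⁻¹ (π z)) ≠ U (π z, π'⁻¹ (π z))) with hBdef
  have hf : A.image (fun w => π⁻¹ w) ⊆ B := by
    intro x hx
    obtain ⟨w, hw, rfl⟩ := Finset.mem_image.mp hx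
    have hw' := (Finset.mem_filter.mp hw).2
    exact Finset.mem_filter.mpr ⟨Finset.mem_univ _, uniq_mapf hinj h h' hw'.1 hw'.2⟩
  have hg : B.image (fun w => π'⁻¹ w) ⊆ A := by
    intro x hx
    obtain ⟨w, hw, rfl⟩ := Finset.mem_image.mp hx
    have hw' := (Finset.mem_filter.mp hw).2
    have := uniq_mapf hinj h' h hw'.1 hw'.2.symm
    exact Finset.mem_filter.mpr ⟨Finset.mem_univ _, this.1, this.2.symm⟩
  have hcf : (A.image (fun w => π⁻¹ w)).card = A.card :=
    Finset.card_image_of_injective _ (π⁻¹).injective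
  have hcg : (B.image (fun w => π'⁻¹ w)).card = B.card :=
    Finset.card_image_of_injective _ (π'⁻¹).injective
  have hle : B.card ≤ (A.image (fun w => π⁻¹ w)).card := by
    rw [hcf, ← hcg]
    exact Finset.card_le_card hg
  have heq : A.image (fun w => π⁻¹ w) = B := Finset.eq_of_subset_of_card_le hf hle
  have hv : v ∈ B := Finset.mem_filter.mpr ⟨Finset.mem_univ _, hB, hB2⟩
  rw [← heq] at hv
  obtain ⟨w, hw, hwv⟩ := Finset.mem_image.mp hv
  have hw' := (Finset.mem_filter.mp hw).2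
  have hwv' : w = π v := by
    have : π⁻¹ w = v := hwv
    rw [← this, uniq_pinv1]
  rw [← hwv']
  exact hw'

theorem uniq_c3 {V : Type} [Fintype V] {U : V × V → ℝ}
    (hinj : ∀ v, Function.Injective (fun w => U (v, w))) {π π' : Equiv.Perm V} (h : SP U π)
    (h' : SP U π') {z : V} (hA : U (z, π⁻¹ z) < U (z, π'⁻¹ z))
    (hA2 : U (π' z, π⁻¹ (π' z)) = U (π' z, π'⁻¹ (π' z))) : π z = π⁻¹ z := by
  have hw : π (π⁻¹ z) = z := uniq_pinv1 π z
  have hF := uniq_F1 h h' (π⁻¹ z)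
  rw [hw] at hF
  have hle : U (π⁻¹ z, π'⁻¹ (π⁻¹ z)) ≤ U (π⁻¹ z, π⁻¹ (π⁻¹ z)) := by
    rcases hF with h1 | h1
    · have h2 := h.le (π⁻¹ z)
      rw [hw] at h2
      exact h1.trans h2
    · exact absurd hA (not_lt.mpr h1)
  rcases hle.lt_or_eq with hlt | heq
  · have := uniq_bij hinj h h' (v := π⁻¹ z) hlt (by rw [hw]; exact hA.ne)
    rw [hw] at this
    exact absurd hA2 this.2
  · have hC := uniq_C1 hinj h h' (v := π⁻¹ z) heq.symm (by rw [hw]; exact hA)
    rw [hw] at hC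
    -- z = π⁻¹ (π⁻¹ z)
    have h3 : z = π⁻¹ (π⁻¹ z) := hC.1
    conv_lhs => rw [h3]
    exact uniq_pinv1 π _

theorem uniq {V : Type} [Fintype V] {U : V × V → ℝ}
    (hinj : ∀ v, Function.Injective (fun w => U (v, w))) {π π' : Equiv.Perm V} (h : SP U π)
    (h' : SP U π') (v : V) (hodd : Odd (Function.minimalPeriod π v)) : π'⁻¹ v = π⁻¹ v := by
  set N := Function.minimalPeriod π v with hN
  -- period of the iterates
  have hper : Function.IsPeriodicPt π N v := Function.isPeriodicPt_minimalPeriod π v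
  -- no point of the cycle is in a 2-cycle
  have hno2 : ∀ k : ℕ, π (π ((π^[k]) v)) ≠ (π^[k]) v := by
    intro k hk
    have h1 : Function.IsPeriodicPt π 2 ((π^[k]) v) := hk
    have h2 : Function.IsPeriodicPt π 2 v := by
      have h3 : (π^[k]) ((π^[2]) v) = (π^[k]) v := by
        rw [← Function.iterate_add_apply, Nat.add_comm, Function.iterate_add_apply]
        exact h1
      exact (π.injective.iterate k) h3
    have h4 : N ∣ 2 := h2.minimalPeriod_dvd
    have h5 : N = 1 := by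
      have h6 : N ≤ 2 := Nat.le_of_dvd (by norm_num) h4
      obtain ⟨j, hj⟩ := hodd
      omega
    have h7 : π v = v := by
      have := hper
      rw [h5] at this
      exact this
    exact h.nofix v h7
  set P : V → ℝ := fun z => U (z, π⁻¹ z) with hP
  set P' : V → ℝ := fun z => U (z, π'⁻¹ z) with hP'
  have hsuc : ∀ k : ℕ, (π^[k + 1]) v = π ((π^[k]) v) := fun k => Function.iterate_succ_apply' _ _ _
  -- statement about the iterates
  have T1 : ∀ k, P ((π^[k]) v) < P' ((π^[k]) v) → P' ((π^[k+1]) v) < P ((π^[k+1]) v) := by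
    intro k hA
    set u := (π^[k]) v with hu
    rw [hsuc k, ← hu]
    have hnA2 : U (π' u, π⁻¹ (π' u)) ≠ U (π' u, π'⁻¹ (π' u)) := by
      intro hA2
      have h1 := uniq_c3 hinj h h' hA hA2
      apply hno2 k
      rw [← hu, h1, uniq_pinv1]
    by_contra hcon
    push Not at hcon
    rcases hcon.lt_or_eq with hlt | heq
    · rcases uniq_F1 h h' u with h1 | h1
      · have h2 := h.le u
        have h3 : U (u, π⁻¹ u) < U (u, π'⁻¹ u) := hA
        linarith
      · exact absurd hlt (not_lt.mpr h1)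
    · have h1 : π⁻¹ (π u) = π'⁻¹ (π u) := hinj _ heq
      rw [uniq_pinv2] at h1
      have h2 : π' u = π u := by
        conv_lhs => rw [h1]
        exact uniq_pinv1 π' _
      -- c2
      have h3 := uniq_bij hinj h' h (v := u) hA hnA2.symm
      rcases uniq_F1 h' h u with h4 | h4
      · -- U (u, π⁻¹ u) ≤ U (u, π' u) = U (u, π u) ≤ ..
        rw [h2] at h4
        have h5 : U (u, π u) = U (u, π⁻¹ u) := le_antisymm (h.le u) h4
        have h6 : π u = π⁻¹ u := hinj u h5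
        apply hno2 k
        rw [← hu, h6, uniq_pinv1]
      · exact absurd h3.1 (not_lt.mpr h4)
  have T2 : ∀ k, P' ((π^[k]) v) < P ((π^[k]) v) → ¬ P' ((π^[k+1]) v) < P ((π^[k+1]) v) := by
    intro k hB hB'
    set u := (π^[k]) v with hu
    rw [hsuc k, ← hu] at hB'
    have h1 := uniq_bij hinj h h' (v := u) hB hB'.ne'
    exact absurd h1.1 (not_lt.mpr hB'.le)
  have T3 : ∀ k, P ((π^[k]) v) = P' ((π^[k]) v) → ¬ P ((π^[k+1]) v) < P' ((π^[k+1]) v) := by
    intro k hE hA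
    set u := (π^[k]) v with hu
    rw [hsuc k, ← hu] at hA
    have h1 := uniq_C1 hinj h h' (v := u) hE hA
    apply hno2 k
    rw [← hu, h1.1, uniq_pinv1]
  have T4 : ∀ k, P' ((π^[k]) v) < P ((π^[k]) v) → P ((π^[k+1]) v) = P' ((π^[k+1]) v) →
      P ((π^[k+2]) v) ≠ P' ((π^[k+2]) v) := by
    intro k hB hE hE2
    set u := (π^[k]) v with hu
    rw [hsuc k, ← hu] at hE
    rw [hsuc (k+1), hsuc k, ← hu] at hE2
    have h1 : π⁻¹ (π u) = π'⁻¹ (π u) := hinj _ hE
    rw [uniq_pinv2] at h1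
    have h2 : π' u = π u := by
      conv_lhs => rw [h1]
      exact uniq_pinv1 π' _
    have h3 : π' u = π'⁻¹ u := uniq_c3 hinj h' h (z := u) hB hE.symm
    have h4 : π⁻¹ (π (π u)) = π'⁻¹ (π (π u)) := hinj _ hE2
    rw [uniq_pinv2] at h4
    have h5 : π' (π u) = π (π u) := by
      conv_lhs => rw [h4]
      exact uniq_pinv1 π' _
    apply hno2 k
    rw [← hu, ← h5, ← h2, h3, uniq_pinv1]
  have T5 : ∀ k, P ((π^[k+1]) v) = P' ((π^[k+1]) v) → P ((π^[k+2]) v) = P' ((π^[k+2]) v) →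
      P ((π^[k]) v) = P' ((π^[k]) v) := by
    intro k h1 h2
    rcases lt_trichotomy (P ((π^[k]) v)) (P' ((π^[k]) v)) with h3 | h3 | h3
    · exact absurd h1 (T1 k h3).ne'
    · exact h3
    · exact absurd h2 (T4 k h3 h1)
  have hdown : ∀ j k, P ((π^[k+j]) v) = P' ((π^[k+j]) v) → P ((π^[k+j+1]) v) = P' ((π^[k+j+1]) v) →
      P ((π^[k]) v) = P' ((π^[k]) v) ∧ P ((π^[k+1]) v) = P' ((π^[k+1]) v) := by
    intro j
    induction j with
    | zero => intro k h1 h2; exact ⟨h1, h2⟩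
    | succ j ih =>
      intro k h1 h2
      have h3 := ih (k+1) (by rw [show k + 1 + j = k + (j + 1) by omega]; exact h1)
        (by rw [show k + 1 + j + 1 = k + (j + 1) + 1 by omega]; exact h2)
      exact ⟨T5 k h3.1 h3.2, h3.1⟩
  have hgoal : P v = P' v → π'⁻¹ v = π⁻¹ v := fun hv => (hinj v hv).symm
  by_cases hex : ∃ k, P ((π^[k]) v) = P' ((π^[k]) v) ∧ P ((π^[k+1]) v) = P' ((π^[k+1]) v)
  · obtain ⟨k, hk1, hk2⟩ := hex
    have := hdown k 0 (by simpa using hk1) (by simpa using hk2)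
    exact hgoal this.1
  · push Not at hex
    exfalso
    have halt : ∀ k, (P' ((π^[k]) v) < P ((π^[k]) v) ↔ ¬ P' ((π^[k+1]) v) < P ((π^[k+1]) v)) := by
      intro k
      constructor
      · exact T2 k
      · intro h1
        by_contra h2
        apply h1
        rcases lt_trichotomy (P ((π^[k]) v)) (P' ((π^[k]) v)) with h3 | h3 | h3
        · exact T1 k h3
        · rcases lt_trichotomy (P ((π^[k+1]) v)) (P' ((π^[k+1]) v)) with h4 | h4 | h4
          · exact absurd h4 (T3 k h3)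
          · exact absurd h4 (hex k h3)
          · exact h4
        · exact absurd h3 h2
    have hpar : ∀ k, (Even k → (P' v < P v ↔ P' ((π^[k]) v) < P ((π^[k]) v))) ∧
        (Odd k → (P' v < P v ↔ ¬ P' ((π^[k]) v) < P ((π^[k]) v))) := by
      intro k
      induction k with
      | zero => simp
      | succ k ih =>
        constructor
        · intro he
          have ho : Odd k := by
            rcases Nat.even_or_odd k with h1 | h1
            · exact absurd he (by rw [Nat.not_even_iff_odd]; exact h1.add_one)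
            · exact h1
          rw [ih.2 ho, halt k, not_not]
        · intro ho
          have he : Even k := by
            rcases Nat.even_or_odd k with h1 | h1
            · exact h1
            · exact absurd ho (by rw [Nat.not_odd_iff_even]; exact h1.add_one)
          rw [ih.1 he, halt k]
    have hlast := (hpar N).2 hodd
    have hvN : (π^[N]) v = v := hper
    rw [hvN] at hlast
    by_cases hb : P' v < P v
    · exact (hlast.mp hb) hb
    · exact hb (hlast.mpr hb)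

end Pool.Agent.Helper651.SR
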