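import Pool.Agent.Helper651.SR.Defs
import Pool.Agent.Helper651.SR.Uniq

set_option autoImplicit false
open MeasureTheory Set Filter Topology Classical
open scoped ENNReal

namespace Pool.Agent.Helper651.SR

theorem mult_rot (k : ℕ) (a : Fin k) (n : ℕ) : (((finRotate k)^[n] a : Fin k) : ℕ) = (a + n) % k := by
  cases k with
  | zero => exact a.elim0
  | succ m =>
    induction n with
    | zero =>
      simp [Nat.mod_eq_of_lt a.2]
    | succ n ih =>
      rw [Function.iterate_succ_apply', finRotate_succ_apply, Fin.val_add, ih]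
      simp only [Fin.val_one', Nat.add_mod_mod, Nat.mod_add_mod]
      rw [Nat.add_assoc]

theorem mult_nxt (K : Finset ℕ) (i : Ix K) (n : ℕ) :
    (nxt K)^[n] i = ⟨i.1, (finRotate (i.1 : ℕ))^[n] i.2⟩ := by
  induction n with
  | zero => rfl
  | succ n ih =>
    rw [Function.iterate_succ_apply', Function.iterate_succ_apply', ih]
    rfl

theorem mult_per0 (K : Finset ℕ) (i : Ix K) (n : ℕ) :
    (nxt K)^[n] i = i ↔ (i.1 : ℕ) ∣ n := by
  rw [mult_nxt]
  obtain ⟨k, a⟩ := i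
  simp only [Sigma.mk.injEq, heq_eq_eq, true_and]
  rw [Fin.ext_iff, mult_rot]
  have ha : (a : ℕ) % (k : ℕ) = a := Nat.mod_eq_of_lt a.2
  constructor
  · intro h
    have h1 : ((a : ℕ) + n) ≡ (a : ℕ) + 0 [MOD (k : ℕ)] := by
      show ((a : ℕ) + n) % (k : ℕ) = ((a : ℕ) + 0) % (k : ℕ)
      rw [h, Nat.add_zero, ha]
    exact (Nat.modEq_zero_iff_dvd).mp (Nat.ModEq.add_left_cancel' _ h1)
  · intro h
    obtain ⟨c, rfl⟩ := h
    rw [Nat.add_mul_mod_self_left, ha]

theorem mult_conj {V : Type} {K : Finset ℕ} {f : Ix K ↪ V} {π : Equiv.Perm V}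
    (h : ∀ i, π (f i) = f (nxt K i)) (n : ℕ) (i : Ix K) : π^[n] (f i) = f ((nxt K)^[n] i) := by
  induction n with
  | zero => rfl
  | succ n ih => rw [Function.iterate_succ_apply', Function.iterate_succ_apply', ih, h]

theorem mult_per {V : Type} {K : Finset ℕ} {f : Ix K ↪ V} {π : Equiv.Perm V}
    (h : ∀ i, π (f i) = f (nxt K i)) (i : Ix K) : Function.minimalPeriod π (f i) = i.1 := by
  have key : ∀ n, Function.minimalPeriod π (f i) ∣ n ↔ (i.1 : ℕ) ∣ n := by
    intro n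
    rw [← Function.isPeriodicPt_iff_minimalPeriod_dvd]
    rw [← mult_per0 K i n]
    constructor
    · intro hp
      have hp' : π^[n] (f i) = f i := hp
      rw [mult_conj h] at hp'
      exact f.injective hp'
    · intro hp
      show π^[n] (f i) = f i
      rw [mult_conj h, hp]
  exact Nat.dvd_antisymm ((key _).mpr dvd_rfl) ((key _).mp dvd_rfl)

/-- what we use of a witness -/
structure multW {V : Type} (U : V × V → ℝ) (K : Finset ℕ) (f : Ix K ↪ V) (π : Equiv.Perm V) :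
    Prop where
  sp : SP U π
  st : ∀ i, π (f i) = f (nxt K i)
  two : ∀ v, v ∉ Set.range f → π (π v) = v

theorem multW.mem {V : Type} {U : V × V → ℝ} {K : Finset ℕ} {f : Ix K ↪ V} {π : Equiv.Perm V}
    (W : multW U K f π) (v : V) (hodd : Odd (Function.minimalPeriod π v)) : v ∈ Set.range f := by
  by_contra hv
  have h2 := W.two v hv
  have hp : Function.IsPeriodicPt π 2 v := h2
  have hd := hp.minimalPeriod_dvd
  have h3 : Function.minimalPeriod π v = 1 := by
    rcases (Nat.dvd_prime Nat.prime_two).mp hd with h | h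
    · exact h
    · rw [h] at hodd
      exact absurd hodd (by decide)
  have h4 : Function.IsFixedPt π v := Function.minimalPeriod_eq_one_iff_isFixedPt.mp h3
  exact W.sp.nofix v h4

theorem multW.agree {V : Type} [Fintype V] {U : V × V → ℝ}
    (hinj : ∀ v, Function.Injective (fun w => U (v, w))) {K K' : Finset ℕ} {f : Ix K ↪ V}
    {f' : Ix K' ↪ V} {π π' : Equiv.Perm V} (hK : ∀ k ∈ K, Odd k) (W : multW U K f π)
    (W' : multW U K' f' π') (i : Ix K) : π' (f i) = π (f i) := by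
  have h1 : Odd (Function.minimalPeriod π (f (nxt K i))) := by
    rw [mult_per W.st]
    exact hK _ (nxt K i).1.2
  have h2 := uniq hinj W.sp W'.sp (f (nxt K i)) h1
  rw [← W.st i] at h2
  have e1 : π⁻¹ (π (f i)) = f i := π.symm_apply_apply _
  have e2 : π' (π'⁻¹ (π (f i))) = π (f i) := π'.apply_symm_apply _
  rw [e1] at h2
  rw [h2] at e2
  exact e2

theorem multW.agree_iter {V : Type} [Fintype V] {U : V × V → ℝ}
    (hinj : ∀ v, Function.Injective (fun w => U (v, w))) {K K' : Finset ℕ} {f : Ix K ↪ V}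
    {f' : Ix K' ↪ V} {π π' : Equiv.Perm V} (hK : ∀ k ∈ K, Odd k) (W : multW U K f π)
    (W' : multW U K' f' π') (n : ℕ) (i : Ix K) : π'^[n] (f i) = π^[n] (f i) := by
  induction n with
  | zero => rfl
  | succ n ih =>
    rw [Function.iterate_succ_apply', Function.iterate_succ_apply', ih, mult_conj W.st,
      W.agree hinj hK W']

theorem multW.period {V : Type} [Fintype V] {U : V × V → ℝ}
    (hinj : ∀ v, Function.Injective (fun w => U (v, w))) {K K' : Finset ℕ} {f : Ix K ↪ V}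
    {f' : Ix K' ↪ V} {π π' : Equiv.Perm V} (hK : ∀ k ∈ K, Odd k) (W : multW U K f π)
    (W' : multW U K' f' π') (i : Ix K) : Function.minimalPeriod π' (f i) = i.1 := by
  rw [← mult_per W.st i]
  have key : ∀ n, Function.minimalPeriod π' (f i) ∣ n ↔ Function.minimalPeriod π (f i) ∣ n := by
    intro n
    rw [← Function.isPeriodicPt_iff_minimalPeriod_dvd, ← Function.isPeriodicPt_iff_minimalPeriod_dvd]
    show π'^[n] (f i) = f i ↔ π^[n] (f i) = f i
    rw [W.agree_iter hinj hK W']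
  exact Nat.dvd_antisymm ((key _).mpr dvd_rfl) ((key _).mp dvd_rfl)

theorem multW.img {V : Type} [Fintype V] {U : V × V → ℝ}
    (hinj : ∀ v, Function.Injective (fun w => U (v, w))) {K K' : Finset ℕ} {f : Ix K ↪ V}
    {f' : Ix K' ↪ V} {π π' : Equiv.Perm V} (hK : ∀ k ∈ K, Odd k) (W : multW U K f π)
    (W' : multW U K' f' π') (i : Ix K) : ∃ j : Ix K', f' j = f i ∧ (j.1 : ℕ) = i.1 := by
  have h1 := W.period hinj hK W' i
  have h2 : Odd (Function.minimalPeriod π' (f i)) := by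
    rw [h1]; exact hK _ i.1.2
  obtain ⟨j, hj⟩ := W'.mem (f i) h2
  refine ⟨j, hj, ?_⟩
  rw [← h1, ← hj, mult_per W'.st j]

theorem multW.subset {V : Type} [Fintype V] {U : V × V → ℝ}
    (hinj : ∀ v, Function.Injective (fun w => U (v, w))) {K K' : Finset ℕ} {f : Ix K ↪ V}
    {f' : Ix K' ↪ V} {π π' : Equiv.Perm V} (hK : ∀ k ∈ K, Odd k) (hK3 : ∀ k ∈ K, 3 ≤ k)
    (W : multW U K f π) (W' : multW U K' f' π') : K ⊆ K' := by
  intro k hk
  obtain ⟨j, _, hj⟩ := W.img hinj hK W' ⟨⟨k, hk⟩, ⟨0, by have := hK3 k hk; show 0 < k; omega⟩⟩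
  have : (j.1 : ℕ) = k := hj
  rw [← this]
  exact j.1.2

theorem mult_card {V : Type} [Fintype V] (U : V × V → ℝ)
    (hinj : ∀ v, Function.Injective (fun w => U (v, w))) (K : Finset ℕ)
    (hK : ∀ k ∈ K, Odd k ∧ 3 ≤ k) (f0 : Ix K ↪ V) (h0 : U ∈ Ev (nxt K) f0) :
    (Finset.univ.filter (fun f : Ix K ↪ V => U ∈ Ev (nxt K) f)).card ≤ ∏ k ∈ K, k := by
  have hodd : ∀ k ∈ K, Odd k := fun k hk => (hK k hk).1
  have hpos : ∀ k : K, 0 < (k : ℕ) := fun k => by have := (hK k.1 k.2).2; omega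
  obtain ⟨π0, a1, a2, a3⟩ := h0
  have W0 : multW U K f0 π0 := ⟨a1, a2, a3⟩
  have hex : ∀ f : {f : Ix K ↪ V // U ∈ Ev (nxt K) f}, ∀ k : K, ∃ a : Fin (k : ℕ),
      f0 ⟨k, a⟩ = f.1 ⟨k, ⟨0, hpos k⟩⟩ := by
    rintro ⟨f, π, b1, b2, b3⟩ k
    have W : multW U K f π := ⟨b1, b2, b3⟩
    obtain ⟨⟨k', a⟩, hj1, hj2⟩ := W.img hinj hodd W0 ⟨k, ⟨0, hpos k⟩⟩
    have hk : k' = k := Subtype.ext hj2
    subst hk
    exact ⟨a, hj1⟩
  choose Φ hΦ using hex
  have hΦinj : Function.Injective Φ := by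
    intro f g hfg
    obtain ⟨f, π, b1, b2, b3⟩ := f
    obtain ⟨g, ρ, c1, c2, c3⟩ := g
    have W : multW U K f π := ⟨b1, b2, b3⟩
    have W' : multW U K g ρ := ⟨c1, c2, c3⟩
    apply Subtype.ext
    apply DFunLike.ext
    intro i
    have hb : ∀ k : K, f ⟨k, ⟨0, hpos k⟩⟩ = g ⟨k, ⟨0, hpos k⟩⟩ := by
      intro k
      have e1 := hΦ ⟨f, π, b1, b2, b3⟩ k
      have e2 := hΦ ⟨g, ρ, c1, c2, c3⟩ k
      rw [hfg] at e1
      exact e1.symm.trans e2
    obtain ⟨k, b⟩ := i
    have hit : (nxt K)^[(b : ℕ)] ⟨k, ⟨0, hpos k⟩⟩ = (⟨k, b⟩ : Ix K) := by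
      rw [mult_nxt]
      simp only [Sigma.mk.injEq, heq_eq_eq, true_and]
      apply Fin.ext
      rw [mult_rot]
      simp [Nat.mod_eq_of_lt b.2]
    show f ⟨k, b⟩ = g ⟨k, b⟩
    rw [← hit, ← mult_conj W.st, ← mult_conj W'.st, ← hb k]
    exact (W.agree_iter hinj hodd W' _ _).symm
  have hcard := Fintype.card_le_of_injective Φ hΦinj
  rw [Fintype.card_pi] at hcard
  simp only [Fintype.card_fin] at hcard
  rw [Fintype.card_subtype] at hcard
  have hprod : ∏ k : K, (k : ℕ) = ∏ k ∈ K, k := Finset.prod_coe_sort K (fun k => k)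
  rw [hprod] at hcard
  exact hcard

theorem mult (KK : Finset (Finset ℕ)) (hKK : ∀ K ∈ KK, ∀ k ∈ K, Odd k ∧ 3 ≤ k) {V : Type}
    [Fintype V] (U : V × V → ℝ) (hinj : ∀ v, Function.Injective (fun w => U (v, w))) :
    ∑ K ∈ KK, (∏ k ∈ K, ((k : ℝ≥0∞))⁻¹) *
      ((Finset.univ.filter (fun f : Ix K ↪ V => U ∈ Ev (nxt K) f)).card : ℝ≥0∞) ≤ 1 := by
  by_cases hall : ∀ K ∈ KK, (Finset.univ.filter (fun f : Ix K ↪ V => U ∈ Ev (nxt K) f)).card = 0
  · rw [Finset.sum_eq_zero]
    · exact zero_le_one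
    · intro K hK
      rw [hall K hK]
      simp
  · push Not at hall
    obtain ⟨K0, hK0, hne⟩ := hall
    obtain ⟨f0, hf0⟩ := Finset.card_pos.mp (Nat.pos_of_ne_zero hne)
    have hf0' : U ∈ Ev (nxt K0) f0 := (Finset.mem_filter.mp hf0).2
    rw [Finset.sum_eq_single_of_mem K0 hK0]
    · have hc := mult_card U hinj K0 (hKK K0 hK0) f0 hf0'
      calc (∏ k ∈ K0, ((k : ℝ≥0∞))⁻¹) *
          ((Finset.univ.filter (fun f : Ix K0 ↪ V => U ∈ Ev (nxt K0) f)).card : ℝ≥0∞)
          ≤ (∏ k ∈ K0, ((k : ℝ≥0∞))⁻¹) * ∏ k ∈ K0, (k : ℝ≥0∞) := by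
            gcongr
            rw [← Nat.cast_prod]
            exact_mod_cast hc
        _ = ∏ k ∈ K0, (((k : ℝ≥0∞))⁻¹ * (k : ℝ≥0∞)) := by rw [Finset.prod_mul_distrib]
        _ = 1 := by
            apply Finset.prod_eq_one
            intro k hk
            have h3 := (hKK K0 hK0 k hk).2
            apply ENNReal.inv_mul_cancel
            · exact_mod_cast (show k ≠ 0 by omega)
            · exact ENNReal.natCast_ne_top k
    · intro K hK hne'
      have hz : (Finset.univ.filter (fun f : Ix K ↪ V => U ∈ Ev (nxt K) f)).card = 0 := by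
        rw [Finset.card_eq_zero, Finset.filter_eq_empty_iff]
        intro f _ hf
        apply hne'
        obtain ⟨π0, a1, a2, a3⟩ := hf0'
        have W0 : multW U K0 f0 π0 := ⟨a1, a2, a3⟩
        obtain ⟨π, b1, b2, b3⟩ := hf
        have W : multW U K f π := ⟨b1, b2, b3⟩
        apply Finset.Subset.antisymm
        · exact W.subset hinj (fun k hk => (hKK K hK k hk).1) (fun k hk => (hKK K hK k hk).2) W0
        · exact W0.subset hinj (fun k hk => (hKK K0 hK0 k hk).1)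
            (fun k hk => (hKK K0 hK0 k hk).2) W
      rw [hz]
      simp

end Pool.Agent.Helper651.SR
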