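import Pool.Agent.Helper651.SR.Defs

set_option autoImplicit false
open MeasureTheory Set Filter Topology Classical
open scoped ENNReal

namespace Pool.Agent.Helper651.SR

/-- the families of cycle lengths -/
noncomputable def KK (N : ℕ) (B : ℝ) : Finset (Finset ℕ) :=
  (((Finset.Icc 3 (2 * N + 1)).filter (fun k => Odd k)).powerset).filter
    (fun K => Even K.card ∧ ((∑ k ∈ K, k : ℕ) : ℝ) ≤ B)

/-- the odd numbers -/
noncomputable def sK_O (N : ℕ) : Finset ℕ := (Finset.Icc 3 (2 * N + 1)).filter (fun k => Odd k)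

theorem sK_succ (N : ℕ) : sK_O (N + 1) = insert (2 * N + 3) (sK_O N) := by
  ext k
  simp only [sK_O, Finset.mem_filter, Finset.mem_Icc, Finset.mem_insert]
  constructor
  · rintro ⟨⟨h1, h2⟩, h3⟩
    by_cases hk : k = 2 * N + 3
    · exact Or.inl hk
    · right
      obtain ⟨j, hj⟩ := h3
      exact ⟨⟨h1, by omega⟩, ⟨j, hj⟩⟩
  · rintro (h | ⟨⟨h1, h2⟩, h3⟩)
    · subst h
      exact ⟨⟨by omega, by omega⟩, ⟨N + 1, by ring⟩⟩
    · exact ⟨⟨h1, by omega⟩, h3⟩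

theorem sK_notMem (N : ℕ) : 2 * N + 3 ∉ sK_O N := by
  simp only [sK_O, Finset.mem_filter, Finset.mem_Icc]
  omega

theorem sK_zero : sK_O 0 = ∅ := by
  ext k
  simp only [sK_O, Finset.mem_filter, Finset.mem_Icc, Finset.notMem_empty, iff_false]
  omega

theorem sK_P (N : ℕ) : (2 * (N : ℝ) + 3) / 3 ≤ (∏ k ∈ sK_O N, (1 + ((k : ℝ))⁻¹)) ^ 2 ∧
    0 ≤ ∏ k ∈ sK_O N, (1 + ((k : ℝ))⁻¹) := by
  constructor
  · induction N with
    | zero => rw [sK_zero]; norm_num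
    | succ n ih =>
      rw [sK_succ, Finset.prod_insert (sK_notMem n), mul_pow]
      have hx : (0 : ℝ) < 2 * n + 3 := by positivity
      have e1 : (((2 * n + 3 : ℕ) : ℝ)) = 2 * n + 3 := by push_cast; ring
      rw [e1]
      have h1 : 1 + 2 * (2 * (n : ℝ) + 3)⁻¹ ≤ (1 + (2 * (n : ℝ) + 3)⁻¹) ^ 2 := by
        nlinarith [sq_nonneg ((2 * (n : ℝ) + 3)⁻¹)]
      have h2 : (2 * (((n + 1 : ℕ)) : ℝ) + 3) / 3
          = (1 + 2 * (2 * (n : ℝ) + 3)⁻¹) * ((2 * (n : ℝ) + 3) / 3) := by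
        push_cast
        field_simp
        ring
      rw [h2]
      exact mul_le_mul h1 ih (by positivity) (by positivity)
  · exact Finset.prod_nonneg fun k _ => by positivity

theorem sK_3 (N : ℕ) : ∏ k ∈ sK_O N, (1 + 3 * ((k : ℝ))⁻¹) ≤ (2 * (N : ℝ) + 1) ^ 3 := by
  induction N with
  | zero => rw [sK_zero]; norm_num
  | succ n ih =>
    rw [sK_succ, Finset.prod_insert (sK_notMem n)]
    have e1 : (((2 * n + 3 : ℕ) : ℝ)) = 2 * n + 3 := by push_cast; ring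
    rw [e1]
    have hx : (0 : ℝ) < 2 * n + 3 := by positivity
    have hn : (0 : ℝ) ≤ n := Nat.cast_nonneg n
    calc (1 + 3 * (2 * (n : ℝ) + 3)⁻¹) * ∏ k ∈ sK_O n, (1 + 3 * ((k : ℝ))⁻¹)
        ≤ (1 + 3 * (2 * (n : ℝ) + 3)⁻¹) * (2 * (n : ℝ) + 1) ^ 3 :=
          mul_le_mul_of_nonneg_left ih (by positivity)
      _ = (2 * (n : ℝ) + 6) * (2 * (n : ℝ) + 1) ^ 3 / (2 * n + 3) := by
          field_simp
          ring
      _ ≤ (2 * (((n + 1 : ℕ)) : ℝ) + 1) ^ 3 := by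
          rw [div_le_iff₀ hx]
          push_cast
          have h1 : 0 ≤ (n : ℝ) ^ 2 := by positivity
          have h2 : 0 ≤ (n : ℝ) ^ 3 := by positivity
          nlinarith [h1, h2, hn]

theorem sK_even (N : ℕ) : (∏ k ∈ sK_O N, (1 + ((k : ℝ))⁻¹)) / 2 ≤
    ∑ K ∈ (sK_O N).powerset.filter (fun K => Even K.card), ∏ k ∈ K, ((k : ℝ))⁻¹ := by
  have h1 : ∏ k ∈ sK_O N, (1 + ((k : ℝ))⁻¹) = ∑ K ∈ (sK_O N).powerset, ∏ k ∈ K, ((k : ℝ))⁻¹ :=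
    Finset.prod_one_add _
  have h2 : ∏ k ∈ sK_O N, (1 + -((k : ℝ))⁻¹)
      = ∑ K ∈ (sK_O N).powerset, ∏ k ∈ K, (-((k : ℝ))⁻¹) :=
    Finset.prod_one_add _
  have h3 : 0 ≤ ∏ k ∈ sK_O N, (1 + -((k : ℝ))⁻¹) := by
    refine Finset.prod_nonneg fun k hk => ?_
    simp only [sK_O, Finset.mem_filter, Finset.mem_Icc] at hk
    have hk3 : (1 : ℝ) ≤ k := by
      have : 1 ≤ k := by omega
      exact_mod_cast this
    have := inv_le_one_of_one_le₀ hk3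
    linarith
  have h4 : ∀ K : Finset ℕ, ∏ k ∈ K, (-((k : ℝ))⁻¹) = (-1) ^ K.card * ∏ k ∈ K, ((k : ℝ))⁻¹ := by
    intro K
    rw [← Finset.prod_const, ← Finset.prod_mul_distrib]
    exact Finset.prod_congr rfl fun k _ => by ring
  have h5 : ∏ k ∈ sK_O N, (1 + ((k : ℝ))⁻¹) + ∏ k ∈ sK_O N, (1 + -((k : ℝ))⁻¹)
      = 2 * ∑ K ∈ (sK_O N).powerset.filter (fun K => Even K.card), ∏ k ∈ K, ((k : ℝ))⁻¹ := by
    rw [h1, h2, ← Finset.sum_add_distrib, Finset.mul_sum, Finset.sum_filter]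
    refine Finset.sum_congr rfl fun K _ => ?_
    rw [h4]
    by_cases hK : Even K.card
    · rw [if_pos hK, hK.neg_one_pow]; ring
    · rw [if_neg hK, (Nat.not_even_iff_odd.1 hK).neg_one_pow]; ring
  linarith

theorem sK_bad (N : ℕ) (B : ℝ) (hB : 4 * (2 * N + 1 : ℝ) * Real.log (2 * N + 1) ≤ B) :
    ∑ K ∈ (sK_O N).powerset.filter (fun K => ¬ (((∑ k ∈ K, k : ℕ) : ℝ) ≤ B)),
      ∏ k ∈ K, ((k : ℝ))⁻¹ ≤ (2 * (N : ℝ) + 1)⁻¹ := by
  have hM : (0 : ℝ) < 2 * N + 1 := by positivity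
  have h1 : ∀ K ∈ (sK_O N).powerset.filter (fun K => ¬ (((∑ k ∈ K, k : ℕ) : ℝ) ≤ B)),
      ∏ k ∈ K, ((k : ℝ))⁻¹ ≤ ((2 * (N : ℝ) + 1) ^ 4)⁻¹ * ∏ k ∈ K, (3 * ((k : ℝ))⁻¹) := by
    intro K hK
    rw [Finset.mem_filter, Finset.mem_powerset] at hK
    obtain ⟨hKO, hKB⟩ := hK
    push Not at hKB
    have h2 : (2 * (N : ℝ) + 1) ^ 4 ≤ 3 ^ K.card := by
      have e1 : (2 * (N : ℝ) + 1) ^ 4 = Real.exp (4 * Real.log (2 * N + 1)) := by
        rw [show (4 : ℝ) = ((4 : ℕ) : ℝ) by norm_num, Real.exp_nat_mul, Real.exp_log hM]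
      have e2 : 4 * Real.log (2 * N + 1) ≤ B / (2 * N + 1) := by
        rw [le_div_iff₀ hM]; linarith
      have e3 : B / (2 * N + 1) ≤ ∑ k ∈ K, ((k : ℝ) / (2 * N + 1)) := by
        rw [← Finset.sum_div]
        have : ((∑ k ∈ K, k : ℕ) : ℝ) = ∑ k ∈ K, (k : ℝ) := by push_cast; rfl
        rw [← this]
        exact div_le_div_of_nonneg_right hKB.le hM.le
      have e4 : ∑ k ∈ K, ((k : ℝ) / (2 * N + 1)) ≤ ∑ k ∈ K, (1 : ℝ) := by
        refine Finset.sum_le_sum fun k hk => ?_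
        have := hKO hk
        simp only [sK_O, Finset.mem_filter, Finset.mem_Icc] at this
        rw [div_le_one hM]
        have h5 : k ≤ 2 * N + 1 := this.1.2
        exact_mod_cast h5
      have e5 : Real.exp (∑ k ∈ K, (1 : ℝ)) ≤ 3 ^ K.card := by
        rw [Finset.sum_const, nsmul_eq_mul, Real.exp_nat_mul]
        exact pow_le_pow_left₀ (Real.exp_pos _).le (by linarith [Real.exp_one_lt_d9]) _
      rw [e1]
      exact (Real.exp_le_exp.2 (e2.trans (e3.trans e4))).trans e5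
    rw [Finset.prod_mul_distrib, Finset.prod_const]
    have h6 : 0 ≤ ∏ k ∈ K, ((k : ℝ))⁻¹ := Finset.prod_nonneg fun k _ => by positivity
    have h7 : 0 < (2 * (N : ℝ) + 1) ^ 4 := by positivity
    have h8 : 1 ≤ ((2 * (N : ℝ) + 1) ^ 4)⁻¹ * 3 ^ K.card := by
      rw [inv_mul_eq_div, le_div_iff₀ h7, one_mul]
      exact h2
    calc ∏ k ∈ K, ((k : ℝ))⁻¹ = 1 * ∏ k ∈ K, ((k : ℝ))⁻¹ := (one_mul _).symm
      _ ≤ (((2 * (N : ℝ) + 1) ^ 4)⁻¹ * 3 ^ K.card) * ∏ k ∈ K, ((k : ℝ))⁻¹ :=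
          mul_le_mul_of_nonneg_right h8 h6
      _ = _ := by ring
  calc _ ≤ ∑ K ∈ (sK_O N).powerset.filter (fun K => ¬ (((∑ k ∈ K, k : ℕ) : ℝ) ≤ B)),
        ((2 * (N : ℝ) + 1) ^ 4)⁻¹ * ∏ k ∈ K, (3 * ((k : ℝ))⁻¹) := Finset.sum_le_sum h1
    _ ≤ ∑ K ∈ (sK_O N).powerset, ((2 * (N : ℝ) + 1) ^ 4)⁻¹ * ∏ k ∈ K, (3 * ((k : ℝ))⁻¹) := by
        refine Finset.sum_le_sum_of_subset_of_nonneg (Finset.filter_subset _ _) fun K _ _ => ?_
        exact mul_nonneg (by positivity) (Finset.prod_nonneg fun k _ => by positivity)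
    _ = ((2 * (N : ℝ) + 1) ^ 4)⁻¹ * ∏ k ∈ sK_O N, (1 + 3 * ((k : ℝ))⁻¹) := by
        rw [← Finset.mul_sum, Finset.prod_one_add]
    _ ≤ ((2 * (N : ℝ) + 1) ^ 4)⁻¹ * (2 * (N : ℝ) + 1) ^ 3 :=
        mul_le_mul_of_nonneg_left (sK_3 N) (by positivity)
    _ = (2 * (N : ℝ) + 1)⁻¹ := by
        field_simp

theorem sumK : ∃ N0 : ℕ, ∀ N ≥ N0, ∀ B : ℝ, 4 * (2 * N + 1 : ℝ) * Real.log (2 * N + 1) ≤ B →
    √(N : ℝ) / 4 ≤ ∑ K ∈ KK N B, ∏ k ∈ K, ((k : ℝ))⁻¹ := by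
  refine ⟨9, fun N hN B hB => ?_⟩
  have h1 := sK_even N
  have h2 := sK_bad N B hB
  obtain ⟨h3, h4⟩ := sK_P N
  have h5 : ∑ K ∈ (sK_O N).powerset.filter (fun K => Even K.card), ∏ k ∈ K, ((k : ℝ))⁻¹
      ≤ ∑ K ∈ KK N B, ∏ k ∈ K, ((k : ℝ))⁻¹
        + ∑ K ∈ (sK_O N).powerset.filter (fun K => ¬ (((∑ k ∈ K, k : ℕ) : ℝ) ≤ B)),
          ∏ k ∈ K, ((k : ℝ))⁻¹ := by
    have h6 : KK N B = ((sK_O N).powerset.filter (fun K => Even K.card)).filter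
        (fun K => ((∑ k ∈ K, k : ℕ) : ℝ) ≤ B) := by
      unfold KK sK_O
      rw [Finset.filter_filter]
    rw [h6, ← Finset.sum_filter_add_sum_filter_not
      ((sK_O N).powerset.filter (fun K => Even K.card)) (fun K => ((∑ k ∈ K, k : ℕ) : ℝ) ≤ B)]
    refine add_le_add le_rfl ?_
    refine Finset.sum_le_sum_of_subset_of_nonneg ?_ fun K _ _ =>
      Finset.prod_nonneg fun k _ => by positivity
    exact Finset.filter_subset_filter _ (Finset.filter_subset _ _)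
  have hN9 : (9 : ℝ) ≤ N := by exact_mod_cast hN
  have hsq : √(N : ℝ) ^ 2 = N := Real.sq_sqrt (by positivity)
  have hs3 : 3 ≤ √(N : ℝ) := by
    rw [show (3 : ℝ) = √9 by rw [show (9 : ℝ) = 3 ^ 2 by norm_num, Real.sqrt_sq (by norm_num)]]
    exact Real.sqrt_le_sqrt hN9
  have h7 : 4 / 5 * √(N : ℝ) ≤ ∏ k ∈ sK_O N, (1 + ((k : ℝ))⁻¹) := by
    refine (sq_le_sq₀ (by positivity) h4).1 ?_
    have : (4 / 5 * √(N : ℝ)) ^ 2 = 16 / 25 * N := by rw [mul_pow, hsq]; norm_num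
    rw [this]
    linarith
  have h8 : (2 * (N : ℝ) + 1)⁻¹ ≤ 1 / 19 := by
    rw [inv_eq_one_div]
    exact one_div_le_one_div_of_le (by norm_num) (by linarith)
  linarith

end Pool.Agent.Helper651.SR
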