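import Pool.Agent.Helper651.SR.Defs

set_option autoImplicit false
open MeasureTheory Set Filter Topology Classical
open scoped ENNReal

namespace Pool.Agent.Helper651.SR

/-- the scores with ranking `p` -/
def tr_O {n : ℕ} (p : Fin n → Equiv.Perm (Fin n)) : Set (Fin n × Fin n → ℝ) :=
  {U | ∀ u i j, U (u, i) < U (u, j) ↔ p u i < p u j}

theorem tr_meas {n : ℕ} (p : Fin n → Equiv.Perm (Fin n)) : MeasurableSet (tr_O p) := by
  unfold tr_O
  simp only [Set.setOf_forall]
  refine MeasurableSet.iInter fun u => MeasurableSet.iInter fun i => MeasurableSet.iInter fun j => ?_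
  by_cases h : p u i < p u j
  · simp only [h, iff_true]
    exact measurableSet_lt (measurable_pi_apply _) (measurable_pi_apply _)
  · simp only [h, iff_false, not_lt]
    exact measurableSet_le (measurable_pi_apply _) (measurable_pi_apply _)

theorem tr_uniq {n : ℕ} (p q : Equiv.Perm (Fin n)) (h : ∀ i j, p i < p j ↔ q i < q j) : p = q := by
  let e : Fin n ≃o Fin n :=
    { toEquiv := q.symm.trans p
      map_rel_iff' := by
        intro a b
        show p (q.symm a) ≤ p (q.symm b) ↔ a ≤ b
        have := h (q.symm b) (q.symm a)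
        rw [Equiv.apply_symm_apply, Equiv.apply_symm_apply] at this
        rw [← not_lt, ← not_lt, this] }
  have h1 : e = OrderIso.refl (Fin n) := Subsingleton.elim _ _
  ext i
  have h2 : e (q i) = q i := by rw [h1]; rfl
  have h3 : e (q i) = p (q.symm (q i)) := rfl
  rw [Equiv.symm_apply_apply] at h3
  rw [← h3, h2]

theorem tr_disj {n : ℕ} (p q : Fin n → Equiv.Perm (Fin n)) (hpq : p ≠ q) :
    Disjoint (tr_O p) (tr_O q) := by
  rw [Set.disjoint_left]
  intro U hp hq
  apply hpq
  funext u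
  apply tr_uniq
  intro i j
  rw [← hp u i j, hq u i j]

theorem tr_exists {n : ℕ} (x : Fin n → ℝ) (hx : Function.Injective x) :
    ∃ σ : Equiv.Perm (Fin n), ∀ i j, x i < x j ↔ σ i < σ j := by
  have h1 : StrictMono (x ∘ Tuple.sort x) :=
    (Tuple.monotone_sort x).strictMono_of_injective (hx.comp (Tuple.sort x).injective)
  refine ⟨(Tuple.sort x).symm, fun i j => ?_⟩
  have h2 := h1.lt_iff_lt (a := (Tuple.sort x).symm i) (b := (Tuple.sort x).symm j)
  simp only [Function.comp_apply, Equiv.apply_symm_apply] at h2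
  exact h2

theorem tr_null {V : Type} [Fintype V] (a b : V × V) (hab : a ≠ b) :
    mu V {U | U a = U b} = 0 := by
  have h1 : mu V = (volume : Measure (V × V → ℝ)).restrict
      (Set.univ.pi fun _ => Icc (0:ℝ) 1) := by
    rw [volume_pi, Measure.restrict_pi_pi]
    rfl
  have h2 : (volume : Measure (V × V → ℝ)) {U | U a = U b} = 0 := by
    have h3 : ({U | U a = U b} : Set (V × V → ℝ)) =
        (LinearMap.ker ((LinearMap.proj a : (V × V → ℝ) →ₗ[ℝ] ℝ) - LinearMap.proj b) :
          Submodule ℝ (V × V → ℝ)) := by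
      ext U
      simp [sub_eq_zero]
    rw [h3]
    apply Measure.addHaar_submodule
    intro h4
    have h5 : (Pi.single a (1:ℝ) : V × V → ℝ) ∈
        LinearMap.ker ((LinearMap.proj a : (V × V → ℝ) →ₗ[ℝ] ℝ) - LinearMap.proj b) := by
      rw [h4]; trivial
    rw [LinearMap.mem_ker] at h5
    simp [hab.symm] at h5
  rw [h1]
  exact le_antisymm ((Measure.restrict_apply_le _ _).trans h2.le) bot_le

theorem tr_ae (n : ℕ) : ∀ᵐ U ∂(mu (Fin n)), ∃ p : Fin n → Equiv.Perm (Fin n), U ∈ tr_O p := by
  have h1 : ∀ᵐ U ∂(mu (Fin n)), ∀ a b : Fin n × Fin n, a ≠ b → U a ≠ U b := by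
    rw [ae_all_iff]
    intro a
    rw [ae_all_iff]
    intro b
    by_cases hab : a = b
    · exact Filter.Eventually.of_forall fun U h => absurd hab h
    · have h2 : ∀ᵐ U ∂(mu (Fin n)), ¬ (U a = U b) := by
        rw [ae_iff]
        simpa using tr_null a b hab
      filter_upwards [h2] with U hU _
      exact hU
  filter_upwards [h1] with U hU
  have h3 : ∀ u, ∃ σ : Equiv.Perm (Fin n), ∀ i j, U (u, i) < U (u, j) ↔ σ i < σ j := by
    intro u
    apply tr_exists (fun i => U (u, i))
    intro i j hij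
    by_contra hne
    exact hU (u, i) (u, j) (fun h => hne (Prod.mk.inj h).2) hij
  choose p hp using h3
  exact ⟨p, fun u i j => hp u i j⟩

theorem tr_eqm {n : ℕ} (p : Fin n → Equiv.Perm (Fin n)) :
    mu (Fin n) (tr_O p) = mu (Fin n) (tr_O fun _ => Equiv.refl (Fin n)) := by
  let σ : Fin n × Fin n ≃ Fin n × Fin n := Equiv.prodShear (Equiv.refl (Fin n)) p
  have hσ : ∀ u i, σ (u, i) = (u, p u i) := fun _ _ => rfl
  have hmp : MeasurePreserving (MeasurableEquiv.piCongrLeft (fun _ : Fin n × Fin n => ℝ) σ)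
      (mu (Fin n)) (mu (Fin n)) :=
    measurePreserving_piCongrLeft (fun _ : Fin n × Fin n => lam) σ
  have h1 := hmp.measure_preimage (tr_meas (fun _ => Equiv.refl (Fin n))).nullMeasurableSet
  rw [← h1]
  congr 1
  ext U
  have h2 : ∀ u i, (MeasurableEquiv.piCongrLeft (fun _ : Fin n × Fin n => ℝ) σ) U (u, p u i) =
      U (u, i) := by
    intro u i
    rw [← hσ, MeasurableEquiv.coe_piCongrLeft]
    exact Equiv.piCongrLeft_apply_apply (fun _ : Fin n × Fin n => ℝ) σ U (u, i)
  constructor
  · intro hU u i j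
    have h3 := hU u ((p u).symm i) ((p u).symm j)
    rw [← h2 u ((p u).symm i), ← h2 u ((p u).symm j), Equiv.apply_symm_apply,
      Equiv.apply_symm_apply] at h3
    exact h3
  · intro hU u i j
    have h3 := hU u (p u i) (p u j)
    rw [h2, h2] at h3
    exact h3


theorem transfer (n : ℕ) :
    ((Finset.univ.filter (fun p : Fin n → Equiv.Perm (Fin n) =>
            ∃ m : Fin n → Fin n, (∀ x, m (m x) = x ∧ m x ≠ x) ∧
              ∀ u w : Fin n, u ≠ w → ¬ (p u w < p u (m u) ∧ p w u < p w (m w)))).card : ℝ) /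
          (Fintype.card (Fin n → Equiv.Perm (Fin n)) : ℝ) =
      (mu (Fin n) {U | ∃ m, IsM m ∧ Stab U m}).toReal := by
  classical
  haveI : IsProbabilityMeasure (mu (Fin n)) := by unfold mu; infer_instance
  obtain ⟨c, hc⟩ : ∃ c : ℝ≥0∞, c = mu (Fin n) (tr_O fun _ => Equiv.refl (Fin n)) := ⟨_, rfl⟩
  have hO : ∀ p : Fin n → Equiv.Perm (Fin n), mu (Fin n) (tr_O p) = c := fun p => by
    rw [hc]; exact tr_eqm p
  have hun : ∀ G : Finset (Fin n → Equiv.Perm (Fin n)),
      mu (Fin n) (⋃ p ∈ G, tr_O p) = G.card * c := by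
    intro G
    rw [measure_biUnion_finset (fun p _ q _ hpq => tr_disj p q hpq) (fun p _ => tr_meas p)]
    simp only [hO]
    rw [Finset.sum_const, nsmul_eq_mul]
  have hall : mu (Fin n) (⋃ p ∈ (Finset.univ : Finset (Fin n → Equiv.Perm (Fin n))), tr_O p) = 1 := by
    rw [← measure_univ (μ := mu (Fin n))]
    apply measure_congr
    filter_upwards [tr_ae n] with U hU
    obtain ⟨p, hp⟩ := hU
    apply propext
    constructor
    · intro _
      trivial
    · intro _
      exact Set.mem_biUnion (Finset.mem_coe.mpr (Finset.mem_univ p)) hp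
  rw [hun, Finset.card_univ] at hall
  have hE : mu (Fin n) {U | ∃ m, IsM m ∧ Stab U m} =
      mu (Fin n) (⋃ p ∈ (Finset.univ.filter (fun p : Fin n → Equiv.Perm (Fin n) =>
            ∃ m : Fin n → Fin n, (∀ x, m (m x) = x ∧ m x ≠ x) ∧
              ∀ u w : Fin n, u ≠ w → ¬ (p u w < p u (m u) ∧ p w u < p w (m w)))), tr_O p) := by
    apply measure_congr
    filter_upwards [tr_ae n] with U hU
    obtain ⟨p, hp⟩ := hU
    apply propext
    have hiff : (∃ m, IsM m ∧ Stab U m) ↔ ∃ m : Fin n → Fin n, (∀ x, m (m x) = x ∧ m x ≠ x) ∧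
        ∀ u w : Fin n, u ≠ w → ¬ (p u w < p u (m u) ∧ p w u < p w (m w)) := by
      constructor
      · rintro ⟨m, h1, h2⟩
        refine ⟨m, h1, fun u w huw => ?_⟩
        rw [← hp u w (m u), ← hp w u (m w)]
        exact h2 u w huw
      · rintro ⟨m, h1, h2⟩
        refine ⟨m, h1, fun u w huw => ?_⟩
        rw [hp u w (m u), hp w u (m w)]
        exact h2 u w huw
    constructor
    · intro hU
      have h3 := hiff.mp hU
      exact Set.mem_biUnion (Finset.mem_coe.mpr (Finset.mem_filter.mpr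
        ⟨Finset.mem_univ p, h3⟩)) hp
    · intro hU
      obtain ⟨q, hq, hUq⟩ := Set.mem_iUnion₂.mp hU
      have hpq : q = p := by
        by_contra hne
        exact Set.disjoint_left.mp (tr_disj q p hne) hUq hp
      rw [hpq] at hq
      exact hiff.mpr (Finset.mem_filter.mp hq).2
  rw [hE, hun, ENNReal.toReal_mul, ENNReal.toReal_natCast]
  have hcard : (0 : ℝ) < (Fintype.card (Fin n → Equiv.Perm (Fin n)) : ℝ) := by
    exact_mod_cast Fintype.card_pos
  have h4 := congrArg ENNReal.toReal hall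
  rw [ENNReal.toReal_mul, ENNReal.toReal_natCast, ENNReal.toReal_one] at h4
  have h5 : c.toReal = 1 / (Fintype.card (Fin n → Equiv.Perm (Fin n)) : ℝ) := by
    rw [eq_div_iff hcard.ne']
    linarith
  rw [h5]
  ring

end Pool.Agent.Helper651.SR
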