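import Pool.Agent.Helper651.SR.Defs
import Pool.Agent.Helper651.SR.MeasFw
import Pool.Agent.Helper651.SR.G1
import Pool.Agent.Helper651.SR.Dep1

set_option autoImplicit false
open MeasureTheory Set Filter Topology Classical
open scoped ENNReal

namespace Pool.Agent.Helper651.SR

noncomputable def h170_K {V I : Type} [Fintype V] (δ : ℝ) (f : I ↪ V) (ν : Equiv.Perm I)
    (m : V → V) (U : V × V → ℝ) (i : I) (a : ℝ) : ℝ≥0∞ :=
  (if sc f ν U i < a ∧ a ≤ sc f ν U i + δ then 1 else 0) * ∏ w ∈ Rf f, gi f ν m U i a w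

theorem h170_kap_eq {V I : Type} [Fintype V] (δ : ℝ) (f : I ↪ V) (ν : Equiv.Perm I)
    (m : V → V) (U : V × V → ℝ) (i : I) :
    kap δ f ν m U i = ∫⁻ a, h170_K δ f ν m U i a ∂lam := rfl

theorem h170_K_meas {V I : Type} [Fintype V] (δ : ℝ) (f : I ↪ V) (ν : Equiv.Perm I)
    (m : V → V) (i : I) :
    Measurable (fun p : (V × V → ℝ) × ℝ => h170_K δ f ν m p.1 i p.2) := by
  unfold h170_K
  have hcoord : ∀ c : V × V, Measurable (fun p : (V × V → ℝ) × ℝ => p.1 c) := by
    intro c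
    exact (measurable_pi_apply c).comp measurable_fst
  have hsc : Measurable (fun p : (V × V → ℝ) × ℝ => sc f ν p.1 i) := hcoord (f i, f (ν i))
  apply Measurable.mul
  · apply Measurable.ite _ measurable_const measurable_const
    exact (measurableSet_lt hsc measurable_snd).inter
      (measurableSet_le measurable_snd (hsc.add measurable_const))
  · apply Finset.measurable_fun_prod
    intro w _
    unfold gi
    apply ENNReal.measurable_ofReal.comp
    exact measurable_const.sub (((measurable_snd.sub hsc).mul (hcoord (w, m w))).div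
      (measurable_const.sub hsc))

theorem h170_kap_meas {V I : Type} [Fintype V] (δ : ℝ) (f : I ↪ V) (ν : Equiv.Perm I)
    (m : V → V) (i : I) :
    Measurable (fun U : V × V → ℝ => kap δ f ν m U i) := by
  simp_rw [h170_kap_eq]
  exact (h170_K_meas δ f ν m i).lintegral_prod_right'

theorem h170_k_meas {V I : Type} [Fintype V] (δ : ℝ) (f : I ↪ V) (ν : Equiv.Perm I)
    (m : V → V) (i : I) :
    Measurable (fun U : V × V → ℝ => h170_K δ f ν m U i (yc f ν U i)) := by
  have h1 : Measurable (fun U : V × V → ℝ => yc f ν U i) :=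
    measurable_pi_apply (f i, f (ν⁻¹ i))
  exact (h170_K_meas δ f ν m i).comp (measurable_id.prodMk h1)

theorem h170_G1_eq {V : Type} [Fintype V] (i : V × V) (F : (V × V → ℝ) → ℝ≥0∞)
    (hF : Measurable F) :
    ∫⁻ U, F U ∂(mu V) = ∫⁻ U, (∫⁻ a, F (Function.update U i a) ∂lam) ∂(mu V) := by
  have h1 := G1_eq i F hF
  unfold mu
  rw [h1]
  congr
  funext U
  congr
  funext a
  congr
  exact Subsingleton.elim _ _

theorem h170_coord {V I : Type} (f : I ↪ V) (U : V × V → ℝ) (x y : V) (i j : I) (a : ℝ)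
    (h : x ≠ f i ∨ y ≠ f j) : Function.update U (f i, f j) a (x, y) = U (x, y) := by
  apply Function.update_of_ne
  intro h0
  rw [Prod.mk.injEq] at h0
  rcases h with h | h
  · exact h h0.1
  · exact h h0.2

theorem h170_inv_ne {I : Type} (ν : Equiv.Perm I) (hν : ∀ i, ν i ≠ i ∧ ν (ν i) ≠ i) (i : I) :
    ν⁻¹ i ≠ ν i := by
  intro h
  apply (hν i).2
  rw [← h]
  simp

theorem h170_sc_upd {V I : Type} (f : I ↪ V) (ν : Equiv.Perm I)
    (hν : ∀ i, ν i ≠ i ∧ ν (ν i) ≠ i) (U : V × V → ℝ) (i j : I) (a : ℝ) :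
    sc f ν (Function.update U (f i, f (ν⁻¹ i)) a) j = sc f ν U j := by
  unfold sc
  apply h170_coord
  by_cases hij : j = i
  · right
    subst hij
    intro h
    exact h170_inv_ne ν hν j (f.injective h).symm
  · left
    intro h
    exact hij (f.injective h)

theorem h170_K_upd {V I : Type} [Fintype V] (δ : ℝ) (f : I ↪ V) (ν : Equiv.Perm I)
    (hν : ∀ i, ν i ≠ i ∧ ν (ν i) ≠ i) (m : V → V) (U : V × V → ℝ) (i j : I) (a b : ℝ) :
    h170_K δ f ν m (Function.update U (f i, f (ν⁻¹ i)) a) j b = h170_K δ f ν m U j b := by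
  unfold h170_K
  rw [h170_sc_upd f ν hν]
  congr 1
  apply Finset.prod_congr rfl
  intro w hw
  unfold gi
  rw [h170_sc_upd f ν hν]
  have h1 : Function.update U (f i, f (ν⁻¹ i)) a (w, m w) = U (w, m w) := by
    apply h170_coord
    left
    intro h
    rw [Rf, Finset.mem_filter] at hw
    exact hw.2 ⟨i, h.symm⟩
  rw [h1]

theorem h170_kap_upd {V I : Type} [Fintype V] (δ : ℝ) (f : I ↪ V) (ν : Equiv.Perm I)
    (hν : ∀ i, ν i ≠ i ∧ ν (ν i) ≠ i) (m : V → V) (U : V × V → ℝ) (i j : I) (a : ℝ) :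
    kap δ f ν m (Function.update U (f i, f (ν⁻¹ i)) a) j = kap δ f ν m U j := by
  rw [h170_kap_eq, h170_kap_eq]
  apply lintegral_congr
  intro b
  exact h170_K_upd δ f ν hν m U i j a b

theorem h170_yc_upd_ne {V I : Type} (f : I ↪ V) (ν : Equiv.Perm I)
    (U : V × V → ℝ) (i j : I) (hij : j ≠ i) (a : ℝ) :
    yc f ν (Function.update U (f i, f (ν⁻¹ i)) a) j = yc f ν U j := by
  unfold yc
  apply h170_coord
  left
  intro h
  exact hij (f.injective h)

theorem h170_yc_upd {V I : Type} (f : I ↪ V) (ν : Equiv.Perm I)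
    (U : V × V → ℝ) (i : I) (a : ℝ) :
    yc f ν (Function.update U (f i, f (ν⁻¹ i)) a) i = a := by
  unfold yc
  exact Function.update_self _ _ _

theorem h170_step {V I : Type} [Fintype V] [Fintype I] (L δ : ℝ) (f : I ↪ V) (τ : I → I)
    (ν : Equiv.Perm I) (hν : ∀ i, ν i ≠ i ∧ ν (ν i) ≠ i) (m : V → V) (Q : Finset I) (i : I)
    (hi : i ∉ Q) :
    ∫⁻ U, Fw L f τ m U (sc f ν U) * (∏ j ∈ insert i Q, kap δ f ν m U j) *
      (∏ j ∈ (insert i Q)ᶜ, h170_K δ f ν m U j (yc f ν U j)) ∂(mu V) =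
    ∫⁻ U, Fw L f τ m U (sc f ν U) * (∏ j ∈ Q, kap δ f ν m U j) *
      (∏ j ∈ Qᶜ, h170_K δ f ν m U j (yc f ν U j)) ∂(mu V) := by
  have hmeas : Measurable (fun U : V × V → ℝ => Fw L f τ m U (sc f ν U) *
      (∏ j ∈ Q, kap δ f ν m U j) * (∏ j ∈ Qᶜ, h170_K δ f ν m U j (yc f ν U j))) := by
    apply Measurable.mul
    · apply Measurable.mul (meas_Fw L f τ ν m)
      apply Finset.measurable_fun_prod
      intro j _
      exact h170_kap_meas δ f ν m j
    · apply Finset.measurable_fun_prod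
      intro j _
      exact h170_k_meas δ f ν m j
  rw [h170_G1_eq (f i, f (ν⁻¹ i)) _ hmeas]
  apply lintegral_congr
  intro U
  have hQc : Qᶜ = insert i (insert i Q)ᶜ := by
    ext j
    simp only [Finset.mem_compl, Finset.mem_insert]
    by_cases h : j = i
    · subst h
      simp [hi]
    · simp [h]
  have hni : i ∉ (insert i Q)ᶜ := by simp
  have h1 : ∀ a, Fw L f τ m (Function.update U (f i, f (ν⁻¹ i)) a)
        (sc f ν (Function.update U (f i, f (ν⁻¹ i)) a)) *
      (∏ j ∈ Q, kap δ f ν m (Function.update U (f i, f (ν⁻¹ i)) a) j) *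
      (∏ j ∈ Qᶜ, h170_K δ f ν m (Function.update U (f i, f (ν⁻¹ i)) a) j
        (yc f ν (Function.update U (f i, f (ν⁻¹ i)) a) j)) =
      (Fw L f τ m U (sc f ν U) * (∏ j ∈ Q, kap δ f ν m U j) *
        (∏ j ∈ (insert i Q)ᶜ, h170_K δ f ν m U j (yc f ν U j))) * h170_K δ f ν m U i a := by
    intro a
    rw [dep1 L f τ ν m U i (ν⁻¹ i) (h170_inv_ne ν hν i) a]
    have h2 : (∏ j ∈ Q, kap δ f ν m (Function.update U (f i, f (ν⁻¹ i)) a) j) =
        ∏ j ∈ Q, kap δ f ν m U j :=
      Finset.prod_congr rfl (fun j _ => h170_kap_upd δ f ν hν m U i j a)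
    rw [h2, hQc, Finset.prod_insert hni, h170_yc_upd, h170_K_upd δ f ν hν]
    have h3 : (∏ j ∈ (insert i Q)ᶜ, h170_K δ f ν m (Function.update U (f i, f (ν⁻¹ i)) a) j
        (yc f ν (Function.update U (f i, f (ν⁻¹ i)) a) j)) =
        ∏ j ∈ (insert i Q)ᶜ, h170_K δ f ν m U j (yc f ν U j) := by
      apply Finset.prod_congr rfl
      intro j hj
      have hji : j ≠ i := by
        intro h
        rw [h] at hj
        exact hni hj
      rw [h170_yc_upd_ne f ν U i j hji, h170_K_upd δ f ν hν]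
    rw [h3]
    ring
  simp_rw [h1]
  have h4 : Measurable (fun a => h170_K δ f ν m U i a) :=
    (h170_K_meas δ f ν m i).comp (measurable_const.prodMk measurable_id)
  rw [lintegral_const_mul _ h4, ← h170_kap_eq, Finset.prod_insert hi]
  ring


theorem yint {V I : Type} [Fintype V] [Fintype I] (L δ : ℝ) (f : I ↪ V) (τ : I → I)
    (ν : Equiv.Perm I) (hν : ∀ i, ν i ≠ i ∧ ν (ν i) ≠ i) (m : V → V) :
    ∫⁻ U, Fw L f τ m U (sc f ν U) * (∏ i, kap δ f ν m U i) ∂(mu V) ≤
    ∫⁻ U, Fw L f τ m U (sc f ν U) * (∏ i, Ai δ f ν U i) *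
        (∏ i, ∏ w ∈ Rf f, gi f ν m U i (yc f ν U i) w) ∂(mu V) := by
  have h1 : ∀ Q : Finset I, ∫⁻ U, Fw L f τ m U (sc f ν U) * (∏ j ∈ Q, kap δ f ν m U j) *
      (∏ j ∈ Qᶜ, h170_K δ f ν m U j (yc f ν U j)) ∂(mu V) =
      ∫⁻ U, Fw L f τ m U (sc f ν U) * (∏ j, h170_K δ f ν m U j (yc f ν U j)) ∂(mu V) := by
    intro Q
    induction Q using Finset.induction_on with
    | empty => simp
    | insert i Q hi ih =>
      rw [h170_step L δ f τ ν hν m Q i hi, ih]
  have h2 := h1 Finset.univ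
  simp only [Finset.compl_univ, Finset.prod_empty, mul_one] at h2
  rw [h2]
  apply le_of_eq
  apply lintegral_congr
  intro U
  rw [mul_assoc, ← Finset.prod_mul_distrib]
  rfl

end Pool.Agent.Helper651.SR
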