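import Pool.Agent.Helper651.SR.Uniq
import Pool.Agent.Helper651.SR.Mult
import Pool.Agent.Helper651.SR.InEv
import Pool.Agent.Helper651.SR.K1
import Pool.Agent.Helper651.SR.K2
import Pool.Agent.Helper651.SR.MeasFw
import Pool.Agent.Helper651.SR.MeasEv
import Pool.Agent.Helper651.SR.MeasT
import Pool.Agent.Helper651.SR.G1
import Pool.Agent.Helper651.SR.Slot
import Pool.Agent.Helper651.SR.Dep1
import Pool.Agent.Helper651.SR.Dep2
import Pool.Agent.Helper651.SR.FwLe
import Pool.Agent.Helper651.SR.Cross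
import Pool.Agent.Helper651.SR.Yint
import Pool.Agent.Helper651.SR.Internal
import Pool.Agent.Helper651.SR.Kap1
import Pool.Agent.Helper651.SR.Kap2
import Pool.Agent.Helper651.SR.Fm1
import Pool.Agent.Helper651.SR.CardIsm
import Pool.Agent.Helper651.SR.Fm2
import Pool.Agent.Helper651.SR.Transfer
import Pool.Agent.Helper651.SR.EmbCount
import Pool.Agent.Helper651.SR.Sumk
import Pool.Agent.Helper651.SR.AeGood

set_option autoImplicit false
open MeasureTheory Set Filter Topology Classical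
open scoped ENNReal

namespace Pool.Agent.Helper651.SR


/-! ### assembly of the key inequality -/

section Key
set_option linter.unusedSectionVars false

variable {V I : Type} [Fintype V] [Fintype I]

theorem sc_upd (f : I ↪ V) (ν : Equiv.Perm I) (U : V × V → ℝ) (i j : I) (hj : j ≠ ν i) (a : ℝ)
    (k : I) : sc f ν (Function.update U (f i, f j) a) k = sc f ν U k := by
  unfold sc
  rw [Function.update_of_ne]
  intro h
  have h1 := f.injective (congrArg Prod.fst h)
  have h2 := f.injective (congrArg Prod.snd h)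
  subst h1
  exact hj h2.symm

theorem yc_upd (f : I ↪ V) (ν : Equiv.Perm I) (U : V × V → ℝ) (i j : I) (hj : i ≠ ν j) (a : ℝ)
    (k : I) : yc f ν (Function.update U (f i, f j) a) k = yc f ν U k := by
  unfold yc
  rw [Function.update_of_ne]
  intro h
  have h1 := f.injective (congrArg Prod.fst h)
  have h2 := f.injective (congrArg Prod.snd h)
  subst h1
  apply hj
  rw [← h2]
  simp

theorem Ai_upd (δ : ℝ) (f : I ↪ V) (ν : Equiv.Perm I) (U : V × V → ℝ) (i j : I) (hj : j ≠ ν i)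
    (hi' : i ≠ ν j) (a : ℝ) (k : I) :
    Ai δ f ν (Function.update U (f i, f j) a) k = Ai δ f ν U k := by
  unfold Ai
  rw [sc_upd f ν U i j hj, yc_upd f ν U i j hi']

theorem hi_upd (f : I ↪ V) (ν : Equiv.Perm I) (m : V → V) (U : V × V → ℝ) (i j : I)
    (hj : j ≠ ν i) (hi' : i ≠ ν j) (a : ℝ) (k : I) (w : V) (hw : w ∉ Set.range f) :
    hi f ν m (Function.update U (f i, f j) a) k w = hi f ν m U k w := by
  have e1 : ((f k, w) : V × V) ≠ (f i, f j) := fun h => hw ⟨j, (congrArg Prod.snd h).symm⟩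
  have e2 : ((w, f k) : V × V) ≠ (f i, f j) := fun h => hw ⟨i, (congrArg Prod.fst h).symm⟩
  have e3 : ((w, m w) : V × V) ≠ (f i, f j) := fun h => hw ⟨i, (congrArg Prod.fst h).symm⟩
  unfold hi
  rw [sc_upd f ν U i j hj, yc_upd f ν U i j hi', Function.update_of_ne e1,
    Function.update_of_ne e2, Function.update_of_ne e3]

theorem mem_Rf (f : I ↪ V) (w : V) : w ∈ Rf f ↔ w ∉ Set.range f := by
  unfold Rf; simp

/-- the integrand of the lower bound -/
noncomputable def Psi (L δ : ℝ) (f : I ↪ V) (τ : I → I) (ν : Equiv.Perm I) (m : V → V)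
    (U : V × V → ℝ) : ℝ≥0∞ :=
  Fw L f τ m U (sc f ν U) * (∏ i, Ai δ f ν U i) * (∏ i, ∏ w ∈ Rf f, hi f ν m U i w)

theorem kmeas_sc (f : I ↪ V) (ν : Equiv.Perm I) (i : I) : Measurable (fun U => sc f ν U i) := by
  unfold sc; fun_prop

theorem kmeas_yc (f : I ↪ V) (ν : Equiv.Perm I) (i : I) : Measurable (fun U => yc f ν U i) := by
  unfold yc; fun_prop

theorem kmeas_Ai (δ : ℝ) (f : I ↪ V) (ν : Equiv.Perm I) (i : I) :
    Measurable (fun U => Ai δ f ν U i) := by
  unfold Ai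
  refine Measurable.ite ?_ measurable_const measurable_const
  exact (measurableSet_lt (kmeas_sc f ν i) (kmeas_yc f ν i)).inter
    (measurableSet_le (kmeas_yc f ν i) ((kmeas_sc f ν i).add_const δ))

theorem kmeas_hi (f : I ↪ V) (ν : Equiv.Perm I) (m : V → V) (i : I) (w : V) :
    Measurable (fun U => hi f ν m U i w) := by
  unfold hi
  refine Measurable.ite ?_ measurable_const measurable_const
  have e : ∀ p : V × V, Measurable (fun U : V × V → ℝ => U p) := fun p => measurable_pi_apply p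
  exact (measurableSet_le (kmeas_sc f ν i) (e (f i, w))).inter
    ((measurableSet_lt (e (f i, w)) (kmeas_yc f ν i)).inter
      (measurableSet_lt (e (w, f i)) (e (w, m w))))

theorem meas_Ci (f : I ↪ V) (ν : Equiv.Perm I) : Measurable (fun U => Ci f ν U) := by
  unfold Ci
  refine Measurable.ite ?_ measurable_const measurable_const
  have : {U : V × V → ℝ | ∀ i j, i ≠ j → ¬ (U (f i, f j) < yc f ν U i ∧ U (f j, f i) < yc f ν U j)}
      = ⋂ i, ⋂ j, ⋂ (_ : i ≠ j), {U | ¬ (U (f i, f j) < yc f ν U i ∧ U (f j, f i) < yc f ν U j)} := by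
    ext U; simp only [Set.mem_iInter, Set.mem_ofPred_eq]
  rw [this]
  refine MeasurableSet.iInter fun i => MeasurableSet.iInter fun j => MeasurableSet.iInter fun _ => ?_
  have e : ∀ p : V × V, Measurable (fun U : V × V → ℝ => U p) := fun p => measurable_pi_apply p
  exact ((measurableSet_lt (e (f i, f j)) (kmeas_yc f ν i)).inter
    (measurableSet_lt (e (f j, f i)) (kmeas_yc f ν j))).compl

theorem meas_Psi (L δ : ℝ) (f : I ↪ V) (τ : I → I) (ν : Equiv.Perm I) (m : V → V) :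
    Measurable (Psi L δ f τ ν m) := by
  unfold Psi
  refine ((meas_Fw L f τ ν m).mul (Finset.measurable_prod _ fun i _ => kmeas_Ai δ f ν i)).mul ?_
  exact Finset.measurable_prod _ fun i _ => Finset.measurable_prod _ fun w _ => kmeas_hi f ν m i w

theorem Ai_le (δ : ℝ) (f : I ↪ V) (ν : Equiv.Perm I) (U : V × V → ℝ) (i : I) :
    Ai δ f ν U i ≤ 1 := by
  unfold Ai; split <;> simp

theorem hi_le (f : I ↪ V) (ν : Equiv.Perm I) (m : V → V) (U : V × V → ℝ) (i : I) (w : V) :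
    hi f ν m U i w ≤ 1 := by
  unfold hi; split <;> simp

theorem Fw_le_one (L : ℝ) (f : I ↪ V) (τ : I → I) (m : V → V) (U : V × V → ℝ) (t : I → ℝ) :
    Fw L f τ m U t ≤ 1 :=
  le_trans (Finset.single_le_sum (f := fun m => Fw L f τ m U t) (fun _ _ => bot_le)
    (Finset.mem_univ m)) (Fw_sum_le L f τ U t)

theorem Psi_le_one (L δ : ℝ) (f : I ↪ V) (τ : I → I) (ν : Equiv.Perm I) (m : V → V)
    (U : V × V → ℝ) : Psi L δ f τ ν m U ≤ 1 := by
  unfold Psi
  have h1 : ∏ i, Ai δ f ν U i ≤ 1 := Finset.prod_le_one' fun i _ => Ai_le δ f ν U i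
  have h2 : ∏ i, ∏ w ∈ Rf f, hi f ν m U i w ≤ 1 :=
    Finset.prod_le_one' fun i _ => Finset.prod_le_one' fun w _ => hi_le f ν m U i w
  calc Fw L f τ m U (sc f ν U) * (∏ i, Ai δ f ν U i) * (∏ i, ∏ w ∈ Rf f, hi f ν m U i w)
      ≤ 1 * 1 * 1 := mul_le_mul' (mul_le_mul' (Fw_le_one L f τ m U _) h1) h2
    _ = 1 := by simp

theorem Psi_int (L : ℝ) (hL : 1 ≤ L) (h1 : 4 * L + 1 ≤ √(Fintype.card V))
    (ho : 8 * L * (Fintype.card I) ≤ √(Fintype.card V)) (f : I ↪ V) (τ : I → I)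
    (ν : Equiv.Perm I) (m : V → V) :
    ENNReal.ofReal (7 / 8) * ∫⁻ U, Psi L (L / √(Fintype.card V)) f τ ν m U ∂(mu V) ≤
      ∫⁻ U, Psi L (L / √(Fintype.card V)) f τ ν m U * Ci f ν U ∂(mu V) := by
  set N := √(Fintype.card V : ℝ) with hN
  have hNpos : 0 < N := by linarith
  refine internal (2 * L / N) ?_ ?_ f ν _ (meas_Psi L _ f τ ν m) ?_ ?_ ?_
  · rw [div_le_one hNpos]; linarith
  · have hIo : (Fintype.card I : ℝ) * (2 * L / N) ≤ 1 / 4 := by
      rw [mul_div_assoc', div_le_iff₀ hNpos]; linarith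
    have h0 : (0:ℝ) ≤ (Fintype.card I : ℝ) * (2 * L / N) := by positivity
    nlinarith
  · apply ne_of_lt
    calc ∫⁻ U, Psi L (L / N) f τ ν m U ∂(mu V) ≤ ∫⁻ U, 1 ∂(mu V) :=
          lintegral_mono fun U => Psi_le_one L _ f τ ν m U
      _ < ⊤ := by
          have : IsProbabilityMeasure (mu V) := by unfold mu; infer_instance
          simp
  · intro U hU i
    have hF : Fw L f τ m U (sc f ν U) ≠ 0 := fun h => hU (by unfold Psi; rw [h]; simp)
    have hA : ∏ i, Ai (L / N) f ν U i ≠ 0 := fun h => hU (by unfold Psi; rw [h]; simp)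
    have hAi : Ai (L / N) f ν U i ≠ 0 := fun h => hA (Finset.prod_eq_zero (Finset.mem_univ i) h)
    have hAi' : sc f ν U i < yc f ν U i ∧ yc f ν U i ≤ sc f ν U i + L / N := by
      by_contra h
      exact hAi (by unfold Ai; rw [if_neg h])
    have hG : Gd L f m U (sc f ν U) := by
      by_contra h
      exact hF (by unfold Fw; rw [if_neg (fun h' => h h'.2.2.2.2)])
    have hs := hG.2.1 i
    rw [← hN] at hs
    refine ⟨by linarith [hs.1], ?_⟩
    have : 2 * L / N = L / N + L / N := by ring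
    rw [this]
    linarith [hs.2, hAi'.2]
  · intro i j hij h1' h2' U a b
    have eF : ∀ U' : V × V → ℝ, ∀ i j : I, j ≠ ν i → ∀ a,
        Fw L f τ m (Function.update U' (f i, f j) a) (sc f ν (Function.update U' (f i, f j) a)) =
          Fw L f τ m U' (sc f ν U') := fun U' i j h a => dep1 L f τ ν m U' i j h a
    have eP : ∀ U' : V × V → ℝ, ∀ i j : I, j ≠ ν i → i ≠ ν j → ∀ a,
        Psi L (L / N) f τ ν m (Function.update U' (f i, f j) a) = Psi L (L / N) f τ ν m U' := by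
      intro U' i j h h' a
      unfold Psi
      rw [eF U' i j h a]
      congr 1
      · congr 1
        exact Finset.prod_congr rfl fun k _ => Ai_upd _ f ν U' i j h h' a k
      · exact Finset.prod_congr rfl fun k _ => Finset.prod_congr rfl fun w hw =>
          hi_upd f ν m U' i j h h' a k w ((mem_Rf f w).mp hw)
    rw [eP _ j i h2' h1', eP _ i j h1' h2']

theorem kap_ge (L : ℝ) (hL : 1 ≤ L) (h1 : 4 * L + 1 ≤ √(Fintype.card V))
    (ho : 8 * L * (Fintype.card I) ≤ √(Fintype.card V))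
    (hoe : (Fintype.card I : ℝ) * Real.exp (-L / 2) ≤ 1 / 2) (f : I ↪ V) (τ : I → I)
    (ν : Equiv.Perm I) (m : V → V) (U : V × V → ℝ) :
    ENNReal.ofReal (2 / 7 * (√(Fintype.card V) ^ (Fintype.card I))⁻¹) * Fw L f τ m U (sc f ν U) ≤
      Fw L f τ m U (sc f ν U) * ∏ i, kap (L / √(Fintype.card V)) f ν m U i := by
  set N := √(Fintype.card V : ℝ) with hN
  by_cases hF : Fw L f τ m U (sc f ν U) = 0
  · rw [hF]; simp
  have hG : Gd L f m U (sc f ν U) := by
    by_contra h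
    exact hF (by unfold Fw; rw [if_neg (fun h' => h h'.2.2.2.2)])
  rw [mul_comm]
  gcongr
  have hk : ∀ i, ENNReal.ofReal ((1 - Real.exp (-L / 2)) / ((N + L) * (1 + 2 * L / N + 2 * L ^ 2 / N ^ 2))) ≤
      kap (L / N) f ν m U i := by
    intro i
    unfold kap gi
    have hR : ∀ w ∈ Rf f, 0 ≤ U (w, m w) ∧ U (w, m w) ≤ L / N := fun w hw =>
      hG.1 w ((mem_Rf f w).mp hw)
    exact kap1 (Rf f) (fun w => U (w, m w)) (sc f ν U i) L N hL h1 hR (hG.2.1 i)
      ⟨hG.2.2.1, hG.2.2.2⟩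
  calc ENNReal.ofReal (2 / 7 * (N ^ (Fintype.card I))⁻¹)
      ≤ ENNReal.ofReal (((1 - Real.exp (-L / 2)) / ((N + L) * (1 + 2 * L / N + 2 * L ^ 2 / N ^ 2))) ^
          (Fintype.card I)) := ENNReal.ofReal_le_ofReal (kap2 L N _ hL h1 ho hoe)
    _ = ∏ i : I, ENNReal.ofReal ((1 - Real.exp (-L / 2)) /
          ((N + L) * (1 + 2 * L / N + 2 * L ^ 2 / N ^ 2))) := by
        rw [Finset.prod_const, Finset.card_univ, ENNReal.ofReal_pow]
        apply div_nonneg
        · have : Real.exp (-L / 2) ≤ 1 := Real.exp_le_one_iff.mpr (by linarith)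
          linarith
        · have hNpos : 0 < N := by linarith
          positivity
    _ ≤ ∏ i, kap (L / N) f ν m U i := Finset.prod_le_prod' fun i _ => hk i

theorem key (L : ℝ) (hL : 1 ≤ L) (h1 : 4 * L + 1 ≤ √(Fintype.card V))
    (ho : 8 * L * (Fintype.card I) ≤ √(Fintype.card V))
    (hoe : (Fintype.card I : ℝ) * Real.exp (-L / 2) ≤ 1 / 2) (f : I ↪ V) (τ : I → I)
    (ν : Equiv.Perm I) (hν : ∀ i, ν i ≠ i ∧ ν (ν i) ≠ i) :
    ENNReal.ofReal (1 / 4 * (√(Fintype.card V) ^ (Fintype.card I))⁻¹) *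
      ∫⁻ U, ∑ m ∈ Finset.univ.filter (fun m : V → V => IsM m ∧ Stab U m ∧ Good L U m ∧
        ∀ i, m (f i) = f (τ i)), ((T U : ℕ) : ℝ≥0∞)⁻¹ ∂(mu V) ≤ mu V (Ev ν f) := by
  set N := √(Fintype.card V : ℝ) with hN
  have hNpos : 0 < N := by linarith
  have hδ : L / N ≤ 1 / 4 := by rw [div_le_iff₀ hNpos]; linarith
  have s1 : ∫⁻ U, ∑ m ∈ Finset.univ.filter (fun m : V → V => IsM m ∧ Stab U m ∧ Good L U m ∧
        ∀ i, m (f i) = f (τ i)), ((T U : ℕ) : ℝ≥0∞)⁻¹ ∂(mu V) ≤
      ∑ m, ∫⁻ U, Fw L f τ m U (sc f ν U) ∂(mu V) := by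
    calc _ ≤ ∫⁻ U, ∑ m, Fw L f τ m U (fun i => U (f i, f (τ i))) ∂(mu V) := by
          apply lintegral_mono_ae
          filter_upwards [ae_good V] with U hU
          exact K1 L hL h1 ho f τ U hU.1
      _ = ∫⁻ U, ∑ m, Fw L f τ m U (sc f ν U) ∂(mu V) := K2 L f τ ν
      _ = _ := lintegral_finset_sum _ fun m _ => meas_Fw L f τ ν m
  have s2 : ∀ m, ENNReal.ofReal (1 / 4 * (N ^ (Fintype.card I))⁻¹) *
      ∫⁻ U, Fw L f τ m U (sc f ν U) ∂(mu V) ≤
      ∫⁻ U, Psi L (L / N) f τ ν m U * Ci f ν U ∂(mu V) := by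
    intro m
    have hp : ENNReal.ofReal (1 / 4 * (N ^ (Fintype.card I))⁻¹) =
        ENNReal.ofReal (7 / 8) * ENNReal.ofReal (2 / 7 * (N ^ (Fintype.card I))⁻¹) := by
      rw [← ENNReal.ofReal_mul (by norm_num)]; congr 1; ring
    rw [hp, mul_assoc]
    refine le_trans ?_ (Psi_int L hL h1 ho f τ ν m)
    gcongr
    calc ENNReal.ofReal (2 / 7 * (N ^ (Fintype.card I))⁻¹) * ∫⁻ U, Fw L f τ m U (sc f ν U) ∂(mu V)
        = ∫⁻ U, ENNReal.ofReal (2 / 7 * (N ^ (Fintype.card I))⁻¹) * Fw L f τ m U (sc f ν U)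
            ∂(mu V) := (lintegral_const_mul _ (meas_Fw L f τ ν m)).symm
      _ ≤ ∫⁻ U, Fw L f τ m U (sc f ν U) * ∏ i, kap (L / N) f ν m U i ∂(mu V) :=
          lintegral_mono fun U => kap_ge L hL h1 ho hoe f τ ν m U
      _ ≤ _ := yint L (L / N) f τ ν hν m
      _ ≤ _ := cross L (L / N) hδ hδ f τ ν m
  calc _ ≤ ENNReal.ofReal (1 / 4 * (N ^ (Fintype.card I))⁻¹) *
        ∑ m, ∫⁻ U, Fw L f τ m U (sc f ν U) ∂(mu V) := by gcongr
    _ = ∑ m, ENNReal.ofReal (1 / 4 * (N ^ (Fintype.card I))⁻¹) *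
        ∫⁻ U, Fw L f τ m U (sc f ν U) ∂(mu V) := Finset.mul_sum _ _ _
    _ ≤ ∑ m, ∫⁻ U, Psi L (L / N) f τ ν m U * Ci f ν U ∂(mu V) :=
        Finset.sum_le_sum fun m _ => s2 m
    _ = ∫⁻ U, ∑ m, Psi L (L / N) f τ ν m U * Ci f ν U ∂(mu V) :=
        (lintegral_finset_sum _ fun m _ => (meas_Psi L _ f τ ν m).mul (meas_Ci f ν)).symm
    _ ≤ ∫⁻ U, (Ev ν f).indicator (fun _ => 1) U ∂(mu V) :=
        lintegral_mono fun U => psi_ind L (L / N) f τ ν (fun i => (hν i).1) U
    _ = mu V (Ev ν f) := by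
        rw [lintegral_indicator (meas_Ev ν f)]; simp

end Key


/-! ### final assembly -/

section Final
set_option linter.unusedSectionVars false

instance instProbMu (V : Type) [Fintype V] : IsProbabilityMeasure (mu V) := by
  unfold mu; infer_instance

/-- the mass of the regular stable matchings -/
noncomputable def Qm (V : Type) [Fintype V] (L : ℝ) : ℝ≥0∞ :=
  ∫⁻ U, ∑ m ∈ Finset.univ.filter (fun m : V → V => IsM m ∧ Stab U m ∧ Good L U m),
    ((T U : ℕ) : ℝ≥0∞)⁻¹ ∂(mu V)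

theorem meas_Qint {V : Type} [Fintype V] (L : ℝ) (P : (V → V) → Prop) :
    Measurable (fun U : V × V → ℝ => ∑ m ∈ Finset.univ.filter
      (fun m : V → V => IsM m ∧ Stab U m ∧ Good L U m ∧ P m), ((T U : ℕ) : ℝ≥0∞)⁻¹) := by
  have e : (fun U : V × V → ℝ => ∑ m ∈ Finset.univ.filter
      (fun m : V → V => IsM m ∧ Stab U m ∧ Good L U m ∧ P m), ((T U : ℕ) : ℝ≥0∞)⁻¹) =
      fun U => ∑ m : V → V, if IsM m ∧ Stab U m ∧ Good L U m ∧ P m then
        ((T U : ℕ) : ℝ≥0∞)⁻¹ else 0 := by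
    funext U; rw [Finset.sum_filter]
  rw [e]
  refine Finset.measurable_sum _ fun m _ => ?_
  obtain ⟨h1, h2, h3⟩ := meas_T L m
  refine Measurable.ite ?_ h3.inv measurable_const
  exact (MeasurableSet.const _).inter (h1.inter (h2.inter (MeasurableSet.const _)))

/-- the number of irregular stable matchings -/
noncomputable def Bn {V : Type} [Fintype V] (L : ℝ) (U : V × V → ℝ) : ℝ≥0∞ :=
  ∑ m : V → V, if IsM m ∧ Stab U m ∧ ¬ Good L U m then 1 else 0

theorem meas_Bn {V : Type} [Fintype V] (L : ℝ) : Measurable (fun U : V × V → ℝ => Bn L U) := by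
  unfold Bn
  refine Finset.measurable_sum _ fun m _ => ?_
  obtain ⟨h1, h2, h3⟩ := meas_T L m
  refine Measurable.ite ?_ measurable_const measurable_const
  exact (MeasurableSet.const _).inter (h1.inter h2.compl)

theorem P_le (V : Type) [Fintype V] (L : ℝ) :
    mu V {U | ∃ m, IsM m ∧ Stab U m} ≤ Qm V L + ∫⁻ U, Bn L U ∂(mu V) := by
  have hms : MeasurableSet {U : V × V → ℝ | ∃ m, IsM m ∧ Stab U m} := by
    have : {U : V × V → ℝ | ∃ m, IsM m ∧ Stab U m} = ⋃ m : V → V, {U | IsM m ∧ Stab U m} := by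
      ext U; simp
    rw [this]
    refine MeasurableSet.iUnion fun m => ?_
    exact (MeasurableSet.const _).inter (meas_T L m).1
  unfold Qm
  rw [← lintegral_add_right _ (meas_Bn L)]
  calc mu V {U | ∃ m, IsM m ∧ Stab U m}
      = ∫⁻ U, ({U : V × V → ℝ | ∃ m, IsM m ∧ Stab U m}).indicator (fun _ => 1) U ∂(mu V) := by
        rw [lintegral_indicator hms]; simp
    _ ≤ _ := by
        apply lintegral_mono
        intro U
        by_cases hU : U ∈ {U : V × V → ℝ | ∃ m, IsM m ∧ Stab U m}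
        · rw [Set.indicator_of_mem hU]
          by_cases hb : ∃ m : V → V, IsM m ∧ Stab U m ∧ ¬ Good L U m
          · obtain ⟨m, hm⟩ := hb
            have : (1 : ℝ≥0∞) ≤ Bn L U := by
              unfold Bn
              calc (1 : ℝ≥0∞) = if IsM m ∧ Stab U m ∧ ¬ Good L U m then 1 else 0 := by rw [if_pos hm]
                _ ≤ _ := Finset.single_le_sum
                  (f := fun m => if IsM m ∧ Stab U m ∧ ¬ Good L U m then (1:ℝ≥0∞) else 0)
                  (fun _ _ => bot_le) (Finset.mem_univ m)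
            exact le_trans this le_add_self
          · have e : Finset.univ.filter (fun m : V → V => IsM m ∧ Stab U m ∧ Good L U m) =
                Finset.univ.filter (fun m : V → V => IsM m ∧ Stab U m) := by
              apply Finset.filter_congr
              intro m _
              constructor
              · rintro ⟨a, b, _⟩; exact ⟨a, b⟩
              · rintro ⟨a, b⟩
                refine ⟨a, b, ?_⟩
                by_contra hc
                exact hb ⟨m, a, b, hc⟩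
            refine le_trans ?_ le_self_add
            simp only
            rw [e, Finset.sum_const, nsmul_eq_mul]
            have hT : (Finset.univ.filter (fun m : V → V => IsM m ∧ Stab U m)).card = T U := rfl
            rw [hT]
            obtain ⟨m, hm⟩ := hU
            have hT0 : T U ≠ 0 := by
              rw [← hT]
              exact Finset.card_ne_zero_of_mem (Finset.mem_filter.mpr ⟨Finset.mem_univ m, hm⟩)
            rw [ENNReal.mul_inv_cancel (by exact_mod_cast hT0) (ENNReal.natCast_ne_top _)]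
        · rw [Set.indicator_of_notMem hU]; exact bot_le

theorem nxt_ne (K : Finset ℕ) (hK : ∀ k ∈ K, 3 ≤ k) (i : Ix K) :
    nxt K i ≠ i ∧ nxt K (nxt K i) ≠ i := by
  obtain ⟨⟨k, hk⟩, a⟩ := i
  have h3 := hK k hk
  obtain ⟨n, rfl⟩ : ∃ n, k = n + 3 := ⟨k - 3, by omega⟩
  have e : ∀ b : Fin (n + 3), nxt K ⟨⟨n + 3, hk⟩, b⟩ = ⟨⟨n + 3, hk⟩, b + 1⟩ := by
    intro b
    show (⟨⟨n + 3, hk⟩, finRotate (n + 3) b⟩ : Ix K) = _
    rw [finRotate_succ_apply]
  rw [e, e]
  constructor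
  · intro h
    have : a + 1 = a := by simpa using h
    have h2 : (1 : Fin (n + 3)) = 0 := by simpa using this
    have := congrArg Fin.val h2
    simp at this
  · intro h
    have : a + 1 + 1 = a := by simpa using h
    rw [add_assoc] at this
    have h2 : (1 + 1 : Fin (n + 3)) = 0 := by simpa using this
    have h4 := congrArg Fin.val h2
    simp only [Fin.val_add, Fin.val_one, Fin.val_zero] at h4
    have h5 : (1 + 1) % (n + 3) = 2 := Nat.mod_eq_of_lt (by omega)
    omega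

theorem card_Ix (K : Finset ℕ) : Fintype.card (Ix K) = ∑ k ∈ K, k := by
  rw [Fintype.card_sigma]
  simp only [Fintype.card_fin]
  exact Finset.sum_coe_sort K (fun k => k)

theorem perK (V : Type) [Fintype V] (L : ℝ) (hL : 1 ≤ L) (h1 : 4 * L + 1 ≤ √(Fintype.card V))
    (K : Finset ℕ) (hK : ∀ k ∈ K, Odd k ∧ 3 ≤ k) (hKe : Even K.card)
    (ho : 8 * L * ((∑ k ∈ K, k : ℕ) : ℝ) ≤ √(Fintype.card V))
    (hoe : ((∑ k ∈ K, k : ℕ) : ℝ) * Real.exp (-L / 2) ≤ 1 / 2) :
    ENNReal.ofReal (1 / 8) * Qm V L ≤ ∑ f : Ix K ↪ V, mu V (Ev (nxt K) f) := by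
  have hNpos : 0 < √(Fintype.card V : ℝ) := by linarith
  have hn : (0:ℝ) < Fintype.card V := by
    by_contra h
    have : (Fintype.card V : ℝ) = 0 := le_antisymm (not_lt.mp h) (by positivity)
    rw [this] at hNpos; simp at hNpos
  have hcard := card_Ix K
  have heven : Even (∑ k ∈ K, k) := by
    rw [Finset.even_sum_iff_even_card_odd]
    rw [Finset.filter_true_of_mem (fun k hk => (hK k hk).1)]
    exact hKe
  obtain ⟨j, hj⟩ := heven
  have hj2 : Fintype.card (Ix K) = 2 * j := by rw [hcard, hj]; ring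
  obtain ⟨τ, hτ⟩ := ex_tau (I := Ix K) (by rw [hj2]; exact even_two_mul j)
  have ho' : 8 * L * (Fintype.card (Ix K) : ℝ) ≤ √(Fintype.card V) := by rw [hcard]; exact ho
  have hoe' : (Fintype.card (Ix K) : ℝ) * Real.exp (-L / 2) ≤ 1 / 2 := by rw [hcard]; exact hoe
  have hjn : 2 * j ^ 2 ≤ Fintype.card V := by
    have a1 : (Fintype.card (Ix K) : ℝ) ≤ √(Fintype.card V) := by
      have : (0:ℝ) ≤ Fintype.card (Ix K) := by positivity
      nlinarith
    have a2 : ((2 * j : ℕ) : ℝ) ^ 2 ≤ Fintype.card V := by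
      rw [← hj2]
      calc ((Fintype.card (Ix K) : ℕ) : ℝ) ^ 2 ≤ (√(Fintype.card V : ℝ)) ^ 2 := by
            apply pow_le_pow_left₀ (by positivity) a1
        _ = (Fintype.card V : ℝ) := Real.sq_sqrt hn.le
    have a3 : (2 * j) ^ 2 ≤ Fintype.card V := by exact_mod_cast a2
    nlinarith
  have hk := fun f : Ix K ↪ V => key L hL h1 ho' hoe' f τ (nxt K)
    (fun i => nxt_ne K (fun k hk => (hK k hk).2) i)
  calc ENNReal.ofReal (1 / 8) * Qm V L
      = ENNReal.ofReal (1 / 4 * (√(Fintype.card V) ^ (Fintype.card (Ix K)))⁻¹) *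
          (ENNReal.ofReal ((Fintype.card V : ℝ) ^ j / 2) * Qm V L) := by
        rw [← mul_assoc, ← ENNReal.ofReal_mul (by positivity)]
        congr 2
        rw [hj2, pow_mul, Real.sq_sqrt hn.le]
        field_simp
        norm_num
    _ ≤ ENNReal.ofReal (1 / 4 * (√(Fintype.card V) ^ (Fintype.card (Ix K)))⁻¹) *
          ∑ f : Ix K ↪ V, ∫⁻ U, ∑ m ∈ Finset.univ.filter (fun m : V → V => IsM m ∧ Stab U m ∧
            Good L U m ∧ ∀ i, m (f i) = f (τ i)), ((T U : ℕ) : ℝ≥0∞)⁻¹ ∂(mu V) := by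
        gcongr
        rw [← lintegral_finset_sum _ (fun f _ => by
          convert meas_Qint L (fun m : V → V => ∀ i, m (f i) = f (τ i)))]
        unfold Qm
        have hmQ := meas_Qint (V := V) L (fun _ => True)
        simp only [and_true] at hmQ
        rw [← lintegral_const_mul _ hmQ]
        apply lintegral_mono
        intro U
        simp only
        have e1 : ∀ f : Ix K ↪ V, ∑ m ∈ Finset.univ.filter (fun m : V → V => IsM m ∧ Stab U m ∧
            Good L U m ∧ ∀ i, m (f i) = f (τ i)), ((T U : ℕ) : ℝ≥0∞)⁻¹ =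
            ∑ m ∈ Finset.univ.filter (fun m : V → V => IsM m ∧ Stab U m ∧ Good L U m),
              if ∀ i, m (f i) = f (τ i) then ((T U : ℕ) : ℝ≥0∞)⁻¹ else 0 := by
          intro f
          rw [← Finset.sum_filter, Finset.filter_filter]
          apply Finset.sum_congr _ (fun _ _ => rfl)
          apply Finset.filter_congr
          intro m _
          tauto
        rw [Finset.sum_congr rfl (fun f _ => e1 f), Finset.sum_comm, Finset.mul_sum]
        apply Finset.sum_le_sum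
        intro m hm
        have hm' := (Finset.mem_filter.mp hm).2.1
        rw [← Finset.sum_filter, Finset.sum_const, nsmul_eq_mul]
        gcongr
        have := emb_count m hm' τ hτ j hj2 hjn
        exact le_trans (ENNReal.ofReal_le_ofReal this) (le_of_eq (ENNReal.ofReal_natCast _))
    _ = ∑ f : Ix K ↪ V, ENNReal.ofReal (1 / 4 * (√(Fintype.card V) ^ (Fintype.card (Ix K)))⁻¹) *
          ∫⁻ U, ∑ m ∈ Finset.univ.filter (fun m : V → V => IsM m ∧ Stab U m ∧
            Good L U m ∧ ∀ i, m (f i) = f (τ i)), ((T U : ℕ) : ℝ≥0∞)⁻¹ ∂(mu V) :=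
        Finset.mul_sum _ _ _
    _ ≤ _ := Finset.sum_le_sum fun f _ => hk f

theorem total (V : Type) [Fintype V] (𝒦 : Finset (Finset ℕ))
    (hKK : ∀ K ∈ 𝒦, ∀ k ∈ K, Odd k ∧ 3 ≤ k) :
    ∑ K ∈ 𝒦, (∏ k ∈ K, ((k : ℝ≥0∞))⁻¹) * ∑ f : Ix K ↪ V, mu V (Ev (nxt K) f) ≤ 1 := by
  have e : ∀ K : Finset ℕ, ∀ f : Ix K ↪ V, mu V (Ev (nxt K) f) =
      ∫⁻ U, (Ev (nxt K) f).indicator (fun _ => 1) U ∂(mu V) := by
    intro K f
    rw [lintegral_indicator (meas_Ev _ f)]; simp
  have mi : ∀ K : Finset ℕ, ∀ f : Ix K ↪ V, Measurable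
      (fun U => (Ev (nxt K) f).indicator (fun _ => (1 : ℝ≥0∞)) U) := fun K f =>
    measurable_const.indicator (meas_Ev _ f)
  calc ∑ K ∈ 𝒦, (∏ k ∈ K, ((k : ℝ≥0∞))⁻¹) * ∑ f : Ix K ↪ V, mu V (Ev (nxt K) f)
      = ∑ K ∈ 𝒦, ∫⁻ U, (∏ k ∈ K, ((k : ℝ≥0∞))⁻¹) *
          ∑ f : Ix K ↪ V, (Ev (nxt K) f).indicator (fun _ => 1) U ∂(mu V) := by
        apply Finset.sum_congr rfl
        intro K _
        rw [lintegral_const_mul _ (Finset.measurable_sum _ fun f _ => mi K f),
          lintegral_finset_sum _ fun f _ => mi K f]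
        congr 1
        exact Finset.sum_congr rfl fun f _ => e K f
    _ = ∫⁻ U, ∑ K ∈ 𝒦, (∏ k ∈ K, ((k : ℝ≥0∞))⁻¹) *
          ∑ f : Ix K ↪ V, (Ev (nxt K) f).indicator (fun _ => 1) U ∂(mu V) := by
        rw [lintegral_finset_sum]
        intro K _
        exact (Finset.measurable_sum _ fun f _ => mi K f).const_mul _
    _ ≤ ∫⁻ U, 1 ∂(mu V) := by
        apply lintegral_mono_ae
        filter_upwards [ae_good V] with U hU
        refine le_trans (le_of_eq ?_) (mult 𝒦 hKK U hU.2)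
        apply Finset.sum_congr rfl
        intro K _
        congr 1
        rw [Finset.card_filter, Nat.cast_sum]
        apply Finset.sum_congr rfl
        intro f _
        by_cases h : U ∈ Ev (nxt K) f
        · rw [Set.indicator_of_mem h, if_pos h]; simp
        · rw [Set.indicator_of_notMem h, if_neg h]; simp
    _ = 1 := by simp

end Final


section Final2
set_option linter.unusedSectionVars false

theorem mem_KK {N : ℕ} {B : ℝ} {K : Finset ℕ} (h : K ∈ KK N B) :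
    (∀ k ∈ K, Odd k ∧ 3 ≤ k) ∧ Even K.card ∧ ((∑ k ∈ K, k : ℕ) : ℝ) ≤ B := by
  unfold KK at h
  rw [Finset.mem_filter, Finset.mem_powerset] at h
  refine ⟨fun k hk => ?_, h.2.1, h.2.2⟩
  have := Finset.mem_filter.mp (h.1 hk)
  exact ⟨this.2, (Finset.mem_Icc.mp this.1).1⟩

theorem Q_le (V : Type) [Fintype V] (L B : ℝ) (N : ℕ) (hL : 1 ≤ L)
    (h1 : 4 * L + 1 ≤ √(Fintype.card V)) (hB : 8 * L * B ≤ √(Fintype.card V))
    (hBe : √(Fintype.card V) * Real.exp (-L / 2) ≤ 1 / 2) (hN : 1 ≤ N)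
    (hs : √(N : ℝ) / 4 ≤ ∑ K ∈ KK N B, ∏ k ∈ K, ((k : ℝ))⁻¹) :
    Qm V L ≤ ENNReal.ofReal (32 / √(N : ℝ)) := by
  have hNpos : (0:ℝ) < √(N : ℝ) := Real.sqrt_pos.mpr (by exact_mod_cast hN)
  have hsN : (0:ℝ) < √(Fintype.card V : ℝ) := by linarith
  have h2 : ∀ K ∈ KK N B, ENNReal.ofReal (1 / 8) * Qm V L ≤
      ∑ f : Ix K ↪ V, mu V (Ev (nxt K) f) := by
    intro K hK
    obtain ⟨a1, a2, a3⟩ := mem_KK hK
    have b1 : 8 * L * ((∑ k ∈ K, k : ℕ) : ℝ) ≤ √(Fintype.card V) := by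
      refine le_trans ?_ hB
      exact mul_le_mul_of_nonneg_left a3 (by linarith)
    refine perK V L hL h1 K a1 a2 b1 ?_
    have b2 : ((∑ k ∈ K, k : ℕ) : ℝ) ≤ √(Fintype.card V) := by
      have : (0:ℝ) ≤ ((∑ k ∈ K, k : ℕ) : ℝ) := Nat.cast_nonneg _
      nlinarith
    exact le_trans (mul_le_mul_of_nonneg_right b2 (Real.exp_pos _).le) hBe
  have h3 : ENNReal.ofReal (√(N : ℝ) / 4) * (ENNReal.ofReal (1 / 8) * Qm V L) ≤ 1 := by
    calc ENNReal.ofReal (√(N : ℝ) / 4) * (ENNReal.ofReal (1 / 8) * Qm V L)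
        ≤ ENNReal.ofReal (∑ K ∈ KK N B, ∏ k ∈ K, ((k : ℝ))⁻¹) *
            (ENNReal.ofReal (1 / 8) * Qm V L) := by gcongr
      _ = ∑ K ∈ KK N B, (∏ k ∈ K, ((k : ℝ≥0∞))⁻¹) * (ENNReal.ofReal (1 / 8) * Qm V L) := by
          rw [ENNReal.ofReal_sum_of_nonneg (fun K _ => Finset.prod_nonneg fun k _ => by positivity),
            Finset.sum_mul]
          apply Finset.sum_congr rfl
          intro K hK
          congr 1
          rw [ENNReal.ofReal_prod_of_nonneg (fun k _ => by positivity)]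
          apply Finset.prod_congr rfl
          intro k hk
          have := (mem_KK hK).1 k hk
          rw [ENNReal.ofReal_inv_of_pos (by exact_mod_cast (by omega : 0 < k)),
            ENNReal.ofReal_natCast]
      _ ≤ ∑ K ∈ KK N B, (∏ k ∈ K, ((k : ℝ≥0∞))⁻¹) * ∑ f : Ix K ↪ V, mu V (Ev (nxt K) f) := by
          apply Finset.sum_le_sum
          intro K hK
          gcongr
          exact h2 K hK
      _ ≤ 1 := total V (KK N B) fun K hK => (mem_KK hK).1
  have h4 : ENNReal.ofReal (√(N : ℝ) / 32) * Qm V L ≤ 1 := by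
    rw [← mul_assoc, ← ENNReal.ofReal_mul (by positivity)] at h3
    have : √(N : ℝ) / 4 * (1 / 8) = √(N : ℝ) / 32 := by ring
    rwa [this] at h3
  have h5 : ENNReal.ofReal (32 / √(N : ℝ)) = (ENNReal.ofReal (√(N : ℝ) / 32))⁻¹ := by
    rw [← ENNReal.ofReal_inv_of_pos (by positivity)]; congr 1; field_simp
  rw [h5, ENNReal.le_inv_iff_mul_le, mul_comm]
  exact h4

theorem bad_le (V : Type) [Fintype V] (h : ℕ) (hh : 1 ≤ h) (hcard : Fintype.card V = 2 * h) (L : ℝ)
    (hL : 1 ≤ L) (hn : 4 ≤ √(Fintype.card V : ℝ)) (hLn : L ≤ √(Fintype.card V : ℝ)) :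
    ∫⁻ U, Bn L U ∂(mu V) ≤ ENNReal.ofReal
      (3 * h * Real.exp 4 * (4 * h * Real.exp (-L / 2) + Real.exp (-L ^ 2 / 2))) := by
  have hh' : (0:ℝ) < h := by exact_mod_cast hh
  set c : ℝ≥0∞ := ENNReal.ofReal ((Real.exp 1 / (2 * h : ℝ)) ^ h * Real.exp 4 *
        (4 * h * Real.exp (-L / 2) + Real.exp (-L ^ 2 / 2))) with hc
  have hB : MeasurableSet {x : V → ℝ | ¬ ((∀ v, x v ≤ L / √(Fintype.card V)) ∧
        |∑ v, x v - √(Fintype.card V)| ≤ L)} := by
    refine MeasurableSet.compl ?_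
    refine MeasurableSet.inter ?_ ?_
    · have : {x : V → ℝ | ∀ v, x v ≤ L / √(Fintype.card V)} =
          ⋂ v, {x | x v ≤ L / √(Fintype.card V)} := by
        ext x; simp
      show MeasurableSet {x : V → ℝ | ∀ v, x v ≤ L / √(Fintype.card V)}
      rw [this]
      exact MeasurableSet.iInter fun v => measurableSet_le (measurable_pi_apply v) measurable_const
    · have hm1 : Measurable (fun x : V → ℝ => |∑ v, x v - √(Fintype.card V : ℝ)|) := by fun_prop
      exact measurableSet_le hm1 measurable_const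
  have h1 : ∀ m : V → V, IsM m → mu V {U | Stab U m ∧ ¬ Good L U m} ≤ c := by
    intro m hm
    letI : LinearOrder V := LinearOrder.lift' (Fintype.equivFin V) (Fintype.equivFin V).injective
    refine le_trans (fm1 m hm _ hB) ?_
    exact fm2 V h hh hcard L hL hn hLn
  have hmi : ∀ m : V → V, Measurable (fun U : V × V → ℝ =>
      (if IsM m ∧ Stab U m ∧ ¬ Good L U m then (1:ℝ≥0∞) else 0)) := by
    intro m
    obtain ⟨a1, a2, a3⟩ := meas_T (V := V) L m
    refine Measurable.ite ?_ measurable_const measurable_const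
    exact (MeasurableSet.const _).inter (a1.inter a2.compl)
  calc ∫⁻ U, Bn L U ∂(mu V)
      = ∑ m : V → V, ∫⁻ U, (if IsM m ∧ Stab U m ∧ ¬ Good L U m then (1:ℝ≥0∞) else 0)
          ∂(mu V) := by
        unfold Bn
        exact lintegral_finset_sum _ fun m _ => hmi m
    _ ≤ ∑ m : V → V, (if IsM m then c else 0) := by
        apply Finset.sum_le_sum
        intro m _
        by_cases hm : IsM m
        · rw [if_pos hm]
          refine le_trans ?_ (h1 m hm)
          obtain ⟨a1, a2, a3⟩ := meas_T (V := V) L m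
          have hms : MeasurableSet {U : V × V → ℝ | Stab U m ∧ ¬ Good L U m} :=
            a1.inter a2.compl
          rw [← lintegral_indicator_one hms]
          apply lintegral_mono
          intro U
          simp only [Set.indicator, Pi.one_apply]
          by_cases hU : Stab U m ∧ ¬ Good L U m
          · rw [if_pos ⟨hm, hU⟩]
            exact le_of_eq (if_pos hU).symm
          · rw [if_neg (fun h' => hU h'.2)]; exact bot_le
        · rw [if_neg hm]
          simp [hm]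
    _ = ((Finset.univ.filter (fun m : V → V => IsM m)).card : ℝ≥0∞) * c := by
        rw [← Finset.sum_filter, Finset.sum_const, nsmul_eq_mul]
    _ ≤ ENNReal.ofReal (3 * h * ((2 * h : ℝ) / Real.exp 1) ^ h) * c := by
        gcongr
        rw [← ENNReal.ofReal_natCast]
        exact ENNReal.ofReal_le_ofReal (card_IsM V h hh hcard)
    _ = _ := by
        rw [hc, ← ENNReal.ofReal_mul (by positivity)]
        congr 1
        have e : ((2 * h : ℝ) / Real.exp 1) ^ h * (Real.exp 1 / (2 * h : ℝ)) ^ h = 1 := by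
          rw [← mul_pow]
          have : (2 * h : ℝ) / Real.exp 1 * (Real.exp 1 / (2 * h : ℝ)) = 1 := by
            field_simp
          rw [this, one_pow]
        calc _ = (((2 * h : ℝ) / Real.exp 1) ^ h * (Real.exp 1 / (2 * h : ℝ)) ^ h) *
              (3 * h * Real.exp 4 * (4 * h * Real.exp (-L / 2) + Real.exp (-L ^ 2 / 2))) := by ring
          _ = _ := by rw [e, one_mul]

/-- the bound for one `n` -/
theorem P_bound (h : ℕ) (hh : 1 ≤ h) (B : ℝ) (N : ℕ) (hN : 1 ≤ N)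
    (hs : √(N : ℝ) / 4 ≤ ∑ K ∈ KK N B, ∏ k ∈ K, ((k : ℝ))⁻¹)
    (hlog : 40 * Real.log ((2 * h : ℕ) : ℝ) + 1 ≤ √((2 * h : ℕ) : ℝ))
    (hlog1 : 1 ≤ Real.log ((2 * h : ℕ) : ℝ))
    (hB : 80 * Real.log ((2 * h : ℕ) : ℝ) * B ≤ √((2 * h : ℕ) : ℝ)) :
    (mu (Fin (2 * h)) {U | ∃ m, IsM m ∧ Stab U m}).toReal ≤
      32 / √(N : ℝ) + 3 * h * Real.exp 4 * (4 * h + 1) / ((2 * h : ℕ) : ℝ) ^ 5 := by
  set n : ℝ := ((2 * h : ℕ) : ℝ) with hn
  have hn2 : (2:ℝ) ≤ n := by rw [hn]; exact_mod_cast (by omega : 2 ≤ 2 * h)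
  have hn0 : 0 < n := by linarith
  have hh' : (0:ℝ) < h := by exact_mod_cast hh
  set L : ℝ := 10 * Real.log n with hL
  have hL1 : 1 ≤ L := by linarith
  have hexp : Real.exp (-L / 2) = 1 / n ^ 5 := by
    have : -L / 2 = -(5 * Real.log n) := by rw [hL]; ring
    rw [this, Real.exp_neg, mul_comm, Real.exp_mul, Real.exp_log hn0]
    rw [one_div]; congr 1
    norm_cast
  have hexp2 : Real.exp (-L ^ 2 / 2) ≤ 1 / n ^ 5 := by
    rw [← hexp]
    apply Real.exp_le_exp.mpr
    nlinarith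
  have hsq : √n ≤ n := by
    rw [Real.sqrt_le_left hn0.le]; nlinarith
  have hcard : ((Fintype.card (Fin (2 * h)) : ℕ) : ℝ) = n := by rw [Fintype.card_fin]
  have hQ := Q_le (Fin (2 * h)) L B N hL1 (by rw [hcard]; linarith) (by rw [hcard, hL]; linarith)
    (by
      rw [hcard, hexp]
      rw [mul_one_div, div_le_iff₀ (by positivity)]
      have h3 : n ≤ n ^ 5 / 2 := by
        have : 2 ^ 4 ≤ n ^ 4 := pow_le_pow_left₀ (by norm_num) hn2 4
        have e5 : n ^ 5 = n * n ^ 4 := by ring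
        rw [e5]; nlinarith
      linarith) hN hs
  have hbad := bad_le (Fin (2 * h)) h hh (Fintype.card_fin _) L hL1 (by rw [hcard]; linarith)
    (by rw [hcard]; linarith)
  have hP := P_le (Fin (2 * h)) L
  have hfin : mu (Fin (2 * h)) {U | ∃ m, IsM m ∧ Stab U m} ≤
      ENNReal.ofReal (32 / √(N : ℝ) + 3 * h * Real.exp 4 * (4 * h + 1) / n ^ 5) := by
    refine le_trans hP ?_
    rw [ENNReal.ofReal_add (by positivity) (by positivity)]
    refine add_le_add hQ (le_trans hbad (ENNReal.ofReal_le_ofReal ?_))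
    rw [hexp]
    have : 4 * (h:ℝ) * (1 / n ^ 5) + Real.exp (-L ^ 2 / 2) ≤ (4 * h + 1) / n ^ 5 := by
      have e : (4 * (h:ℝ) + 1) / n ^ 5 = 4 * h * (1 / n ^ 5) + 1 / n ^ 5 := by ring
      rw [e]; linarith
    calc 3 * (h:ℝ) * Real.exp 4 * (4 * h * (1 / n ^ 5) + Real.exp (-L ^ 2 / 2))
        ≤ 3 * (h:ℝ) * Real.exp 4 * ((4 * h + 1) / n ^ 5) := by gcongr
      _ = _ := by ring
  exact ENNReal.toReal_le_of_le_ofReal (by positivity) hfin

end Final2


section Final3

/-- the solvability probability of a random instance on `n` people -/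
noncomputable def ratio (n : ℕ) : ℝ :=
  ((Finset.univ.filter (fun p : Fin n → Equiv.Perm (Fin n) =>
            ∃ m : Fin n → Fin n, (∀ x, m (m x) = x ∧ m x ≠ x) ∧
              ∀ u w : Fin n, u ≠ w → ¬ (p u w < p u (m u) ∧ p w u < p w (m w)))).card : ℝ) /
          (Fintype.card (Fin n → Equiv.Perm (Fin n)) : ℝ)

theorem ratio_le_one (n : ℕ) : ratio n ≤ 1 := by
  unfold ratio
  rw [transfer]
  have : mu (Fin n) {U | ∃ m, IsM m ∧ Stab U m} ≤ 1 := prob_le_one
  exact ENNReal.toReal_le_of_le_ofReal zero_le_one (by simpa using this)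

theorem ev_cond (N0 : ℕ) : ∃ n1 : ℕ, ∀ n : ℕ, n1 ≤ n →
    40 * Real.log n + 1 ≤ √(n : ℝ) ∧ 1 ≤ Real.log n ∧
      (max N0 1 : ℕ) ≤ ⌊√(n : ℝ) / (480 * Real.log n ^ 2)⌋₊ := by
  have t1 : Tendsto (fun x : ℝ => √x / (480 * Real.log x ^ 2)) atTop atTop := by
    have h1 : (fun x : ℝ => Real.log x ^ 2) =o[atTop] fun x : ℝ => x ^ (1 / 2 : ℝ) := by
      have := isLittleO_log_rpow_rpow_atTop (2 : ℝ) (show (0:ℝ) < 1 / 2 by norm_num)
      refine this.congr' ?_ (Eventually.of_forall fun x => rfl)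
      filter_upwards [eventually_gt_atTop (1:ℝ)] with x hx
      norm_cast
    have h2 : Tendsto (fun x : ℝ => x ^ (1 / 2 : ℝ) / Real.log x ^ 2) atTop atTop := by
      have h3 := h1.tendsto_div_nhds_zero
      have h4 : Tendsto (fun x : ℝ => (Real.log x ^ 2 / x ^ (1 / 2 : ℝ))⁻¹) atTop atTop := by
        apply Tendsto.inv_tendsto_nhdsGT_zero
        rw [tendsto_nhdsWithin_iff]
        refine ⟨h3, ?_⟩
        filter_upwards [eventually_gt_atTop (1:ℝ)] with x hx
        have := Real.log_pos hx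
        have hx0 : 0 < x := by linarith
        show 0 < Real.log x ^ 2 / x ^ (1 / 2 : ℝ)
        positivity
      refine h4.congr fun x => ?_
      rw [inv_div]
    have h5 := h2.const_mul_atTop (show (0:ℝ) < 1 / 480 by norm_num)
    refine h5.congr fun x => ?_
    rw [Real.sqrt_eq_rpow]
    ring
  have t2 : ∀ᶠ x : ℝ in atTop, 40 * Real.log x + 1 ≤ √x := by
    have h1 : (fun x : ℝ => Real.log x) =o[atTop] fun x : ℝ => x ^ (1 / 2 : ℝ) :=
      isLittleO_log_rpow_atTop (by norm_num)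
    have h2 := h1.bound (show (0:ℝ) < 1 / 80 by norm_num)
    have h3 : Tendsto (fun x : ℝ => x ^ (1 / 2 : ℝ)) atTop atTop :=
      tendsto_rpow_atTop (by norm_num)
    filter_upwards [h2, h3.eventually_ge_atTop 2, eventually_gt_atTop (1:ℝ)] with x hx h4 h5
    rw [Real.sqrt_eq_rpow]
    have h6 := Real.log_pos h5
    rw [Real.norm_of_nonneg h6.le, Real.norm_of_nonneg (by positivity)] at hx
    linarith
  have t3 : ∀ᶠ x : ℝ in atTop, 1 ≤ Real.log x := Real.tendsto_log_atTop.eventually_ge_atTop 1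
  have t4 := t1.eventually_ge_atTop ((max N0 1 : ℕ) : ℝ)
  have t5 := (t2.and (t3.and t4))
  have t6 := tendsto_natCast_atTop_atTop (R := ℝ) |>.eventually t5
  obtain ⟨n1, hn1⟩ := eventually_atTop.mp t6
  refine ⟨n1, fun n hn => ?_⟩
  obtain ⟨a, b, c⟩ := hn1 n hn
  exact ⟨a, b, Nat.le_floor c⟩

theorem upper : ∃ C : ℝ, 0 < C ∧ ∀ n : ℕ, 2 ≤ n → Even n →
    ratio n ≤ C * Real.log n * (n : ℝ) ^ (-(1 / 4 : ℝ)) := by
  obtain ⟨N0, hN0⟩ := sumK
  obtain ⟨n1, hn1⟩ := ev_cond N0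
  have hlog2 : 0 < Real.log 2 := Real.log_pos (by norm_num)
  refine ⟨1300 + ((n1 : ℝ) + 1) ^ (1 / 4 : ℝ) / Real.log 2, by positivity, ?_⟩
  intro n hn2 hne
  have hn2' : (2:ℝ) ≤ n := by exact_mod_cast hn2
  have hn0 : (0:ℝ) < n := by linarith
  have hlogn : Real.log 2 ≤ Real.log n := Real.log_le_log (by norm_num) hn2'
  have hlogpos : 0 < Real.log n := by linarith
  by_cases hsm : n < n1
  · refine le_trans (ratio_le_one n) ?_
    have h1 : (n : ℝ) ^ (1 / 4 : ℝ) ≤ ((n1 : ℝ) + 1) ^ (1 / 4 : ℝ) := by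
      apply Real.rpow_le_rpow hn0.le _ (by norm_num)
      have : (n : ℝ) ≤ n1 := by exact_mod_cast hsm.le
      linarith
    rw [Real.rpow_neg hn0.le]
    have hp : 0 < (n : ℝ) ^ (1 / 4 : ℝ) := Real.rpow_pos_of_pos hn0 _
    rw [← div_eq_mul_inv, le_div_iff₀ hp, one_mul]
    calc (n : ℝ) ^ (1 / 4 : ℝ) ≤ ((n1 : ℝ) + 1) ^ (1 / 4 : ℝ) := h1
      _ = ((n1 : ℝ) + 1) ^ (1 / 4 : ℝ) / Real.log 2 * Real.log 2 := by field_simp
      _ ≤ ((n1 : ℝ) + 1) ^ (1 / 4 : ℝ) / Real.log 2 * Real.log n := by gcongr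
      _ ≤ _ := by
        have : 0 ≤ 1300 * Real.log n := by positivity
        linarith
  · push Not at hsm
    obtain ⟨c3, c5, c1⟩ := hn1 n hsm
    set N : ℕ := ⌊√(n : ℝ) / (480 * Real.log n ^ 2)⌋₊ with hN
    set B : ℝ := √(n : ℝ) / (80 * Real.log n) with hB
    have hN1 : 1 ≤ N := le_trans (le_max_right _ _) c1
    have hNN0 : N0 ≤ N := le_trans (le_max_left _ _) c1
    have hN1' : (1:ℝ) ≤ N := by exact_mod_cast hN1
    have hx0 : 0 ≤ √(n : ℝ) / (480 * Real.log n ^ 2) := by positivity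
    have hNle : (N : ℝ) ≤ √(n : ℝ) / (480 * Real.log n ^ 2) := Nat.floor_le hx0
    have hNge : √(n : ℝ) / (480 * Real.log n ^ 2) < N + 1 := Nat.lt_floor_add_one _
    have hs : √(N : ℝ) / 4 ≤ ∑ K ∈ KK N B, ∏ k ∈ K, ((k : ℝ))⁻¹ := by
      apply hN0 N hNN0
      have e1 : (2 * N + 1 : ℝ) ≤ √(n : ℝ) / (160 * Real.log n ^ 2) := by
        calc (2 * N + 1 : ℝ) ≤ 3 * N := by linarith
          _ ≤ 3 * (√(n : ℝ) / (480 * Real.log n ^ 2)) := by linarith
          _ = _ := by field_simp; norm_num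
      have e2 : (2 * N + 1 : ℝ) ≤ √(n : ℝ) := by
        refine le_trans e1 ?_
        apply div_le_self (Real.sqrt_nonneg _)
        nlinarith
      have e3 : Real.log (2 * N + 1) ≤ Real.log n / 2 := by
        rw [← Real.log_sqrt hn0.le]
        exact Real.log_le_log (by positivity) e2
      calc 4 * (2 * N + 1 : ℝ) * Real.log (2 * N + 1)
          ≤ 4 * (√(n : ℝ) / (160 * Real.log n ^ 2)) * (Real.log n / 2) := by
            apply mul_le_mul _ e3 (Real.log_nonneg (by linarith)) (by positivity)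
            linarith
        _ = B := by rw [hB]; field_simp; norm_num
    obtain ⟨h, hh⟩ := hne
    have hh2 : n = 2 * h := by omega
    have hh1 : 1 ≤ h := by omega
    have hP := P_bound h hh1 B N hN1 hs (by rw [← hh2]; exact c3) (by rw [← hh2]; exact c5)
      (by
        rw [← hh2, hB]
        apply le_of_eq
        field_simp)
    have hr : ratio n ≤ 32 / √(N : ℝ) + 3 * h * Real.exp 4 * (4 * h + 1) / (n : ℝ) ^ 5 := by
      unfold ratio
      rw [transfer]
      rw [← hh2] at hP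
      exact hP
    refine le_trans hr ?_
    have hq : (n : ℝ) ^ (-(1 / 4 : ℝ)) = (√(√(n : ℝ)))⁻¹ := by
      rw [Real.sqrt_eq_rpow, Real.sqrt_eq_rpow, ← Real.rpow_mul hn0.le, Real.rpow_neg hn0.le]
      norm_num
    have hqp : 0 < √(√(n : ℝ)) := Real.sqrt_pos.mpr (Real.sqrt_pos.mpr hn0)
    have b1 : 32 / √(N : ℝ) ≤ 1000 * Real.log n * (n : ℝ) ^ (-(1 / 4 : ℝ)) := by
      have g1 : √(n : ℝ) / (960 * Real.log n ^ 2) ≤ N := by
        have : √(n : ℝ) / (960 * Real.log n ^ 2) = (√(n : ℝ) / (480 * Real.log n ^ 2)) / 2 := by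
          field_simp; norm_num
        rw [this]; linarith
      have g2 : √(√(n : ℝ)) / (31 * Real.log n) ≤ √(N : ℝ) := by
        apply Real.le_sqrt_of_sq_le
        rw [div_pow, Real.sq_sqrt (Real.sqrt_nonneg _)]
        refine le_trans ?_ g1
        apply div_le_div_of_nonneg_left (Real.sqrt_nonneg _) (by positivity)
        nlinarith [sq_nonneg (Real.log n)]
      rw [hq]
      have g3 : 0 < √(√(n : ℝ)) / (31 * Real.log n) := by positivity
      calc 32 / √(N : ℝ) ≤ 32 / (√(√(n : ℝ)) / (31 * Real.log n)) :=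
            div_le_div_of_nonneg_left (by norm_num) g3 g2
        _ = 992 * Real.log n * (√(√(n : ℝ)))⁻¹ := by field_simp; norm_num
        _ ≤ _ := by gcongr; norm_num
    have b2 : 3 * (h:ℝ) * Real.exp 4 * (4 * h + 1) / (n : ℝ) ^ 5 ≤
        300 * Real.log n * (n : ℝ) ^ (-(1 / 4 : ℝ)) := by
      have hhn : (n : ℝ) = 2 * h := by rw [hh2]; push_cast; ring
      have hh0 : (h : ℝ) = n / 2 := by linarith
      have hexp4 : Real.exp 4 ≤ 60 := by
        have h1 : Real.exp 1 < 2.7182818286 := Real.exp_one_lt_d9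
        have h2 : Real.exp 4 = Real.exp 1 ^ 4 := by rw [← Real.exp_nat_mul]; norm_num
        rw [h2]
        calc Real.exp 1 ^ 4 ≤ 2.7182818286 ^ 4 := by
              apply pow_le_pow_left₀ (Real.exp_pos 1).le h1.le
          _ ≤ 60 := by norm_num
      have e4 : (n : ℝ) ^ (-(1 / 4 : ℝ)) ≥ (n : ℝ)⁻¹ := by
        rw [ge_iff_le, ← Real.rpow_neg_one]
        apply Real.rpow_le_rpow_of_exponent_le (by linarith) (by norm_num)
      have e5 : 3 * (h:ℝ) * Real.exp 4 * (4 * h + 1) / (n : ℝ) ^ 5 ≤ 300 * (n : ℝ)⁻¹ := by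
        rw [div_le_iff₀ (by positivity)]
        have e6 : 300 * (n : ℝ)⁻¹ * (n:ℝ) ^ 5 = 300 * (n : ℝ) ^ 4 := by field_simp
        rw [e6, hh0]
        have e7 : 3 * ((n:ℝ) / 2) * Real.exp 4 * (4 * (n / 2) + 1) ≤
            3 * ((n:ℝ) / 2) * 60 * (3 * n) := by
          apply mul_le_mul _ (by linarith) (by positivity) (by positivity)
          gcongr
        refine le_trans e7 ?_
        have e8 : (n:ℝ) ^ 2 ≤ n ^ 4 := pow_le_pow_right₀ (by linarith) (by norm_num)
        nlinarith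
      calc _ ≤ 300 * (n : ℝ)⁻¹ := e5
        _ ≤ 300 * 1 * (n : ℝ) ^ (-(1 / 4 : ℝ)) := by rw [mul_one]; gcongr
        _ ≤ 300 * Real.log n * (n : ℝ) ^ (-(1 / 4 : ℝ)) := by gcongr
    have hpos : 0 ≤ ((n1 : ℝ) + 1) ^ (1 / 4 : ℝ) / Real.log 2 * Real.log n *
        (n : ℝ) ^ (-(1 / 4 : ℝ)) := by positivity
    nlinarith

end Final3

end Pool.Agent.Helper651.SR
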